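import Pool.Agent.L0h54.EY.Rs

set_option autoImplicit false

/-! The main class: a divisor with known symbols in a known residue class. -/

namespace Pool.Agent.L0h54.EY

open Finset Real Pool.Agent.W57.SW Pool.Agent.L0h54.EX

/-- the numbers in the main class -/
def IsAC (R : ℕ → Finset ℕ) (γ : ℝ) (x n : ℕ) : Prop := ∃ d e M b : ℕ, n = d * e ∧ d ∈ R x ∧
  2 ≤ d ∧ Odd e ∧ Same x e b ∧ Nz x b ∧
  (b = 1 ∨ b ∈ d.primeFactors) ∧ M ∈ ((d - 1) * Nat.totient d).divisors ∧ d * e ≡ 1 [MOD M] ∧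
  (x : ℝ) ^ γ * ((e : ℝ) / M + 1) ^ (2 / 3 : ℝ) ≤ (e : ℝ) ^ (1 / 2 : ℝ)

lemma Gcard (ε : ℝ) (hε : 0 < ε) : ∃ K : ℝ, 0 < K ∧ ∀ x d : ℕ, 2 ≤ d → d ≤ x →
    (((((d - 1) * Nat.totient d).divisors) ×ˢ (insert 1 d.primeFactors)).card : ℝ) ≤
      K * (x : ℝ) ^ ε := by
  obtain ⟨C, hC, hdiv⟩ := Helper112.divisor_bound (ε / 4) (by positivity)
  refine ⟨C * (1 + 2 / (ε / 2)), by positivity, ?_⟩
  intro x d hd hdx
  have hx1 : (1 : ℝ) ≤ x := by exact_mod_cast (by omega : 1 ≤ x)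
  have hx0 : (0 : ℝ) < x := by linarith
  have ht := Nat.totient_pos.mpr (by omega : 0 < d)
  have h1 : ((((d - 1) * Nat.totient d).divisors).card : ℝ) ≤ C * (x : ℝ) ^ (ε / 2) := by
    refine (hdiv _ (Nat.mul_pos (by omega) ht)).trans (mul_le_mul_of_nonneg_left ?_ hC.le)
    have h2 : (d - 1) * Nat.totient d ≤ x ^ 2 := by
      rw [sq]
      exact Nat.mul_le_mul (by omega) ((Nat.totient_le d).trans hdx)
    calc ((((d - 1) * Nat.totient d : ℕ)) : ℝ) ^ (ε / 4) ≤ ((x : ℝ) ^ 2) ^ (ε / 4) :=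
          rpow_le_rpow (Nat.cast_nonneg _) (by exact_mod_cast h2) (by positivity)
      _ = (x : ℝ) ^ (ε / 2) := by
          rw [← rpow_natCast, ← rpow_mul hx0.le]; congr 1; push_cast; ring
  have hpf := pf_card (by omega : 1 ≤ d) hdx
  have h2 : ((insert 1 d.primeFactors).card : ℝ) ≤ (1 + 2 / (ε / 2)) * (x : ℝ) ^ (ε / 2) := by
    have e1 := card_insert_le 1 d.primeFactors
    have e2 : ((insert 1 d.primeFactors).card : ℝ) ≤ d.primeFactors.card + 1 := by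
      exact_mod_cast e1
    have e3 := log_fac (ε / 2) (by positivity) hx1
    linarith
  rw [card_product]
  push_cast
  calc ((((d - 1) * Nat.totient d).divisors).card : ℝ) * ((insert 1 d.primeFactors).card : ℝ) ≤
      (C * (x : ℝ) ^ (ε / 2)) * ((1 + 2 / (ε / 2)) * (x : ℝ) ^ (ε / 2)) :=
        mul_le_mul h1 h2 (Nat.cast_nonneg _) (by positivity)
    _ = C * (1 + 2 / (ε / 2)) * ((x : ℝ) ^ (ε / 2) * (x : ℝ) ^ (ε / 2)) := by ring
    _ = _ := by rw [← rpow_add hx0]; congr 2; ring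

theorem clsAC (R : ℕ → Finset ℕ) (θ γ β : ℝ) (hβ : 1 / 2 + θ - γ < β)
    (hR : ∀ x : ℕ, ∀ d ∈ R x, d ≤ x)
    (hrank : ∀ ε : ℝ, 0 < ε → ∃ K : ℝ, 0 < K ∧ ∃ x0 : ℕ, ∀ x : ℕ, x0 ≤ x → ∀ X : ℕ, 1 ≤ X →
      (((R x).filter (fun d : ℕ => d ≤ X)).card : ℝ) ≤ K * (x : ℝ) ^ (θ + ε) * (X : ℝ) ^ (1 / 2 + ε)) :
    ∃ K : ℝ, 0 < K ∧ ∃ x0 : ℕ, ∀ x : ℕ, x0 ≤ x → ∀ S : Finset ℕ,
    (∀ n ∈ S, (x : ℝ) / 2 < n ∧ n ≤ x ∧ IsAC R γ x n) →
    (S.card : ℝ) ≤ K * (x : ℝ) ^ β := by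
  classical
  obtain ⟨ε, hε, hε1, hε2⟩ : ∃ ε : ℝ, 0 < ε ∧ ε ≤ 1 / 8 ∧ 1 / 2 + θ - γ + 5 * ε ≤ β :=
    ⟨min (1 / 8) ((β - (1 / 2 + θ - γ)) / 5), lt_min (by norm_num) (by linarith),
      min_le_left _ _, by linarith [min_le_right (1 / 8 : ℝ) ((β - (1 / 2 + θ - γ)) / 5)]⟩
  obtain ⟨K1, hK1, x1, hx1⟩ := hrank ε hε
  obtain ⟨K2, hK2, hG⟩ := Gcard ε hε
  obtain ⟨K3, hK3, x2, hx2⟩ := lin23' ε hε hε1
  obtain ⟨C, hC, hQ⟩ := Qsum (1 / 2 + ε) (1 / 2) (1 / 2 + 2 * ε) 0 (by positivity)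
    (by linarith) (by linarith)
  refine ⟨K2 * (2 * K3) * (C * K1), by positivity, max (max x1 x2) 3, ?_⟩
  intro x hx S hS
  have hxx1 : x1 ≤ x := (le_max_left _ _).trans ((le_max_left _ _).trans hx)
  have hxx2 : x2 ≤ x := (le_max_right _ _).trans ((le_max_left _ _).trans hx)
  have hx3 : 3 ≤ x := (le_max_right _ _).trans hx
  have hxpos : (0 : ℝ) < x := by exact_mod_cast (by omega : 0 < x)
  have hx1' : (1 : ℝ) ≤ x := by exact_mod_cast (by omega : 1 ≤ x)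
  obtain ⟨D, hD⟩ : ∃ D : Finset ℕ, D = (R x).filter (fun d : ℕ => 2 ≤ d) := ⟨_, rfl⟩
  obtain ⟨Γ, hΓ⟩ : ∃ Γ : ℕ → Finset (ℕ × ℕ), Γ = fun d =>
      ((((d - 1) * Nat.totient d).divisors) ×ˢ (insert 1 d.primeFactors)).filter
      (fun gb => (x : ℝ) ^ γ * (((x : ℝ) / (2 * d)) / gb.1 + 1) ^ (2 / 3 : ℝ) ≤
        ((x : ℝ) / d) ^ (1 / 2 : ℝ) ∧ Nz x gb.2) := ⟨_, rfl⟩
  have hcov := cover_count S D Γ
    (fun d gb => (Icc 1 ⌊(x : ℝ) / d⌋₊).filter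
      (fun e => Odd e ∧ Same x e gb.2 ∧ d * e ≡ 1 [MOD gb.1])) (fun d _ e => d * e) (by
      intro n hn
      obtain ⟨h1, h2, d, e, g, b, h3, h4, h5, h7, h8, h9, h10, h13, h11, h12⟩ := hS n hn
      have hd0 : (0 : ℝ) < d := by exact_mod_cast (by omega : 0 < d)
      have he0 : 1 ≤ e := by
        rcases Nat.eq_zero_or_pos e with h | h
        · rw [h] at h7; exact absurd h7 (by decide)
        · exact h
      have he1 : (0 : ℝ) < e := by exact_mod_cast he0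
      have hde : (d : ℝ) * e ≤ x := by
        have : d * e ≤ x := by rw [← h3]; exact h2
        exact_mod_cast this
      have hed : (e : ℝ) ≤ (x : ℝ) / d := by rw [le_div_iff₀ hd0]; linarith
      have hed2 : (x : ℝ) / (2 * d) ≤ e := by
        rw [div_le_iff₀ (by positivity)]
        rw [h3] at h1
        push_cast at h1
        linarith
      refine ⟨d, ?_, (g, b), ?_, e, ?_, h3.symm⟩
      · rw [hD, mem_filter]
        exact ⟨h4, h5⟩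
      · rw [hΓ, mem_filter, mem_product, mem_insert]
        refine ⟨⟨h13, h10⟩, ?_, h9⟩
        have hg0 : (0 : ℝ) < g := by exact_mod_cast Nat.pos_of_mem_divisors h13
        refine le_trans ?_ (h12.trans (rpow_le_rpow he1.le hed (by norm_num)))
        apply mul_le_mul_of_nonneg_left _ (by positivity)
        apply rpow_le_rpow (by positivity) _ (by norm_num)
        show (x : ℝ) / (2 * d) / g + 1 ≤ (e : ℝ) / g + 1
        have := div_le_div_of_nonneg_right hed2 hg0.le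
        linarith
      · rw [mem_filter, mem_Icc]
        exact ⟨⟨he0, Nat.le_floor hed⟩, h7, h8, h11⟩)
  have hDm : ∀ d ∈ D, 2 ≤ d ∧ d ≤ x ∧ d ∈ R x := by
    intro d hd
    rw [hD, mem_filter] at hd
    exact ⟨hd.2, hR x d hd.1, hd.1⟩
  have hE : ∀ d ∈ D, ∀ gb ∈ Γ d,
      (((Icc 1 ⌊(x : ℝ) / d⌋₊).filter
        (fun e => Odd e ∧ Same x e gb.2 ∧ d * e ≡ 1 [MOD gb.1])).card : ℝ) ≤
      2 * K3 * (x : ℝ) ^ (ε - γ) * ((x : ℝ) / d) ^ (1 / 2 : ℝ) := by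
    intro d hd gb hgb
    obtain ⟨hd2, hdx, _⟩ := hDm d hd
    rw [hΓ, mem_filter, mem_product] at hgb
    obtain ⟨⟨hg, hb⟩, hgl, hbz⟩ := hgb
    have hd0 : (0 : ℝ) < d := by exact_mod_cast (by omega : 0 < d)
    obtain ⟨y, hy⟩ : ∃ y : ℝ, y = (x : ℝ) / d := ⟨_, rfl⟩
    have hy1 : 1 ≤ y := by
      rw [hy, one_le_div hd0]; exact_mod_cast hdx
    have hy0 : 0 < y := by linarith
    have hgx : 1 ≤ gb.1 ∧ gb.1 ≤ x ^ 2 := by
      have h1 := Nat.divisor_le hg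
      have h2 := Nat.pos_of_mem_divisors hg
      refine ⟨h2, h1.trans ?_⟩
      rw [sq]
      exact Nat.mul_le_mul (by omega) ((Nat.totient_le d).trans hdx)
    have hg0 : (0 : ℝ) < gb.1 := by exact_mod_cast hgx.1
    have hYx : ⌊y⌋₊ ≤ x := by
      apply Nat.floor_le_of_le
      rw [hy]
      exact div_le_self hxpos.le (by exact_mod_cast (by omega : 1 ≤ d))
    have e1 : ((x : ℝ) / (2 * d)) = y / 2 := by rw [hy]; field_simp
    rw [e1] at hgl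
    rw [← hy] at hgl ⊢
    have hbound : K3 * (x : ℝ) ^ ε * (((⌊y⌋₊ : ℕ) : ℝ) / gb.1 + 1) ^ (2 / 3 : ℝ) ≤
        2 * K3 * (x : ℝ) ^ (ε - γ) * y ^ (1 / 2 : ℝ) := by
      have e6 : ((⌊y⌋₊ : ℕ) : ℝ) / gb.1 + 1 ≤ 2 * (y / 2 / gb.1 + 1) := by
        have e7 : ((⌊y⌋₊ : ℕ) : ℝ) / gb.1 ≤ y / gb.1 :=
          div_le_div_of_nonneg_right (Nat.floor_le hy0.le) hg0.le
        have e8 : 2 * (y / 2 / gb.1) = y / gb.1 := by field_simp
        linarith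
      have e9 : (((⌊y⌋₊ : ℕ) : ℝ) / gb.1 + 1) ^ (2 / 3 : ℝ) ≤
          2 * (y / 2 / gb.1 + 1) ^ (2 / 3 : ℝ) := by
        calc (((⌊y⌋₊ : ℕ) : ℝ) / gb.1 + 1) ^ (2 / 3 : ℝ) ≤
            (2 * (y / 2 / gb.1 + 1)) ^ (2 / 3 : ℝ) :=
              rpow_le_rpow (by positivity) e6 (by norm_num)
          _ = 2 ^ (2 / 3 : ℝ) * (y / 2 / gb.1 + 1) ^ (2 / 3 : ℝ) := by
              rw [mul_rpow (by norm_num) (by positivity)]
          _ ≤ _ := by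
              apply mul_le_mul_of_nonneg_right _ (by positivity)
              calc (2 : ℝ) ^ (2 / 3 : ℝ) ≤ (2 : ℝ) ^ (1 : ℝ) :=
                    rpow_le_rpow_of_exponent_le (by norm_num) (by norm_num)
                _ = 2 := rpow_one _
      have e10 : (y / 2 / gb.1 + 1) ^ (2 / 3 : ℝ) ≤ (x : ℝ) ^ (-γ) * y ^ (1 / 2 : ℝ) := by
        have e11 : (x : ℝ) ^ (-γ) * (x : ℝ) ^ γ = 1 := by
          rw [← rpow_add hxpos]; simp
        have e12 := mul_le_mul_of_nonneg_left hgl (show 0 ≤ (x : ℝ) ^ (-γ) by positivity)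
        rw [← mul_assoc, e11, one_mul] at e12
        exact e12
      calc K3 * (x : ℝ) ^ ε * (((⌊y⌋₊ : ℕ) : ℝ) / gb.1 + 1) ^ (2 / 3 : ℝ) ≤
          K3 * (x : ℝ) ^ ε * (2 * ((x : ℝ) ^ (-γ) * y ^ (1 / 2 : ℝ))) := by
            apply mul_le_mul_of_nonneg_left _ (by positivity)
            linarith
        _ = 2 * K3 * ((x : ℝ) ^ ε * (x : ℝ) ^ (-γ)) * y ^ (1 / 2 : ℝ) := by ring
        _ = _ := by rw [← rpow_add hxpos]; rfl
    refine le_trans ?_ hbound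
    rcases ((Icc 1 ⌊y⌋₊).filter
        (fun e => Odd e ∧ Same x e gb.2 ∧ d * e ≡ 1 [MOD gb.1])).eq_empty_or_nonempty with h0 | h0
    · rw [h0]
      simp only [card_empty, Nat.cast_zero]
      positivity
    · obtain ⟨e0, he0⟩ := h0
      rw [mem_filter] at he0
      apply hx2 x hxx2 gb.1 ⌊y⌋₊ gb.2 e0 hgx.1 hgx.2 hYx hbz
      intro e he
      rw [mem_filter, mem_Icc] at he
      exact ⟨he.1.2, he.2.1, modeq_cancel he.2.2.2 he0.2.2.2, he.2.2.1⟩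
  have h1 : ∀ d ∈ D, ∑ gb ∈ Γ d, (((Icc 1 ⌊(x : ℝ) / d⌋₊).filter
        (fun e => Odd e ∧ Same x e gb.2 ∧ d * e ≡ 1 [MOD gb.1])).card : ℝ) ≤
      (K2 * (x : ℝ) ^ ε * (2 * K3 * (x : ℝ) ^ (ε - γ))) * ((x : ℝ) / d) ^ (1 / 2 : ℝ) := by
    intro d hd
    refine (sum_le_sum (hE d hd)).trans ?_
    rw [sum_const, nsmul_eq_mul]
    obtain ⟨hd2, hdx, _⟩ := hDm d hd
    have h2 : ((Γ d).card : ℝ) ≤ K2 * (x : ℝ) ^ ε := by
      refine le_trans ?_ (hG x d hd2 hdx)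
      rw [hΓ]
      exact_mod_cast card_filter_le _ _
    calc _ ≤ K2 * (x : ℝ) ^ ε * (2 * K3 * (x : ℝ) ^ (ε - γ) * ((x : ℝ) / d) ^ (1 / 2 : ℝ)) :=
          mul_le_mul_of_nonneg_right h2 (by positivity)
      _ = _ := by ring
  have h2 := hcov.trans (sum_le_sum h1)
  rw [← mul_sum] at h2
  have h3 := hQ x hx1' D (K1 * (x : ℝ) ^ (θ + ε)) (by positivity) (by
    intro d hd
    obtain ⟨a1, a2, a3⟩ := hDm d hd
    refine ⟨by omega, ?_⟩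
    rw [rpow_zero, mul_one]
    exact_mod_cast a2) (by
    intro X hX
    refine le_trans ?_ (hx1 x hxx1 X hX)
    have : D.filter (fun d : ℕ => d ≤ X) ⊆ (R x).filter (fun d : ℕ => d ≤ X) := by
      intro d hd
      rw [mem_filter] at hd
      exact mem_filter.mpr ⟨(hDm d hd.1).2.2, hd.2⟩
    exact_mod_cast card_le_card this)
  rw [zero_mul, sub_zero] at h3
  have h4 := h2.trans (mul_le_mul_of_nonneg_left h3 (by positivity))
  refine h4.trans ?_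
  have hfin : (x : ℝ) ^ ε * (x : ℝ) ^ (ε - γ) * (x : ℝ) ^ (θ + ε) * (x : ℝ) ^ (1 / 2 + 2 * ε) ≤
      (x : ℝ) ^ β := by
    rw [← rpow_add hxpos, ← rpow_add hxpos, ← rpow_add hxpos]
    apply rpow_le_rpow_of_exponent_le hx1'
    linarith
  calc (K2 * (x : ℝ) ^ ε * (2 * K3 * (x : ℝ) ^ (ε - γ))) *
        (C * (K1 * (x : ℝ) ^ (θ + ε)) * (x : ℝ) ^ (1 / 2 + 2 * ε)) =
      K2 * (2 * K3) * (C * K1) * ((x : ℝ) ^ ε * (x : ℝ) ^ (ε - γ) * (x : ℝ) ^ (θ + ε) *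
        (x : ℝ) ^ (1 / 2 + 2 * ε)) := by ring
    _ ≤ _ := mul_le_mul_of_nonneg_left hfin (by positivity)

end Pool.Agent.L0h54.EY
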