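import Pool.Agent.L0h54.EY.AC
import Pool.Agent.L0h54.EX.ClsB

set_option autoImplicit false

/-! The class with a large group at the only prime of minimal level. -/

namespace Pool.Agent.L0h54.EY

open Finset Real Pool.Agent.W57.SW Pool.Agent.L0h54.EX

/-- the numbers in the second class -/
def IsB (η : ℝ) (x n : ℕ) : Prop := ∃ m q g : ℕ, n = m * q ∧ m ∈ Dx x ∧ 2 ≤ m ∧ 2 ≤ q ∧
  g ∈ (m - 1).divisors ∧ q ≡ 1 [MOD g] ∧ (q : ℝ) ^ (1 / 2 : ℝ) * (x : ℝ) ^ η ≤ g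

theorem clsB (η β : ℝ) (hβ : 1 / 2 - η < β) : ∃ K : ℝ, 0 < K ∧ ∃ x0 : ℕ, ∀ x : ℕ, x0 ≤ x →
    ∀ S : Finset ℕ, (∀ n ∈ S, (x : ℝ) / 2 < n ∧ n ≤ x ∧ IsB η x n) →
    (S.card : ℝ) ≤ K * (x : ℝ) ^ β := by
  classical
  obtain ⟨ε, hε, hε2⟩ : ∃ ε : ℝ, 0 < ε ∧ 1 / 2 - η + 3 * ε ≤ β :=
    ⟨(β - (1 / 2 - η)) / 3, by linarith, by linarith⟩
  obtain ⟨K1, hK1, hrank⟩ := rank_Dx ε hε
  obtain ⟨K2, hK2, hdiv⟩ := Helper112.divisor_bound ε hε
  obtain ⟨C, hC, hQ⟩ := Qsum (1 / 2 + ε) (1 / 2) (1 / 2 + 2 * ε) 0 (by positivity)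
    (by linarith) (by linarith)
  refine ⟨K2 * 2 * (C * K1), by positivity, 3, ?_⟩
  intro x hx3 S hS
  have hxpos : (0 : ℝ) < x := by exact_mod_cast (by omega : 0 < x)
  have hx1' : (1 : ℝ) ≤ x := by exact_mod_cast (by omega : 1 ≤ x)
  obtain ⟨D, hD⟩ : ∃ D : Finset ℕ, D = (Dx x).filter (fun d : ℕ => 2 ≤ d) := ⟨_, rfl⟩
  obtain ⟨Γ, hΓ⟩ : ∃ Γ : ℕ → Finset ℕ, Γ = fun m => (m - 1).divisors.filter
      (fun g : ℕ => ((x : ℝ) / (2 * m)) ^ (1 / 2 : ℝ) * (x : ℝ) ^ η ≤ (g : ℝ)) := ⟨_, rfl⟩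
  have hcov := cover_count S D Γ
    (fun m g => (Icc 2 ⌊(x : ℝ) / m⌋₊).filter
      (fun q => q ≡ 1 [MOD g])) (fun m _ q => m * q) (by
      intro n hn
      obtain ⟨h1, h2, m, q, g, h3, h4, h5, h6, h8, h9, h10⟩ := hS n hn
      have hd0 : (0 : ℝ) < m := by exact_mod_cast (by omega : 0 < m)
      have he1 : (0 : ℝ) < q := by exact_mod_cast (by omega : 0 < q)
      have hde : (m : ℝ) * q ≤ x := by
        have : m * q ≤ x := by rw [← h3]; exact h2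
        exact_mod_cast this
      refine ⟨m, ?_, g, ?_, q, ?_, h3.symm⟩
      · rw [hD, mem_filter]
        exact ⟨h4, h5⟩
      · rw [hΓ, mem_filter]
        refine ⟨h8, ?_⟩
        refine le_trans ?_ h10
        apply mul_le_mul_of_nonneg_right _ (by positivity)
        apply rpow_le_rpow (by positivity) _ (by norm_num)
        rw [div_le_iff₀ (by positivity)]
        rw [h3] at h1
        push_cast at h1
        linarith
      · rw [mem_filter, mem_Icc]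
        refine ⟨⟨h6, Nat.le_floor ?_⟩, h9⟩
        rw [le_div_iff₀ hd0]
        linarith)
  have hDm : ∀ d ∈ D, 2 ≤ d ∧ d ≤ x ∧ d ∈ Dx x := by
    intro d hd
    rw [hD, mem_filter] at hd
    exact ⟨hd.2, (mem_Dx.mp hd.1).1.2, hd.1⟩
  have hE : ∀ m ∈ D, ∀ g ∈ Γ m,
      (((Icc 2 ⌊(x : ℝ) / m⌋₊).filter (fun q => q ≡ 1 [MOD g])).card : ℝ) ≤
      2 * (x : ℝ) ^ (-η) * ((x : ℝ) / m) ^ (1 / 2 : ℝ) := by
    intro m hm g hg
    obtain ⟨hd2, hdx, _⟩ := hDm m hm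
    rw [hΓ, mem_filter] at hg
    obtain ⟨hg, hgl⟩ := hg
    have hd0 : (0 : ℝ) < m := by exact_mod_cast (by omega : 0 < m)
    obtain ⟨y, hy⟩ : ∃ y : ℝ, y = (x : ℝ) / m := ⟨_, rfl⟩
    have hy1 : 1 ≤ y := by
      rw [hy, one_le_div hd0]; exact_mod_cast hdx
    have hy0 : 0 < y := by linarith
    have hg1 := Nat.pos_of_mem_divisors hg
    have hg0 : (0 : ℝ) < g := by exact_mod_cast hg1
    rw [← hy]
    have h1 := card_mod_one (Y := ⌊y⌋₊) hg1 ((Icc 2 ⌊y⌋₊).filter (fun q => q ≡ 1 [MOD g])) (by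
      intro q hq
      rw [mem_filter, mem_Icc] at hq
      exact ⟨hq.1.1, hq.1.2, hq.2⟩)
    refine h1.trans ?_
    have e1 : ((x : ℝ) / (2 * m)) = y / 2 := by rw [hy]; field_simp
    rw [e1] at hgl
    have e7 : ((⌊y⌋₊ : ℕ) : ℝ) / g ≤ y / g :=
      div_le_div_of_nonneg_right (Nat.floor_le hy0.le) hg0.le
    refine e7.trans ?_
    rw [div_le_iff₀ hg0]
    have e3 : y ^ (1 / 2 : ℝ) / 2 * (x : ℝ) ^ η ≤ g := by
      refine le_trans ?_ hgl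
      apply mul_le_mul_of_nonneg_right _ (by positivity)
      rw [div_rpow hy0.le (by norm_num)]
      apply div_le_div_of_nonneg_left (by positivity) (by positivity)
      calc (2 : ℝ) ^ (1 / 2 : ℝ) ≤ (2 : ℝ) ^ (1 : ℝ) :=
            rpow_le_rpow_of_exponent_le (by norm_num) (by norm_num)
        _ = 2 := rpow_one _
    have e4 : y = y ^ (1 / 2 : ℝ) * y ^ (1 / 2 : ℝ) := by
      rw [← rpow_add hy0]; norm_num
    have e5 : (x : ℝ) ^ (-η) * (x : ℝ) ^ η = 1 := by rw [← rpow_add hxpos]; simp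
    calc y = y ^ (1 / 2 : ℝ) * y ^ (1 / 2 : ℝ) * ((x : ℝ) ^ (-η) * (x : ℝ) ^ η) := by
          rw [e5, mul_one]; exact e4
      _ = 2 * (x : ℝ) ^ (-η) * y ^ (1 / 2 : ℝ) * (y ^ (1 / 2 : ℝ) / 2 * (x : ℝ) ^ η) := by ring
      _ ≤ _ := mul_le_mul_of_nonneg_left e3 (by positivity)
  have h1 : ∀ m ∈ D, ∑ g ∈ Γ m,
      (((Icc 2 ⌊(x : ℝ) / m⌋₊).filter (fun q => q ≡ 1 [MOD g])).card : ℝ) ≤
      (K2 * (x : ℝ) ^ ε * (2 * (x : ℝ) ^ (-η))) * ((x : ℝ) / m) ^ (1 / 2 : ℝ) := by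
    intro m hm
    refine (sum_le_sum (hE m hm)).trans ?_
    rw [sum_const, nsmul_eq_mul]
    obtain ⟨hd2, hdx, _⟩ := hDm m hm
    have h2 : ((Γ m).card : ℝ) ≤ K2 * (x : ℝ) ^ ε := by
      have h3 : ((Γ m).card : ℝ) ≤ (m - 1).divisors.card := by
        rw [hΓ]; exact_mod_cast card_filter_le _ _
      refine h3.trans ((hdiv (m - 1) (by omega)).trans ?_)
      apply mul_le_mul_of_nonneg_left _ hK2.le
      apply rpow_le_rpow (Nat.cast_nonneg _) _ hε.le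
      exact_mod_cast (by omega : m - 1 ≤ x)
    calc _ ≤ K2 * (x : ℝ) ^ ε * (2 * (x : ℝ) ^ (-η) * ((x : ℝ) / m) ^ (1 / 2 : ℝ)) :=
          mul_le_mul_of_nonneg_right h2 (by positivity)
      _ = _ := by ring
  have h2 := hcov.trans (sum_le_sum h1)
  rw [← mul_sum] at h2
  have h3 := hQ x hx1' D K1 hK1.le (by
    intro d hd
    obtain ⟨a1, a2, _⟩ := hDm d hd
    refine ⟨by omega, ?_⟩
    rw [rpow_zero, mul_one]
    exact_mod_cast a2) (by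
    intro X hX
    refine le_trans ?_ (hrank x X hX)
    have : D.filter (fun d : ℕ => d ≤ X) ⊆ (Dx x).filter (fun d : ℕ => d ≤ X) := by
      intro d hd
      rw [mem_filter] at hd
      exact mem_filter.mpr ⟨(hDm d hd.1).2.2, hd.2⟩
    exact_mod_cast card_le_card this)
  rw [zero_mul, sub_zero] at h3
  have h4 := h2.trans (mul_le_mul_of_nonneg_left h3 (by positivity))
  refine h4.trans ?_
  have hfin : (x : ℝ) ^ ε * (x : ℝ) ^ (-η) * (x : ℝ) ^ (1 / 2 + 2 * ε) ≤ (x : ℝ) ^ β := by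
    rw [← rpow_add hxpos, ← rpow_add hxpos]
    apply rpow_le_rpow_of_exponent_le hx1'
    linarith
  calc (K2 * (x : ℝ) ^ ε * (2 * (x : ℝ) ^ (-η))) * (C * K1 * (x : ℝ) ^ (1 / 2 + 2 * ε)) =
      K2 * 2 * (C * K1) * ((x : ℝ) ^ ε * (x : ℝ) ^ (-η) * (x : ℝ) ^ (1 / 2 + 2 * ε)) := by ring
    _ ≤ _ := mul_le_mul_of_nonneg_left hfin (by positivity)

end Pool.Agent.L0h54.EY
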