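import Pool.Agent.L0h54.EY.St

set_option autoImplicit false

/-! Every number without a small witness is in one of the classes. -/

namespace Pool.Agent.L0h54.EY

open Finset Real Pool.Agent.H379R2.W Pool.Agent.W57.SW Pool.Agent.L0h54.EX

/-- the seven classes -/
def Cl (x n : ℕ) : Prop := IsAC R0 (101 / 10000) x n ∨ IsAC (R1 (101 / 10000)) (202 / 10000) x n ∨
  IsB (101 / 10000) x n ∨ IsD1' x n ∨ IsD2' x n ∨
  IsS2 (609 / 10000) (150 / 10000) (1370 / 10000) (1219 / 10000) x n ∨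
  IsS2 (812 / 10000) (650 / 10000) (1056 / 10000) (1625 / 10000) x n

theorem case_small : ∃ x0 : ℕ, ∀ x : ℕ, x0 ≤ x → ∀ (n : ℕ) (E : Finset ℕ), Dt x n E →
    (Lc n n : ℝ) ≤ (x : ℝ) ^ (609 / 10000 : ℝ) → Cl x n := by
  obtain ⟨x1, hx1⟩ := cof (1219 / 10000) (150 / 10000) (by norm_num)
  refine ⟨max x1 2, ?_⟩
  intro x hx n E h hsm
  have hxx1 : x1 ≤ x := (le_max_left _ _).trans hx
  have hx2 : 2 ≤ x := (le_max_right _ _).trans hx
  obtain ⟨b, hb⟩ := h.E_ne
  obtain ⟨hbp, hbn⟩ := h.E_sub b hb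
  have hsz : ∀ r : ℕ, r.Prime → r ∣ n → (r : ℝ) ≤ (x : ℝ) ^ (1219 / 10000 : ℝ) := fun r hr hrn =>
    size_of (by omega) hr.one_lt.le (le_Lc h hr hrn dvd_rfl) hsm (by norm_num)
  obtain ⟨m, hm⟩ := hbn
  have hmn : m ∣ n := Dvd.intro_left b hm.symm
  have hlt := h.lt
  rw [hm] at hlt
  have hm1 := hx1 x hxx1 b m hlt (hsz b hbp ⟨m, hm⟩)
  obtain ⟨e, _, he1, he2, he3⟩ := block2 (e0 := 1) (a' := 1370 / 10000) (s := 1219 / 10000) hx2
    (by norm_num) (h.dvd_facts hmn).1 (one_dvd m)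
    (by
      rw [Nat.cast_one]
      exact one_le_rpow (by exact_mod_cast (by omega : 1 ≤ x)) (by norm_num)) hm1
    (fun r hr hrm => hsz r hr (hrm.trans hmn))
  obtain ⟨f, hf⟩ := he1
  have hnn : n = b * (f * e) := by rw [hm, hf]; ring
  refine Or.inr (Or.inr (Or.inr (Or.inr (Or.inr (Or.inl ?_)))))
  exact s2 h hb hnn ⟨e, by rw [hnn]; ring⟩ dvd_rfl hsm (hsz b hbp ⟨m, hm⟩) he2 he3

lemma M_dvd {x n : ℕ} {E : Finset ℕ} (h : Dat x n E) {d r : ℕ} (hr : r.Prime) (hn : n = d * r) :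
    Lc n n ∣ (d - 1) * Nat.totient d := by
  have h1 : Lc n n ∣ Nat.lcm (Lc n d) (Nat.gcd (r - 1) (n - 1)) := by
    have h2 := Lc_mul (n := n) (d := d) hr
    rwa [← hn] at h2
  refine h1.trans (Nat.lcm_dvd ?_ ?_)
  · exact (Lc_dvd_tot n d).trans (Dvd.intro_left _ rfl)
  · exact (h.gcd_cofactor hr (by rw [hn, mul_comm])).trans (Dvd.intro _ rfl)

/-- the last step in the case of a small modulus -/
lemma fin_s2 {x n : ℕ} {E : Finset ℕ} (hx : 2 ≤ x) (h : Dt x n E) {b P e0 c : ℕ} (hb : b ∈ E)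
    (hbP : b ∣ P) (hn : n = P * (e0 * c)) (hL : (Lc n (P * c) : ℝ) ≤ (x : ℝ) ^ (812 / 10000 : ℝ))
    (hbx : (b : ℝ) ≤ (x : ℝ) ^ (1625 / 10000 : ℝ))
    (hm : (x : ℝ) ^ (650 / 10000 : ℝ) ≤ ((e0 * c : ℕ) : ℝ))
    (he0 : (e0 : ℝ) ≤ (x : ℝ) ^ (1056 / 10000 : ℝ))
    (hs : ∀ r : ℕ, r.Prime → r ∣ e0 * c → (r : ℝ) ≤ (x : ℝ) ^ (406 / 10000 : ℝ)) : Cl x n := by
  have hmn : e0 * c ∣ n := Dvd.intro_left P hn.symm
  have hm1 := (h.dvd_facts hmn).1
  obtain ⟨e, ⟨k, hk⟩, ⟨m', hm'⟩, he2, he3⟩ := block2 (e0 := e0) hx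
    (show (650 / 10000 : ℝ) + 406 / 10000 ≤ 1056 / 10000 by norm_num) hm1 (Dvd.intro _ rfl) he0
    hm hs
  obtain ⟨P', hP'⟩ := hbP
  have he00 : 0 < e0 := by
    rcases Nat.eq_zero_or_pos e0 with h | h
    · rw [h, zero_mul] at hm1; omega
    · exact h
  have hck : c = k * m' := by
    apply Nat.eq_of_mul_eq_mul_left he00
    rw [hm', hk]; ring
  have hnn : n = b * ((P' * m') * e) := by rw [hn, hm', hP']; ring
  have hdn : P * c ∣ n := ⟨e0, by rw [hn]; ring⟩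
  refine Or.inr (Or.inr (Or.inr (Or.inr (Or.inr (Or.inr ?_)))))
  exact s2 h hb hnn ⟨k, by rw [hP', hck]; ring⟩ hdn hL hbx he2 he3

theorem case3 : ∃ x0 : ℕ, ∀ x : ℕ, x0 ≤ x → ∀ (n : ℕ) (E : Finset ℕ), Dt x n E →
    3 ≤ E.card → (x : ℝ) ^ (609 / 10000 : ℝ) ≤ Lc n n → Cl x n := by
  classical
  obtain ⟨x1, hx1⟩ := cof (612 / 10000) (650 / 10000) (by norm_num)
  obtain ⟨x2, hx2⟩ := ac_prime (101 / 10000) (204 / 10000) (by norm_num) (by norm_num)
  obtain ⟨x3, hx3⟩ := ac_small (101 / 10000) (204 / 10000) (by norm_num)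
  refine ⟨max (max x1 x2) (max x3 2), ?_⟩
  intro x hx n E h hE3 hbig
  have hxx1 : x1 ≤ x := (le_max_left _ _).trans ((le_max_left _ _).trans hx)
  have hxx2 : x2 ≤ x := (le_max_right _ _).trans ((le_max_left _ _).trans hx)
  have hxx3 : x3 ≤ x := (le_max_left _ _).trans ((le_max_right _ _).trans hx)
  have hx2' : 2 ≤ x := (le_max_right _ _).trans ((le_max_right _ _).trans hx)
  have hxpos : (0 : ℝ) < x := by exact_mod_cast (by omega : 0 < x)
  have hx1' : (1 : ℝ) ≤ x := by exact_mod_cast (by omega : 1 ≤ x)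
  have hn1 := h.pos
  by_cases hr : ∃ r : ℕ, r.Prime ∧ r ∣ n ∧ (x : ℝ) ^ (204 / 10000 : ℝ) ≤ r
  · obtain ⟨r, hr, ⟨d, hd⟩, hrx⟩ := hr
    have hfil := h.filter_prime hr hd
    have hcard : E.card - 1 ≤ (E.filter (fun q => q ∣ d)).card := by
      rw [hfil]; exact Finset.pred_card_le_card_erase
    have hk : Even ((E.filter (fun r => r ∣ d)).card) ∨ 3 ≤ (E.filter (fun r => r ∣ d)).card := by
      rcases Nat.lt_or_ge ((E.filter (fun r => r ∣ d)).card) 3 with h1 | h1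
      · left
        have : (E.filter (fun r => r ∣ d)).card = 2 := by omega
        rw [this]; exact even_two
      · exact Or.inr h1
    have hne : (E.filter (fun r => r ∣ d)).Nonempty := by
      rw [← Finset.card_pos]; omega
    obtain ⟨b, hb⟩ := hne
    rw [mem_filter] at hb
    have hdr : n = d * r := by rw [hd, mul_comm]
    left
    exact ac0 h.toDat hdr hk hb.1 hb.2 (M_dvd h.toDat hr hdr) (Lc_dvd_pred n n)
      (hx2 x hxx2 r (Lc n n) (Lc_pos (by omega)) hrx hbig (le_Lc h hr ⟨d, hd⟩ dvd_rfl))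
  · push Not at hr
    obtain ⟨T, hTE, hT⟩ := Finset.exists_subset_card_eq hE3
    obtain ⟨P, hP⟩ : ∃ P : ℕ, P = ∏ q ∈ T, q := ⟨_, rfl⟩
    have hPn : P ∣ n := by
      rw [hP]
      exact Finset.prod_primes_dvd n (fun q hq => (h.E_sub q (hTE hq)).1.prime)
        (fun q hq => (h.E_sub q (hTE hq)).2)
    obtain ⟨m, hm⟩ := hPn
    have hmn : m ∣ n := Dvd.intro_left P hm.symm
    have hPx : (P : ℝ) ≤ (x : ℝ) ^ (612 / 10000 : ℝ) := by
      rw [hP]
      push_cast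
      calc ∏ q ∈ T, (q : ℝ) ≤ ∏ _q ∈ T, (x : ℝ) ^ (204 / 10000 : ℝ) :=
            prod_le_prod (fun q _ => Nat.cast_nonneg _)
              (fun q hq => (hr q (h.E_sub q (hTE hq)).1 (h.E_sub q (hTE hq)).2).le)
        _ = ((x : ℝ) ^ (204 / 10000 : ℝ)) ^ 3 := by rw [prod_const, hT]
        _ = _ := by rw [← rpow_natCast, ← rpow_mul hxpos.le]; norm_num
    have hlt := h.lt
    rw [hm] at hlt
    have hm1 := hx1 x hxx1 P m hlt hPx
    have hsm : ∀ r : ℕ, r.Prime → r ∣ m → (r : ℝ) < (x : ℝ) ^ (204 / 10000 : ℝ) :=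
      fun r hr' hrm => hr r hr' (hrm.trans hmn)
    obtain ⟨e0, ⟨c, hc⟩, he1, he2⟩ := block hx2' (show (0 : ℝ) < 204 / 10000 by norm_num)
      (h.dvd_facts hmn).1
      ((rpow_le_rpow_of_exponent_le hx1' (by norm_num)).trans hm1) hsm
    have hnd : n = (P * c) * e0 := by rw [hm, hc]; ring
    have hTd : ∀ b ∈ T, b ∣ P := fun b hb => by rw [hP]; exact dvd_prod_of_mem (fun q => q) hb
    have hk : 3 ≤ (E.filter (fun r => r ∣ P * c)).card := by
      rw [← hT]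
      apply card_le_card
      intro b hb
      rw [mem_filter]
      exact ⟨hTE hb, (hTd b hb).mul_right c⟩
    obtain ⟨b, hb⟩ : T.Nonempty := by rw [← Finset.card_pos]; omega
    rw [show (2 : ℝ) * (204 / 10000) = 408 / 10000 by norm_num] at he2
    have hdn : P * c ∣ n := ⟨e0, hnd⟩
    have hd1 := (h.dvd_facts hdn).1
    rcases le_or_gt ((x : ℝ) ^ (408 / 10000 : ℝ)) (Lc n (P * c)) with hL | hL
    · left
      apply ac0 h.toDat hnd (Or.inr hk) (hTE hb) ((hTd b hb).mul_right c)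
        ((Lc_dvd_tot n (P * c)).trans (Dvd.intro_left _ rfl)) (Lc_dvd_pred n (P * c))
      apply hx3 x hxx3 e0 _ (Lc_pos (by omega)) he1
      have : (e0 : ℝ) < (Lc n (P * c) : ℕ) := he2.trans_le hL
      exact_mod_cast this.le
    · have hn2 : n = P * (e0 * c) := by rw [hm, hc]
      apply fin_s2 hx2' h (hTE hb) (hTd b hb) hn2
      · exact hL.le.trans (rpow_le_rpow_of_exponent_le hx1' (by norm_num))
      · exact (hr b (h.E_sub b (hTE hb)).1 (h.E_sub b (hTE hb)).2).le.trans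
          (rpow_le_rpow_of_exponent_le hx1' (by norm_num))
      · rw [← hc]; exact hm1
      · exact he2.le.trans (rpow_le_rpow_of_exponent_le hx1' (by norm_num))
      · intro r hr' hrm
        rw [← hc] at hrm
        exact (hsm r hr' hrm).le.trans (rpow_le_rpow_of_exponent_le hx1' (by norm_num))

theorem case2 : ∃ x0 : ℕ, ∀ x : ℕ, x0 ≤ x → ∀ (n : ℕ) (E : Finset ℕ), Dt x n E →
    E.card = 2 → (x : ℝ) ^ (609 / 10000 : ℝ) ≤ Lc n n → Cl x n := by
  classical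
  obtain ⟨x1, hx1⟩ := cof (1634 / 10000) (650 / 10000) (by norm_num)
  obtain ⟨x2, hx2⟩ := ac_prime (101 / 10000) (204 / 10000) (by norm_num) (by norm_num)
  obtain ⟨x3, hx3⟩ := ac_small (101 / 10000) (204 / 10000) (by norm_num)
  refine ⟨max (max x1 x2) (max x3 2), ?_⟩
  intro x hx n E h hE2 hbig
  have hxx1 : x1 ≤ x := (le_max_left _ _).trans ((le_max_left _ _).trans hx)
  have hxx2 : x2 ≤ x := (le_max_right _ _).trans ((le_max_left _ _).trans hx)
  have hxx3 : x3 ≤ x := (le_max_left _ _).trans ((le_max_right _ _).trans hx)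
  have hx2' : 2 ≤ x := (le_max_right _ _).trans ((le_max_right _ _).trans hx)
  have hxpos : (0 : ℝ) < x := by exact_mod_cast (by omega : 0 < x)
  have hx1' : (1 : ℝ) ≤ x := by exact_mod_cast (by omega : 1 ≤ x)
  have hn1 := h.pos
  obtain ⟨p, q, hqp, hE⟩ : ∃ p q : ℕ, q < p ∧ E = {p, q} := by
    obtain ⟨a, b, hab, hEab⟩ := card_eq_two.mp hE2
    rcases lt_or_gt_of_ne hab with h1 | h1
    · exact ⟨b, a, h1, by rw [hEab, pair_comm]⟩
    · exact ⟨a, b, h1, hEab⟩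
  have hpE : p ∈ E := by rw [hE]; simp
  have hqE : q ∈ E := by rw [hE]; simp
  obtain ⟨hpp, hpn⟩ := h.E_sub p hpE
  obtain ⟨hqq, hqn⟩ := h.E_sub q hqE
  obtain ⟨m, hm⟩ : p * q ∣ n :=
    Nat.Coprime.mul_dvd_of_dvd_of_dvd ((Nat.coprime_primes hpp hqq).mpr hqp.ne') hpn hqn
  have hmn : m ∣ n := Dvd.intro_left _ hm.symm
  have hm1 := (h.dvd_facts hmn).1
  have hfull : ∀ c : ℕ, (E.filter (fun r => r ∣ (p * q) * c)).card = 2 := by
    intro c
    rw [← hE2]
    congr 1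
    rw [filter_eq_self]
    intro r hr
    rw [hE, mem_insert, mem_singleton] at hr
    rcases hr with rfl | rfl
    · exact (Dvd.intro _ rfl : r ∣ r * q).mul_right c
    · exact (Dvd.intro_left _ rfl : r ∣ p * r).mul_right c
  have hk : ∀ c : ℕ, Even ((E.filter (fun r => r ∣ (p * q) * c)).card) ∨
      3 ≤ (E.filter (fun r => r ∣ (p * q) * c)).card := by
    intro c; left; rw [hfull c]; exact even_two
  have hqP : q ∣ p * q := Dvd.intro_left _ rfl
  rcases le_or_gt (m : ℝ) ((x : ℝ) ^ (204 / 10000 : ℝ)) with hmx | hmx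
  · have hnp : n = p * (q * m) := by rw [hm]; ring
    have hnq : n = q * (p * m) := by rw [hm]; ring
    by_cases hm2 : m = 1
    · refine Or.inr (Or.inr (Or.inr (Or.inl ?_)))
      have hn3 : n = p * q := by rw [hm, hm2, mul_one]
      exact ⟨p, q, Nat.gcd (p - 1) (n - 1), hn3, hpp, hqq, hqp,
        (h.dvd_facts hpn).2.2.1, (h.dvd_facts hqn).2.2.1, h.E_same p hpE q hqE, h.nz q hqq hqn,
        Nat.gcd_dvd_left _ _, h.gcd_cofactor hpp hn3, h.lv p hpp hpn⟩
    · refine Or.inr (Or.inr (Or.inr (Or.inr (Or.inl ?_))))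
      exact ⟨p, q, m, Nat.gcd (p - 1) (n - 1), Nat.gcd (q - 1) (n - 1), hm, hpp, hqq, hqp,
        by omega, hmx, Nat.gcd_dvd_left _ _, h.gcd_cofactor hpp hnp, Nat.gcd_dvd_left _ _,
        h.gcd_cofactor hqq hnq, h.lv p hpp hpn, h.lv q hqq hqn, h.gp p hpp hpn, h.gp q hqq hqn⟩
  · by_cases hr : ∃ r : ℕ, r.Prime ∧ r ∣ m ∧ (x : ℝ) ^ (204 / 10000 : ℝ) ≤ r
    · obtain ⟨r, hr, ⟨c, hc⟩, hrx⟩ := hr
      have hnd : n = ((p * q) * c) * r := by rw [hm, hc]; ring
      left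
      exact ac0 h.toDat hnd (hk c) hqE (hqP.mul_right c) (M_dvd h.toDat hr hnd)
        (Lc_dvd_pred n n)
        (hx2 x hxx2 r (Lc n n) (Lc_pos (by omega)) hrx hbig
          (le_Lc h hr (Dvd.intro_left _ hnd.symm) dvd_rfl))
    · push Not at hr
      obtain ⟨e0, ⟨c, hc⟩, he1, he2⟩ := block hx2' (show (0 : ℝ) < 204 / 10000 by norm_num)
        hm1 hmx.le hr
      have hnd : n = ((p * q) * c) * e0 := by rw [hm, hc]; ring
      rw [show (2 : ℝ) * (204 / 10000) = 408 / 10000 by norm_num] at he2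
      have hdn : (p * q) * c ∣ n := ⟨e0, hnd⟩
      have hd1 := (h.dvd_facts hdn).1
      rcases le_or_gt ((x : ℝ) ^ (408 / 10000 : ℝ)) (Lc n ((p * q) * c)) with hL | hL
      · left
        apply ac0 h.toDat hnd (hk c) hqE (hqP.mul_right c)
          ((Lc_dvd_tot n _).trans (Dvd.intro_left _ rfl)) (Lc_dvd_pred n _)
        apply hx3 x hxx3 e0 _ (Lc_pos (by omega)) he1
        have : (e0 : ℝ) < (Lc n ((p * q) * c) : ℕ) := he2.trans_le hL
        exact_mod_cast this.le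
      · have hsz : ∀ r : ℕ, r.Prime → r ∣ (p * q) * c → (r : ℝ) ≤ (x : ℝ) ^ (817 / 10000 : ℝ) :=
          fun r hr hrn => size_of (by omega) hr.one_lt.le (le_Lc h hr hrn hdn) hL.le (by norm_num)
        have hpx := hsz p hpp ((Dvd.intro _ rfl : p ∣ p * q).mul_right c)
        have hqx := hsz q hqq (hqP.mul_right c)
        have hpqx : ((p * q : ℕ) : ℝ) ≤ (x : ℝ) ^ (1634 / 10000 : ℝ) := by
          push_cast
          calc (p : ℝ) * q ≤ (x : ℝ) ^ (817 / 10000 : ℝ) * (x : ℝ) ^ (817 / 10000 : ℝ) :=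
                mul_le_mul hpx hqx (Nat.cast_nonneg _) (by positivity)
            _ = _ := by rw [← rpow_add hxpos]; norm_num
        have hlt := h.lt
        rw [hm] at hlt
        have hmm := hx1 x hxx1 (p * q) m hlt hpqx
        have hn2 : n = (p * q) * (e0 * c) := by rw [hm, hc]
        apply fin_s2 hx2' h hqE hqP hn2
        · exact hL.le.trans (rpow_le_rpow_of_exponent_le hx1' (by norm_num))
        · exact hqx.trans (rpow_le_rpow_of_exponent_le hx1' (by norm_num))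
        · rw [← hc]; exact hmm
        · exact he2.le.trans (rpow_le_rpow_of_exponent_le hx1' (by norm_num))
        · intro r hr' hrm
          rw [← hc] at hrm
          exact (hr r hr' hrm).le.trans (rpow_le_rpow_of_exponent_le hx1' (by norm_num))

theorem case1 : ∃ x0 : ℕ, ∀ x : ℕ, x0 ≤ x → ∀ (n : ℕ) (E : Finset ℕ), Dt x n E →
    E.card = 1 → (x : ℝ) ^ (609 / 10000 : ℝ) ≤ Lc n n → Cl x n := by
  classical
  obtain ⟨x1, hx1⟩ := cof (1625 / 10000) (650 / 10000) (by norm_num)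
  obtain ⟨x2, hx2⟩ := ac_prime (202 / 10000) (406 / 10000) (by norm_num) (by norm_num)
  obtain ⟨x3, hx3⟩ := ac_small (202 / 10000) (406 / 10000) (by norm_num)
  obtain ⟨x4, hx4⟩ := cof (406 / 10000) (9 / 10) (by norm_num)
  refine ⟨max (max (max x1 x2) x4) (max x3 2), ?_⟩
  intro x hx n E h hE1 hbig
  have hxx1 : x1 ≤ x :=
    (le_max_left _ _).trans ((le_max_left _ _).trans ((le_max_left _ _).trans hx))
  have hxx2 : x2 ≤ x :=
    (le_max_right _ _).trans ((le_max_left _ _).trans ((le_max_left _ _).trans hx))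
  have hxx4 : x4 ≤ x := (le_max_right _ _).trans ((le_max_left _ _).trans hx)
  have hxx3 : x3 ≤ x := (le_max_left _ _).trans ((le_max_right _ _).trans hx)
  have hx2' : 2 ≤ x := (le_max_right _ _).trans ((le_max_right _ _).trans hx)
  have hxpos : (0 : ℝ) < x := by exact_mod_cast (by omega : 0 < x)
  have hx1' : (1 : ℝ) ≤ x := by exact_mod_cast (by omega : 1 ≤ x)
  have hn1 := h.pos
  obtain ⟨q, hE⟩ := card_eq_one.mp hE1
  have hqE : q ∈ E := by rw [hE]; simp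
  obtain ⟨hqq, hqn⟩ := h.E_sub q hqE
  obtain ⟨m, hm⟩ := hqn
  have hqn : q ∣ n := ⟨m, hm⟩
  have hmn : m ∣ n := Dvd.intro_left _ hm.symm
  have hm2 := h.big q m hqq hm
  by_cases hB : (q : ℝ) ^ (1 / 2 : ℝ) * (x : ℝ) ^ (101 / 10000 : ℝ) ≤ Nat.gcd (q - 1) (n - 1)
  · refine Or.inr (Or.inr (Or.inl ?_))
    refine ⟨m, q, Nat.gcd (q - 1) (n - 1), by rw [hm, mul_comm], ?_, hm2, hqq.two_le, ?_, ?_, hB⟩
    · apply h.even_mem hmn
      rw [h.filter_prime hqq hm, hE]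
      simp
    · rw [Nat.mem_divisors]
      exact ⟨h.gcd_cofactor hqq hm, by omega⟩
    · exact ((Nat.modEq_iff_dvd' hqq.one_lt.le).mpr (Nat.gcd_dvd_left _ _)).symm
  · push Not at hB
    have hP : ∀ c : ℕ, P1 (101 / 10000) x c q := fun c =>
      ⟨Nat.gcd (q - 1) (n - 1), h.gp_pos hqq hqn, hB.le, h.lv q hqq hqn⟩
    by_cases hr : ∃ r : ℕ, r.Prime ∧ r ∣ m ∧ (x : ℝ) ^ (406 / 10000 : ℝ) ≤ r
    · obtain ⟨r, hr, ⟨c, hc⟩, hrx⟩ := hr
      have hnd : n = (q * c) * r := by rw [hm, hc]; ring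
      refine Or.inr (Or.inl ?_)
      exact ac1 h.toDat hE hnd (hP c) (M_dvd h.toDat hr hnd) (Lc_dvd_pred n n)
        (hx2 x hxx2 r (Lc n n) (Lc_pos (by omega)) hrx hbig
          (le_Lc h hr (Dvd.intro_left _ hnd.symm) dvd_rfl))
    · push Not at hr
      have hmx : (x : ℝ) ^ (406 / 10000 : ℝ) ≤ m := by
        by_contra hc
        push Not at hc
        have hlt := h.lt
        rw [hm, mul_comm] at hlt
        have h1 := hx4 x hxx4 m q hlt hc.le
        have h2 := h.gp q hqq hqn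
        have h3 := Nat.le_of_dvd (by omega) (h.gcd_cofactor hqq hm)
        have h4 : ((Nat.gcd (q - 1) (n - 1) : ℕ) : ℝ) ≤ m := by
          exact_mod_cast (by omega : Nat.gcd (q - 1) (n - 1) ≤ m)
        have h5 : (x : ℝ) ^ (406 / 10000 : ℝ) ≤ (q : ℝ) ^ (1 / 2 - 1 / 100 : ℝ) := by
          have := rpow_le_rpow (by positivity) h1 (show (0 : ℝ) ≤ 1 / 2 - 1 / 100 by norm_num)
          refine le_trans ?_ this
          rw [← rpow_mul hxpos.le]
          exact rpow_le_rpow_of_exponent_le hx1' (by norm_num)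
        linarith
      obtain ⟨e0, ⟨c, hc⟩, he1, he2⟩ := block hx2' (show (0 : ℝ) < 406 / 10000 by norm_num)
        (by omega) hmx hr
      have hnd : n = (q * c) * e0 := by rw [hm, hc]; ring
      rw [show (2 : ℝ) * (406 / 10000) = 812 / 10000 by norm_num] at he2
      have hdn : q * c ∣ n := ⟨e0, hnd⟩
      have hd1 := (h.dvd_facts hdn).1
      rcases le_or_gt ((x : ℝ) ^ (812 / 10000 : ℝ)) (Lc n (q * c)) with hL | hL
      · refine Or.inr (Or.inl ?_)
        apply ac1 h.toDat hE hnd (hP c) ((Lc_dvd_tot n _).trans (Dvd.intro_left _ rfl))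
          (Lc_dvd_pred n _)
        apply hx3 x hxx3 e0 _ (Lc_pos (by omega)) he1
        have : (e0 : ℝ) < (Lc n (q * c) : ℕ) := he2.trans_le hL
        exact_mod_cast this.le
      · have hqx : (q : ℝ) ≤ (x : ℝ) ^ (1625 / 10000 : ℝ) :=
          size_of (by omega) hqq.one_lt.le (le_Lc h hqq (Dvd.intro _ rfl) hdn) hL.le
            (by norm_num)
        have hlt := h.lt
        rw [hm] at hlt
        have hmm := hx1 x hxx1 q m hlt hqx
        have hn2 : n = q * (e0 * c) := by rw [hm, hc]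
        apply fin_s2 hx2' h hqE dvd_rfl hn2
        · exact hL.le
        · exact hqx
        · rw [← hc]; exact hmm
        · exact he2.le.trans (rpow_le_rpow_of_exponent_le hx1' (by norm_num))
        · intro r hr' hrm
          rw [← hc] at hrm
          exact (hr r hr' hrm).le

theorem cases_all' : ∃ x0 : ℕ, ∀ x : ℕ, x0 ≤ x → ∀ n : ℕ, (x : ℝ) / 2 < n → n ≤ x → Bd 2 n →
    Cl x n := by
  obtain ⟨x0, hx0⟩ := dt_of_bad
  obtain ⟨x1, hx1⟩ := case_small
  obtain ⟨x2, hx2⟩ := case1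
  obtain ⟨x3, hx3⟩ := case2
  obtain ⟨x4, hx4⟩ := case3
  refine ⟨x0 + x1 + x2 + x3 + x4, ?_⟩
  intro x hx n h1 h2 hb
  obtain ⟨E, hE⟩ := hx0 x (by omega) n h1 h2 hb
  rcases le_or_gt (Lc n n : ℝ) ((x : ℝ) ^ (609 / 10000 : ℝ)) with h | h
  · exact hx1 x (by omega) n E hE h
  · have hc := Finset.card_pos.mpr hE.E_ne
    rcases Nat.lt_or_ge E.card 3 with h3 | h3
    · rcases Nat.lt_or_ge E.card 2 with h4 | h4
      · exact hx2 x (by omega) n E hE (by omega) h.le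
      · exact hx3 x (by omega) n E hE (by omega) h.le
    · exact hx4 x (by omega) n E hE h3 h.le

end Pool.Agent.L0h54.EY
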