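import Pool.Agent.L0h54.EX.ClsS1

set_option autoImplicit false

/-! Odd numbers in a residue class with known symbols: the bound with exponent `2/3`
(second moment and the inequality of Pólya and Vinogradov). -/

namespace Pool.Agent.L0h54.EY

open Finset Real Pool.Agent.H379R2.W Pool.Agent.W57.SW Pool.Agent.L0h54.EX

lemma jac_congr {a b : ℤ} {m : ℕ} (h : a ≡ b [ZMOD m]) : jacobiSym a m = jacobiSym b m := by
  rw [jacobiSym.mod_left a, jacobiSym.mod_left b, h]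

/-- character sums along arithmetic progressions -/
lemma shift_sum {m h : ℕ} (hm : 1 ≤ m) (hco : Nat.Coprime h m) {B : ℝ}
    (hB : ∀ N : ℕ, |((∑ n ∈ Icc 1 N, jacobiSym (n : ℤ) m : ℤ) : ℝ)| ≤ B) (c V : ℕ) :
    |((∑ v ∈ range V, jacobiSym ((c : ℤ) + h * v) m : ℤ) : ℝ)| ≤ 2 * B := by
  -- the shift
  obtain ⟨t, ht⟩ : ∃ t : ℕ, (c : ℤ) ≡ (h : ℤ) * ((t : ℤ) + 1) [ZMOD m] := by
    obtain ⟨u, hu⟩ : ∃ u : ℤ, (h : ℤ) * u ≡ 1 [ZMOD m] := by
      have := Int.isCoprime_iff_gcd_eq_one.mpr (show Int.gcd (h : ℤ) (m : ℤ) = 1 by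
        rw [Int.gcd_natCast_natCast]; exact hco)
      obtain ⟨a, b, hab⟩ := this
      refine ⟨a, ?_⟩
      rw [Int.modEq_iff_dvd]
      exact ⟨b, by linarith⟩
    obtain ⟨w, hw⟩ : ∃ w : ℤ, w = u * c - 1 := ⟨_, rfl⟩
    have hm0 : (m : ℤ) ≠ 0 := by omega
    have hw0 : 0 ≤ w % m := Int.emod_nonneg _ hm0
    refine ⟨(w % m).toNat, ?_⟩
    rw [Int.toNat_of_nonneg hw0]
    have h1 : w % m ≡ w [ZMOD m] := Int.mod_modEq _ _
    have h2 : (h : ℤ) * (w % m + 1) ≡ (h : ℤ) * (w + 1) [ZMOD m] :=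
      Int.ModEq.mul_left _ (h1.add_right 1)
    refine (h2.trans ?_).symm
    rw [hw, show (h : ℤ) * (u * c - 1 + 1) = (h * u) * c by ring]
    calc (h : ℤ) * u * c ≡ 1 * c [ZMOD m] := hu.mul_right _
      _ = c := one_mul _
  obtain ⟨F, hF⟩ : ∃ F : ℕ → ℤ, F = fun N : ℕ => ∑ n ∈ Icc 1 N, jacobiSym (n : ℤ) m := ⟨_, rfl⟩
  have hstep : ∀ N : ℕ, F (N + 1) = F N + jacobiSym ((N : ℤ) + 1) m := by
    intro N
    rw [hF]
    simp only
    rw [← Finset.insert_Icc_right_eq_Icc_add_one (by omega : 1 ≤ N + 1), sum_insert (by simp), add_comm]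
    push_cast
    rfl
  have hsum : ∀ V : ℕ, ∑ v ∈ range V, jacobiSym ((c : ℤ) + h * v) m =
      jacobiSym (h : ℤ) m * (F (t + V) - F t) := by
    intro V
    induction V with
    | zero => simp
    | succ V ih =>
      rw [sum_range_succ, ih, ← add_assoc, hstep (t + V)]
      have e1 : jacobiSym ((c : ℤ) + h * V) m = jacobiSym (h : ℤ) m * jacobiSym ((t : ℤ) + V + 1) m := by
        rw [← jacobiSym.mul_left]
        apply jac_congr
        calc (c : ℤ) + h * V ≡ (h : ℤ) * ((t : ℤ) + 1) + h * V [ZMOD m] := ht.add_right _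
          _ = (h : ℤ) * ((t : ℤ) + V + 1) := by ring
      rw [e1]
      push_cast
      ring
  rw [hsum]
  push_cast
  rw [abs_mul]
  have h1 : |((jacobiSym (h : ℤ) m : ℤ) : ℝ)| ≤ 1 := by
    have := jacobi_natAbs_le (h : ℤ) m
    have h2 : ((|jacobiSym (h : ℤ) m| : ℤ) : ℝ) ≤ ((1 : ℤ) : ℝ) := by exact_mod_cast this
    push_cast at h2
    exact h2
  have hB1 : |((F (t + V) : ℤ) : ℝ)| ≤ B := by rw [hF]; exact hB _
  have hB2 : |((F t : ℤ) : ℝ)| ≤ B := by rw [hF]; exact hB _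
  have h2 : |((F (t + V) : ℤ) : ℝ) - ((F t : ℤ) : ℝ)| ≤ 2 * B := by
    rw [abs_le] at hB1 hB2 ⊢
    constructor <;> linarith
  calc |((jacobiSym (h : ℤ) m : ℤ) : ℝ)| * |((F (t + V) : ℤ) : ℝ) - ((F t : ℤ) : ℝ)| ≤
      1 * (2 * B) := mul_le_mul h1 h2 (abs_nonneg _) (by norm_num)
    _ = 2 * B := one_mul _

/-- the square of a signed sum -/
lemma sq_expand {ι : Type} (S : Finset ι) (V : ℕ) (t : ι → ℝ) (f : ℕ → ι → ℝ) (D : ℝ) (hD : 0 ≤ D)
    (ht : ∀ s ∈ S, |t s| ≤ 1) (hf : ∀ v, ∀ s ∈ S, |f v s| ≤ 1)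
    (hoff : ∀ s ∈ S, ∀ s' ∈ S, s ≠ s' → |∑ v ∈ range V, f v s * f v s'| ≤ D) :
    ∑ v ∈ range V, (∑ s ∈ S, t s * f v s) ^ 2 ≤ S.card * V + (S.card : ℝ) ^ 2 * D := by
  classical
  have e1 : ∑ v ∈ range V, (∑ s ∈ S, t s * f v s) ^ 2 =
      ∑ s ∈ S, ∑ s' ∈ S, t s * t s' * ∑ v ∈ range V, f v s * f v s' := by
    have : ∀ v ∈ range V, (∑ s ∈ S, t s * f v s) ^ 2 =
        ∑ s ∈ S, ∑ s' ∈ S, t s * t s' * (f v s * f v s') := by
      intro v _
      rw [sq, sum_mul_sum]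
      apply sum_congr rfl
      intro s _
      apply sum_congr rfl
      intro s' _
      ring
    rw [sum_congr rfl this, sum_comm]
    apply sum_congr rfl
    intro s _
    rw [sum_comm]
    apply sum_congr rfl
    intro s' _
    rw [mul_sum]
  rw [e1]
  have h1 : ∀ s ∈ S, ∑ s' ∈ S, t s * t s' * ∑ v ∈ range V, f v s * f v s' ≤ V + S.card * D := by
    intro s hs
    have h2 : ∀ s' ∈ S, t s * t s' * ∑ v ∈ range V, f v s * f v s' ≤
        (if s = s' then (V : ℝ) else 0) + D := by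
      intro s' hs'
      have h3 : |t s * t s'| ≤ 1 := by
        rw [abs_mul]
        exact mul_le_one₀ (ht s hs) (abs_nonneg _) (ht s' hs')
      have h4 : t s * t s' * ∑ v ∈ range V, f v s * f v s' ≤ |∑ v ∈ range V, f v s * f v s'| := by
        refine (le_abs_self _).trans ?_
        rw [abs_mul]
        exact mul_le_of_le_one_left (abs_nonneg _) h3
      refine h4.trans ?_
      split_ifs with h
      · have h5 : |∑ v ∈ range V, f v s * f v s'| ≤ V := by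
          refine (abs_sum_le_sum_abs _ _).trans ?_
          have h6 : ∑ v ∈ range V, |f v s * f v s'| ≤ ∑ _v ∈ range V, (1 : ℝ) := by
            apply sum_le_sum
            intro v _
            rw [abs_mul]
            exact mul_le_one₀ (hf v s hs) (abs_nonneg _) (hf v s' hs')
          simpa using h6
        linarith
      · rw [zero_add]
        exact hoff s hs s' hs' h
    refine (sum_le_sum h2).trans ?_
    rw [sum_add_distrib, sum_ite_eq, if_pos hs, sum_const, nsmul_eq_mul]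
  refine (sum_le_sum h1).trans ?_
  rw [sum_const, nsmul_eq_mul]
  apply le_of_eq
  ring

/-- the second moment bound -/
theorem pvsec (ε : ℝ) (hε : 0 < ε) (hε1 : ε ≤ 1 / 8) : ∃ C : ℝ, 0 < C ∧ ∃ x0 : ℕ, ∀ x : ℕ,
    x0 ≤ x → ∀ B : Finset ℕ, (B.card : ℝ) ≤ 3 * log x → ∀ V : ℕ, 1 ≤ V → V ≤ x ^ 2 →
    ∀ h c : ℕ, (∀ ℓ ∈ W x \ B, ¬ ℓ ∣ h) → ∀ τ : ℕ → ℤ, (∀ ℓ ∈ W x \ B, τ ℓ = 1 ∨ τ ℓ = -1) →
    ∀ T : Finset ℕ, T ⊆ range V →
    (∀ v ∈ T, ∀ ℓ ∈ W x \ B, jacobiSym ((c : ℤ) + h * v) ℓ = τ ℓ) →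
    (T.card : ℝ) ≤ C * log x * (V : ℝ) ^ (2 / 3 + ε) := by
  classical
  obtain ⟨x0, hx0⟩ := fam (ε / 2) (by positivity)
  obtain ⟨C1, hC1, hdiv⟩ := Helper112.divisor_bound (ε / 4) (by positivity)
  refine ⟨4 + 40 * C1, by positivity, max x0 3, ?_⟩
  intro x hx B hB V hV1 hVx h c hh τ hτ T hTV hT
  have hx3 : 3 ≤ x := (le_max_right _ _).trans hx
  have hlogx : 1 ≤ log (x : ℝ) := one_le_log hx3
  have hxpos : (0 : ℝ) < x := by exact_mod_cast (by omega : 0 < x)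
  have hx1' : (1 : ℝ) ≤ x := by exact_mod_cast (by omega : 1 ≤ x)
  have hV0 : (0 : ℝ) < V := by exact_mod_cast hV1
  have hV1' : (1 : ℝ) ≤ V := by exact_mod_cast hV1
  obtain ⟨M, hM⟩ : ∃ M : ℕ, M = ⌊(V : ℝ) ^ (2 / 3 : ℝ)⌋₊ := ⟨_, rfl⟩
  have hM1 : 1 ≤ M := by
    rw [hM]; apply Nat.le_floor; rw [Nat.cast_one]; exact one_le_rpow hV1' (by norm_num)
  have hMle : (M : ℝ) ≤ (V : ℝ) ^ (2 / 3 : ℝ) := by
    rw [hM]; exact Nat.floor_le (by positivity)
  have hMge : (V : ℝ) ^ (2 / 3 : ℝ) ≤ 2 * M := by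
    have h1 := Nat.lt_floor_add_one ((V : ℝ) ^ (2 / 3 : ℝ))
    rw [← hM] at h1
    have h2 : (1 : ℝ) ≤ M := by exact_mod_cast hM1
    linarith
  have hM0 : (0 : ℝ) < M := by exact_mod_cast hM1
  have hM1' : (1 : ℝ) ≤ M := by exact_mod_cast hM1
  have hMV : (M : ℝ) ≤ V := by
    refine hMle.trans ?_
    calc (V : ℝ) ^ (2 / 3 : ℝ) ≤ (V : ℝ) ^ (1 : ℝ) :=
          rpow_le_rpow_of_exponent_le hV1' (by norm_num)
      _ = V := rpow_one _
  have hVx' : (V : ℝ) ≤ (x : ℝ) ^ 2 := by exact_mod_cast hVx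
  have hM4 : (M : ℝ) ≤ (x : ℝ) ^ 4 := by
    refine (hMV.trans hVx').trans ?_
    exact pow_le_pow_right₀ hx1' (by norm_num)
  obtain ⟨u, hu1, hu2, _⟩ := hx0 x ((le_max_left _ _).trans hx) B hB M hM1 hM4
  obtain ⟨S, hS⟩ : ∃ S : Finset (Finset ℕ), S = powersetCard u (W x \ B) := ⟨_, rfl⟩
  rw [← hS] at hu1 hu2
  have hSs : ∀ s ∈ S, s ⊆ W x \ B := by
    intro s hs
    rw [hS, mem_powersetCard] at hs
    exact hs.1
  have hWp : ∀ ℓ ∈ W x \ B, ℓ.Prime ∧ Odd ℓ := by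
    intro ℓ hℓ
    rw [mem_sdiff] at hℓ
    obtain ⟨h1, h2, h3⟩ := W_spec hℓ.1
    exact ⟨h1, Nat.odd_iff.mpr h3⟩
  have hpf : ∀ s ∈ S, (∏ q ∈ s, q).primeFactors = s := fun s hs =>
    Nat.primeFactors_prod fun p hp => (hWp p (hSs s hs hp)).1
  have hsqf : ∀ s ∈ S, Squarefree (∏ q ∈ s, q) := by
    intro s hs
    have hps : ∀ p ∈ s, p.Prime := fun p hp => (hWp p (hSs s hs hp)).1
    exact Finset.squarefree_prod_of_pairwise_isCoprime
      (fun a ha b hb hab => by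
        show IsRelPrime a b
        rw [← Nat.coprime_iff_isRelPrime]
        exact (Nat.coprime_primes (hps a ha) (hps b hb)).mpr hab)
      (fun p hp => (hps p hp).prime.squarefree)
  have hodd : ∀ s ∈ S, Odd (∏ q ∈ s, q) := by
    intro s hs
    exact Finset.prod_induction _ Odd (fun a b => Odd.mul) odd_one
      fun p hp => (hWp p (hSs s hs hp)).2
  have hpos : ∀ s ∈ S, 1 ≤ ∏ q ∈ s, q := fun s hs => Nat.pos_of_ne_zero (hsqf s hs).ne_zero
  have hcop : ∀ s ∈ S, Nat.Coprime h (∏ q ∈ s, q) := by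
    intro s hs
    apply Nat.Coprime.prod_right
    intro p hp
    have h1 := hSs s hs hp
    exact ((hWp p h1).1.coprime_iff_not_dvd.mpr (hh p h1)).symm
  -- the bound for the off-diagonal sums
  obtain ⟨D, hD⟩ : ∃ D : ℝ, D = 2 * (C1 * (M : ℝ) ^ (ε / 2) * (2 * M * (1 + 4 * log x * 1 + 4 * log x))) :=
    ⟨_, rfl⟩
  have hD0 : 0 ≤ D := by rw [hD]; positivity
  have hmain := sq_expand S V (fun s => ((∏ q ∈ s, τ q : ℤ) : ℝ))
    (fun v s => ((jacobiSym ((c : ℤ) + h * v) (∏ q ∈ s, q : ℕ) : ℤ) : ℝ)) D hD0 (by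
      intro s hs
      have h1 : ∀ T ⊆ s, |(∏ q ∈ T, τ q)| = 1 := by
        intro T hT
        rw [abs_prod]
        apply prod_eq_one
        intro q hq
        rcases hτ q (hSs s hs (hT hq)) with h | h <;> rw [h] <;> norm_num
      have h2 : ((|(∏ q ∈ s, τ q)| : ℤ) : ℝ) = 1 := by rw [h1 s subset_rfl]; norm_num
      rw [← Int.cast_abs, h2]) (by
      intro v s _
      have := jacobi_natAbs_le ((c : ℤ) + h * v) (∏ q ∈ s, q)
      rw [← Int.cast_abs]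
      exact_mod_cast this) (by
      intro s hs s' hs' hne
      have hne' : (∏ q ∈ s, q) ≠ ∏ q ∈ s', q := by
        intro h
        apply hne
        rw [← hpf s hs, ← hpf s' hs', h]
      obtain ⟨m, hm⟩ : ∃ m : ℕ, m = (∏ q ∈ s, q) * ∏ q ∈ s', q := ⟨_, rfl⟩
      have hm1 : 1 ≤ m := by rw [hm]; exact Nat.mul_pos (hpos s hs) (hpos s' hs')
      have hmM : (m : ℝ) ≤ (M : ℝ) ^ 2 := by
        have : m ≤ M * M := by rw [hm]; exact Nat.mul_le_mul (hu1 s hs) (hu1 s' hs')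
        rw [sq]; exact_mod_cast this
      have hneg := exists_neg_one (hsqf s hs) (hsqf s' hs') (hodd s hs) (hodd s' hs') hne'
      rw [← hm] at hneg
      have hm0 : (0 : ℝ) < m := by exact_mod_cast hm1
      have h1 := shift_sum hm1 (by rw [hm]; exact (hcop s hs).mul_right (hcop s' hs'))
        (jacobi_sum_le m hm1 hneg) c V
      have e1 : ∑ v ∈ range V, ((jacobiSym ((c : ℤ) + h * v) (∏ q ∈ s, q : ℕ) : ℤ) : ℝ) *
          ((jacobiSym ((c : ℤ) + h * v) (∏ q ∈ s', q : ℕ) : ℤ) : ℝ) =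
          ((∑ v ∈ range V, jacobiSym ((c : ℤ) + h * v) m : ℤ) : ℝ) := by
        push_cast
        apply sum_congr rfl
        intro v _
        have hz : NeZero (∏ q ∈ s, q) := ⟨(hsqf s hs).ne_zero⟩
        have hz' : NeZero (∏ q ∈ s', q) := ⟨(hsqf s' hs').ne_zero⟩
        rw [hm, jacobiSym.mul_right]
        push_cast
        rfl
      rw [e1]
      refine h1.trans ?_
      rw [hD]
      apply mul_le_mul_of_nonneg_left _ (by norm_num)
      have a1 : (m.divisors.card : ℝ) ≤ C1 * (M : ℝ) ^ (ε / 2) := by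
        refine (hdiv m hm1).trans (mul_le_mul_of_nonneg_left ?_ hC1.le)
        calc (m : ℝ) ^ (ε / 4) ≤ ((M : ℝ) ^ 2) ^ (ε / 4) :=
              rpow_le_rpow hm0.le hmM (by positivity)
          _ = (M : ℝ) ^ (ε / 2) := by
              rw [← rpow_natCast, ← rpow_mul hM0.le]; congr 1; push_cast; ring
      have a2 : Real.sqrt m ≤ M := by
        rw [Real.sqrt_le_left hM0.le]
        exact hmM
      have a3 : Real.log m ≤ 4 * log x * 1 + 4 * log x := by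
        have b1 : Real.log m ≤ Real.log ((M : ℝ) ^ 2) := log_le_log hm0 hmM
        have b2 : Real.log M ≤ Real.log ((x : ℝ) ^ 4) := log_le_log hM0 hM4
        rw [log_pow] at b1 b2
        push_cast at b1 b2
        linarith
      have a4 : 0 ≤ Real.log m := log_nonneg (by exact_mod_cast hm1)
      apply mul_le_mul a1 _ (by positivity) (by positivity)
      apply mul_le_mul _ (by linarith) (by positivity) (by positivity)
      linarith)
  -- the lower bound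
  have hlow : (T.card : ℝ) * (S.card : ℝ) ^ 2 ≤ ∑ v ∈ range V,
      (∑ s ∈ S, ((∏ q ∈ s, τ q : ℤ) : ℝ) *
        ((jacobiSym ((c : ℤ) + h * v) (∏ q ∈ s, q : ℕ) : ℤ) : ℝ)) ^ 2 := by
    rw [← nsmul_eq_mul, ← sum_const]
    refine le_trans (sum_le_sum fun v hv => ?_)
      (sum_le_sum_of_subset_of_nonneg hTV fun _ _ _ => by positivity)
    have e1 : ∀ s ∈ S, ((∏ q ∈ s, τ q : ℤ) : ℝ) *
        ((jacobiSym ((c : ℤ) + h * v) (∏ q ∈ s, q : ℕ) : ℤ) : ℝ) = 1 := by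
      intro s hs
      rw [jacobi_prod _ _ (fun q hq => (hWp q (hSs s hs hq)).1.ne_zero)]
      have e2 : ∏ q ∈ s, jacobiSym ((c : ℤ) + h * v) q = ∏ q ∈ s, τ q :=
        prod_congr rfl fun q hq => hT v hv q (hSs s hs hq)
      rw [e2, ← Int.cast_mul, ← prod_mul_distrib]
      have e3 : ∏ q ∈ s, τ q * τ q = 1 := by
        apply prod_eq_one
        intro q hq
        rcases hτ q (hSs s hs hq) with h | h <;> rw [h] <;> norm_num
      rw [e3]; norm_num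
    rw [sum_congr rfl e1, sum_const, nsmul_eq_mul, mul_one]
  have hkey := hlow.trans hmain
  have hS0 : (0 : ℝ) < S.card := by
    by_contra hc
    have h0 : (S.card : ℝ) = 0 := le_antisymm (not_lt.mp hc) (Nat.cast_nonneg _)
    rw [h0, zero_mul] at hu2
    have : 0 < (M : ℝ) ^ (1 / 2 - ε / 2) := by positivity
    linarith
  have hk2 : (T.card : ℝ) * S.card ≤ V + S.card * D := by
    have e1 : (T.card : ℝ) * (S.card : ℝ) ^ 2 = ((T.card : ℝ) * S.card) * S.card := by ring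
    have e2 : (S.card : ℝ) * V + (S.card : ℝ) ^ 2 * D = (V + S.card * D) * S.card := by ring
    rw [e1, e2] at hkey
    exact le_of_mul_le_mul_right hkey hS0
  -- conclusion
  obtain ⟨Z, hZ⟩ : ∃ Z : ℝ, Z = (V : ℝ) ^ (2 / 3 + ε) := ⟨_, rfl⟩
  have hZ0 : 0 < Z := by rw [hZ]; positivity
  have hDZ : D ≤ 20 * C1 * log x * Z * 2 := by
    have e1 : (M : ℝ) ^ (ε / 2) * M ≤ Z := by
      calc (M : ℝ) ^ (ε / 2) * M ≤ (V : ℝ) ^ (ε / 2) * (V : ℝ) ^ (2 / 3 : ℝ) := by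
            apply mul_le_mul _ hMle hM0.le (by positivity)
            exact rpow_le_rpow hM0.le hMV (by positivity)
        _ = (V : ℝ) ^ (ε / 2 + 2 / 3) := by rw [← rpow_add hV0]
        _ ≤ Z := by rw [hZ]; exact rpow_le_rpow_of_exponent_le hV1' (by linarith)
    have e2 : 1 + 4 * log x * 1 + 4 * log (x : ℝ) ≤ 10 * log x := by linarith
    rw [hD]
    calc 2 * (C1 * (M : ℝ) ^ (ε / 2) * (2 * M * (1 + 4 * log x * 1 + 4 * log x))) =
        4 * C1 * ((M : ℝ) ^ (ε / 2) * M) * (1 + 4 * log x * 1 + 4 * log x) := by ring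
      _ ≤ 4 * C1 * Z * (10 * log x) := by
          apply mul_le_mul _ e2 (by positivity) (by positivity)
          exact mul_le_mul_of_nonneg_left e1 (by positivity)
      _ = _ := by ring
  have hVS : (V : ℝ) ≤ S.card * (4 * log x * Z) := by
    have e1 : (V : ℝ) ^ (1 - (2 / 3 + ε)) ≤ 4 * (M : ℝ) ^ (1 / 2 - ε / 2) := by
      have b1 : (V : ℝ) ^ (1 - (2 / 3 + ε)) ≤ ((V : ℝ) ^ (2 / 3 : ℝ)) ^ (1 / 2 - ε / 2) := by
        rw [← rpow_mul hV0.le]
        apply rpow_le_rpow_of_exponent_le hV1'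
        linarith
      have b2 : ((V : ℝ) ^ (2 / 3 : ℝ)) ^ (1 / 2 - ε / 2) ≤ (2 * M) ^ (1 / 2 - ε / 2) :=
        rpow_le_rpow (by positivity) hMge (by linarith)
      rw [mul_rpow (by norm_num) hM0.le] at b2
      have b3 : (2 : ℝ) ^ (1 / 2 - ε / 2) ≤ 4 := by
        calc (2 : ℝ) ^ (1 / 2 - ε / 2) ≤ (2 : ℝ) ^ (1 : ℝ) :=
              rpow_le_rpow_of_exponent_le (by norm_num) (by linarith)
          _ ≤ 4 := by rw [rpow_one]; norm_num
      refine (b1.trans b2).trans ?_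
      exact mul_le_mul_of_nonneg_right b3 (by positivity)
    have e2 : (V : ℝ) = (V : ℝ) ^ (1 - (2 / 3 + ε)) * Z := by
      rw [hZ, ← rpow_add hV0]
      have : (1 : ℝ) - (2 / 3 + ε) + (2 / 3 + ε) = 1 := by ring
      rw [this, rpow_one]
    calc (V : ℝ) = (V : ℝ) ^ (1 - (2 / 3 + ε)) * Z := e2
      _ ≤ (4 * (M : ℝ) ^ (1 / 2 - ε / 2)) * Z := mul_le_mul_of_nonneg_right e1 hZ0.le
      _ ≤ (4 * (S.card * log x)) * Z := by
          apply mul_le_mul_of_nonneg_right _ hZ0.le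
          exact mul_le_mul_of_nonneg_left hu2 (by norm_num)
      _ = _ := by ring
  have hfin : (T.card : ℝ) * S.card ≤ ((4 + 40 * C1) * log x * Z) * S.card := by
    have e1 : (S.card : ℝ) * D ≤ S.card * (20 * C1 * log x * Z * 2) :=
      mul_le_mul_of_nonneg_left hDZ hS0.le
    calc (T.card : ℝ) * S.card ≤ V + S.card * D := hk2
      _ ≤ S.card * (4 * log x * Z) + S.card * (20 * C1 * log x * Z * 2) := by linarith
      _ = _ := by ring
  rw [← hZ]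
  have := le_of_mul_le_mul_right hfin hS0
  exact this

/-- the linear sieve bound with the exponent `2/3` -/
theorem lin23 (ε : ℝ) (hε : 0 < ε) (hε1 : ε ≤ 1 / 8) : ∃ C : ℝ, 0 < C ∧ ∃ x0 : ℕ, ∀ x : ℕ,
    x0 ≤ x → ∀ h Y b c : ℕ, 1 ≤ h → h ≤ x ^ 2 → Y ≤ x → Nz x b → ∀ T : Finset ℕ,
    (∀ a ∈ T, a ≤ Y ∧ Odd a ∧ a ≡ c [MOD h] ∧ Same x a b) →
    (T.card : ℝ) ≤ C * log x * ((Y : ℝ) / h + 1) ^ (2 / 3 + ε) := by
  classical
  obtain ⟨C, hC, x0, hx0⟩ := pvsec ε hε hε1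
  refine ⟨2 * C, by positivity, max x0 3, ?_⟩
  intro x hx h Y b c hh1 hhx hYx hb T hT
  have hx3 : 3 ≤ x := (le_max_right _ _).trans hx
  have hlogx : 1 ≤ log (x : ℝ) := one_le_log hx3
  have hxpos : (0 : ℝ) < x := by exact_mod_cast (by omega : 0 < x)
  obtain ⟨V, hV⟩ : ∃ V : ℕ, V = Y / h + 1 := ⟨_, rfl⟩
  have hV1 : 1 ≤ V := by rw [hV]; exact Nat.le_add_left 1 _
  have hVx : V ≤ x ^ 2 := by
    have h1 : Y / h ≤ Y := Nat.div_le_self Y h
    have h2 : x + 1 ≤ x ^ 2 := by nlinarith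
    rw [hV]
    exact (Nat.succ_le_succ (h1.trans hYx)).trans h2
  have hVY : (V : ℝ) ≤ (Y : ℝ) / h + 1 := by
    rw [hV]
    push_cast
    have := Nat.cast_div_le (α := ℝ) (m := Y) (n := h)
    linarith
  have hB : ((h.primeFactors.card : ℕ) : ℝ) ≤ 3 * log x := by
    have h1 := card_pf_le hh1
    have h2 : log (h : ℝ) ≤ 2 * log x := by
      have : log (h : ℝ) ≤ log ((x : ℝ) ^ 2) :=
        log_le_log (by exact_mod_cast hh1) (by exact_mod_cast hhx)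
      rw [log_pow] at this
      push_cast at this
      exact this
    nlinarith
  obtain ⟨c0, hc0⟩ : ∃ c0 : ℕ, c0 = c % h := ⟨_, rfl⟩
  have hac : ∀ a ∈ T, a = c0 + h * (a / h) := by
    intro a ha
    have h1 := (hT a ha).2.2.1
    have h2 : a % h = c % h := h1
    rw [hc0, ← h2]
    exact (Nat.mod_add_div a h).symm
  have hone : ∀ σ : ℕ, ((T.filter (fun a => a % 4 = σ)).card : ℝ) ≤
      C * log x * (V : ℝ) ^ (2 / 3 + ε) := by
    intro σ
    set τ : ℕ → ℤ := fun ℓ => (if ℓ % 4 = 3 ∧ σ = 3 then -1 else 1) * jacobiSym (ℓ : ℤ) b with hτ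
    have hτ1 : ∀ ℓ ∈ W x, τ ℓ = 1 ∨ τ ℓ = -1 := by
      intro ℓ hℓ
      have h1 := hb ℓ hℓ
      rcases sign_cases (ℓ % 4 = 3 ∧ σ = 3) with h2 | h2 <;>
      rcases jacobiSym.trichotomy (ℓ : ℤ) b with h3 | h3 | h3
      all_goals first | exact absurd h3 h1 | (rw [hτ]; simp only [h2, h3]; norm_num)
    have hτa : ∀ a ∈ T.filter (fun a => a % 4 = σ), ∀ ℓ ∈ W x, jacobiSym (a : ℤ) ℓ = τ ℓ := by
      intro a ha ℓ hℓ
      rw [mem_filter] at ha
      obtain ⟨_, _, h3⟩ := W_spec hℓ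
      obtain ⟨_, b2, _, b4⟩ := hT a ha.1
      have h4 := recip h3 (Nat.odd_iff.mp b2)
      have h5 := b4 ℓ hℓ
      rw [hτ]
      simp only
      rw [← h5, h4, ha.2, ← mul_assoc]
      rcases sign_cases (ℓ % 4 = 3 ∧ σ = 3) with h2 | h2 <;> rw [h2] <;> ring
    have hmain := hx0 x ((le_max_left _ _).trans hx) h.primeFactors hB V hV1 hVx h c0 (by
      intro ℓ hℓ hd
      rw [mem_sdiff] at hℓ
      apply hℓ.2
      rw [Nat.mem_primeFactors]
      exact ⟨(W_spec hℓ.1).1, hd, by omega⟩) τ (by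
      intro ℓ hℓ
      rw [mem_sdiff] at hℓ
      exact hτ1 ℓ hℓ.1) ((T.filter (fun a => a % 4 = σ)).image (fun a => a / h)) (by
      intro v hv
      rw [mem_image] at hv
      obtain ⟨a, ha, rfl⟩ := hv
      rw [mem_filter] at ha
      rw [mem_range, hV]
      exact Nat.lt_succ_of_le (Nat.div_le_div_right (c := h) (hT a ha.1).1)) (by
      intro v hv ℓ hℓ
      rw [mem_image] at hv
      obtain ⟨a, ha, rfl⟩ := hv
      rw [mem_sdiff] at hℓ
      have h1 := hτa a ha ℓ hℓ.1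
      rw [mem_filter] at ha
      have hav := hac a ha.1
      rw [← h1]
      congr 1
      conv_rhs => rw [hav]
      push_cast
      ring)
    rw [card_image_of_injOn] at hmain
    · exact hmain
    · intro a ha a' ha' haa
      rw [mem_coe, mem_filter] at ha ha'
      have h1 : a / h = a' / h := haa
      rw [hac a ha.1, hac a' ha'.1, h1]
  have hsplit : T ⊆ T.filter (fun a => a % 4 = 1) ∪ T.filter (fun a => a % 4 = 3) := by
    intro a ha
    have h1 := (hT a ha).2.1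
    rw [Nat.odd_iff] at h1
    rw [mem_union, mem_filter, mem_filter]
    have : a % 4 = 1 ∨ a % 4 = 3 := by omega
    rcases this with h | h
    · exact Or.inl ⟨ha, h⟩
    · exact Or.inr ⟨ha, h⟩
  have h1 := (card_le_card hsplit).trans (card_union_le _ _)
  have h2 : (T.card : ℝ) ≤ ((T.filter (fun a => a % 4 = 1)).card : ℝ) +
      ((T.filter (fun a => a % 4 = 3)).card : ℝ) := by exact_mod_cast h1
  have h3 := hone 1
  have h4 := hone 3
  have h5 : (V : ℝ) ^ (2 / 3 + ε) ≤ ((Y : ℝ) / h + 1) ^ (2 / 3 + ε) :=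
    rpow_le_rpow (Nat.cast_nonneg _) hVY (by linarith)
  have h6 : C * log x * (V : ℝ) ^ (2 / 3 + ε) ≤ C * log x * ((Y : ℝ) / h + 1) ^ (2 / 3 + ε) :=
    mul_le_mul_of_nonneg_left h5 (by positivity)
  linarith

/-- the same with the losses collected in a power of `x` -/
theorem lin23' (ε : ℝ) (hε : 0 < ε) (hε1 : ε ≤ 1 / 8) : ∃ C : ℝ, 0 < C ∧ ∃ x0 : ℕ, ∀ x : ℕ,
    x0 ≤ x → ∀ h Y b c : ℕ, 1 ≤ h → h ≤ x ^ 2 → Y ≤ x → Nz x b → ∀ T : Finset ℕ,
    (∀ a ∈ T, a ≤ Y ∧ Odd a ∧ a ≡ c [MOD h] ∧ Same x a b) →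
    (T.card : ℝ) ≤ C * (x : ℝ) ^ ε * ((Y : ℝ) / h + 1) ^ (2 / 3 : ℝ) := by
  obtain ⟨C, hC, x0, hx0⟩ := lin23 (ε / 4) (by positivity) (by linarith)
  refine ⟨C * (1 + 2 / (ε / 2)) * 2, by positivity, max x0 3, ?_⟩
  intro x hx h Y b c hh1 hhx hYx hb T hT
  have hx3 : 3 ≤ x := (le_max_right _ _).trans hx
  have hlogx : 1 ≤ log (x : ℝ) := one_le_log hx3
  have hxpos : (0 : ℝ) < x := by exact_mod_cast (by omega : 0 < x)
  have hx1' : (1 : ℝ) ≤ x := by exact_mod_cast (by omega : 1 ≤ x)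
  have h1 := hx0 x ((le_max_left _ _).trans hx) h Y b c hh1 hhx hYx hb T hT
  refine h1.trans ?_
  obtain ⟨z, hz⟩ : ∃ z : ℝ, z = (Y : ℝ) / h + 1 := ⟨_, rfl⟩
  have hh0 : (0 : ℝ) < h := by exact_mod_cast hh1
  have hz1 : 1 ≤ z := by
    have : 0 ≤ (Y : ℝ) / h := by positivity
    rw [hz]; linarith
  have hzx : z ≤ 2 * x := by
    have h2 : (Y : ℝ) / h ≤ Y := div_le_self (Nat.cast_nonneg _) (by exact_mod_cast hh1)
    have h3 : (Y : ℝ) ≤ x := by exact_mod_cast hYx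
    rw [hz]; linarith
  rw [← hz]
  have hz0 : 0 < z := by linarith
  have e1 : z ^ (2 / 3 + ε / 4) = z ^ (2 / 3 : ℝ) * z ^ (ε / 4) := by rw [← rpow_add hz0]
  have e2 : z ^ (ε / 4) ≤ 2 * (x : ℝ) ^ (ε / 2) := by
    calc z ^ (ε / 4) ≤ (2 * x) ^ (ε / 4) := rpow_le_rpow hz0.le hzx (by positivity)
      _ = 2 ^ (ε / 4) * (x : ℝ) ^ (ε / 4) := mul_rpow (by norm_num) hxpos.le
      _ ≤ 2 * (x : ℝ) ^ (ε / 2) := by
          apply mul_le_mul _ _ (by positivity) (by norm_num)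
          · calc (2 : ℝ) ^ (ε / 4) ≤ (2 : ℝ) ^ (1 : ℝ) :=
                rpow_le_rpow_of_exponent_le (by norm_num) (by linarith)
              _ = 2 := rpow_one _
          · exact rpow_le_rpow_of_exponent_le hx1' (by linarith)
  have e3 := log_fac (ε / 2) (by positivity) hx1'
  have e4 : log (x : ℝ) ≤ (1 + 2 / (ε / 2)) * (x : ℝ) ^ (ε / 2) := by linarith
  rw [e1]
  calc C * log x * (z ^ (2 / 3 : ℝ) * z ^ (ε / 4)) ≤
      C * ((1 + 2 / (ε / 2)) * (x : ℝ) ^ (ε / 2)) * (z ^ (2 / 3 : ℝ) * (2 * (x : ℝ) ^ (ε / 2))) := by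
        apply mul_le_mul
        · exact mul_le_mul_of_nonneg_left e4 hC.le
        · exact mul_le_mul_of_nonneg_left e2 (by positivity)
        · positivity
        · positivity
    _ = C * (1 + 2 / (ε / 2)) * 2 * ((x : ℝ) ^ (ε / 2) * (x : ℝ) ^ (ε / 2)) * z ^ (2 / 3 : ℝ) := by
        ring
    _ = C * (1 + 2 / (ε / 2)) * 2 * (x : ℝ) ^ ε * z ^ (2 / 3 : ℝ) := by
        rw [← rpow_add hxpos]; congr 3; ring

end Pool.Agent.L0h54.EY
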