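import Pool.Agent.L0h54.EX.ClsD1
import Pool.Agent.L0h54.EY.Lin

set_option autoImplicit false

/-! Products of two primes with the same symbols. -/

namespace Pool.Agent.L0h54.EY

open Finset Real Pool.Agent.W57.SW Pool.Agent.L0h54.EX

/-- products of two primes with the same symbols -/
def IsD1' (x n : ℕ) : Prop := ∃ p q g : ℕ, n = p * q ∧ p.Prime ∧ q.Prime ∧ q < p ∧ Odd p ∧ Odd q ∧
  Same x p q ∧ Nz x q ∧ g ∣ p - 1 ∧ g ∣ q - 1 ∧ Lv x p g

lemma clsD1a' : ∃ K : ℝ, 0 < K ∧ ∃ x0 : ℕ, ∀ x : ℕ, x0 ≤ x → ∀ S : Finset ℕ,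
    (∀ n ∈ S, (x : ℝ) / 2 < n ∧ n ≤ x ∧ ∃ p q g : ℕ, n = p * q ∧ p.Prime ∧ q.Prime ∧ q < p ∧
      Odd p ∧ Odd q ∧ Same x p q ∧ Nz x q ∧ g ∣ p - 1 ∧ g ∣ q - 1 ∧ Lv x p g ∧
      (g : ℝ) ≤ (x : ℝ) ^ (455 / 1000 : ℝ)) →
    (S.card : ℝ) ≤ K * (x : ℝ) ^ (489 / 1000 : ℝ) := by
  classical
  obtain ⟨C1, hC1, x1, hx1⟩ := lin23' (1 / 1000) (by norm_num) (by norm_num)
  obtain ⟨K2, hK2, x2, hx2⟩ := pair_sum (1 / 1000) (by norm_num)
  refine ⟨3 * C1 * K2, by positivity, max (max x1 x2) 3, ?_⟩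
  intro x hx S hS
  have hxx1 : x1 ≤ x := (le_max_left _ _).trans ((le_max_left _ _).trans hx)
  have hxx2 : x2 ≤ x := (le_max_right _ _).trans ((le_max_left _ _).trans hx)
  have hx3 : 3 ≤ x := (le_max_right _ _).trans hx
  have hxpos : (0 : ℝ) < x := by exact_mod_cast (by omega : 0 < x)
  have hx1' : (1 : ℝ) ≤ x := by exact_mod_cast (by omega : 1 ≤ x)
  obtain ⟨A, hA⟩ : ∃ A : Finset (ℕ × ℕ), A = ((Icc 1 x) ×ˢ (Icc 1 x)).filter
      (fun a => PG x a ∧ (a.2 : ℝ) ≤ (x : ℝ) ^ (455 / 1000 : ℝ) ∧ Nz x a.1 ∧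
        (x : ℝ) / 2 < (a.1 : ℝ) ^ (2 : ℝ)) := ⟨_, rfl⟩
  have hcov := cover_count S A (fun _ => ({()} : Finset Unit))
    (fun a _ => (Icc 1 ⌊(x : ℝ) / a.1⌋₊).filter (fun q => Odd q ∧ Same x q a.1 ∧ q ≡ 1 [MOD a.2]))
    (fun a _ q => a.1 * q) (by
      intro n hn
      obtain ⟨h1, h2, p, q, g, h3, h4, h5, h6, h7, h8, h9, h10, h11, h12, h13, h14⟩ := hS n hn
      have hp0 : (0 : ℝ) < p := by exact_mod_cast h4.pos
      have hq1 := h5.one_lt.le
      have hpx : p ≤ x := by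
        refine le_trans ?_ h2
        rw [h3]
        exact Nat.le_mul_of_pos_right p h5.pos
      have hg : g ∈ (p - 1).divisors := by
        rw [Nat.mem_divisors]
        have := h4.two_le
        exact ⟨h11, by omega⟩
      have hg1 := Nat.pos_of_mem_divisors hg
      have hgx := Nat.divisor_le hg
      refine ⟨(p, g), ?_, (), by simp, q, ?_, h3.symm⟩
      · rw [hA, mem_filter, mem_product, mem_Icc, mem_Icc]
        refine ⟨⟨⟨h4.one_lt.le, hpx⟩, ⟨hg1, ?_⟩⟩, ⟨h4, hpx, hg, h13⟩, h14, h9.nz h10, ?_⟩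
        · show g ≤ x
          omega
        · show (x : ℝ) / 2 < (p : ℝ) ^ (2 : ℝ)
          rw [rpow_two]
          rw [h3] at h1
          push_cast at h1
          have h15 : (q : ℝ) ≤ p := by exact_mod_cast h6.le
          nlinarith
      · rw [mem_filter, mem_Icc]
        refine ⟨⟨hq1, Nat.le_floor ?_⟩, h8, h9.symm, ?_⟩
        · show (q : ℝ) ≤ (x : ℝ) / p
          rw [le_div_iff₀ hp0]
          have : q * p ≤ x := by rw [mul_comm, ← h3]; exact h2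
          exact_mod_cast this
        · exact ((Nat.modEq_iff_dvd' hq1).mpr h12).symm)
  simp only [sum_singleton] at hcov
  have hE : ∀ a ∈ A, (((Icc 1 ⌊(x : ℝ) / a.1⌋₊).filter
      (fun q => Odd q ∧ Same x q a.1 ∧ q ≡ 1 [MOD a.2])).card : ℝ) ≤
      3 * C1 * (x : ℝ) ^ (4866 / 10000 : ℝ) * (a.2 : ℝ) ^ (-(1001 / 1000) : ℝ) := by
    intro a ha
    rw [hA, mem_filter, mem_product, mem_Icc, mem_Icc] at ha
    obtain ⟨⟨⟨b1, b2⟩, b3, b4⟩, b5, b6, b7, b8⟩ := ha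
    have ha1 : (0 : ℝ) < a.1 := by exact_mod_cast b1
    have ha2 : (0 : ℝ) < a.2 := by exact_mod_cast b3
    have ha2' : (1 : ℝ) ≤ a.2 := by exact_mod_cast b3
    have hYx : ⌊(x : ℝ) / a.1⌋₊ ≤ x := by
      apply Nat.floor_le_of_le
      exact div_le_self hxpos.le (by exact_mod_cast b1)
    have h1 := hx1 x hxx1 a.2 ⌊(x : ℝ) / a.1⌋₊ a.1 1 b3 (b4.trans (by nlinarith)) hYx b7
      ((Icc 1 ⌊(x : ℝ) / a.1⌋₊).filter
      (fun q => Odd q ∧ Same x q a.1 ∧ q ≡ 1 [MOD a.2])) (by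
      intro q hq
      rw [mem_filter, mem_Icc] at hq
      exact ⟨hq.1.2, hq.2.1, hq.2.2.2, hq.2.2.1⟩)
    refine h1.trans ?_
    obtain ⟨r, hr⟩ : ∃ r : ℝ, r = (x : ℝ) ^ (1 / 2 : ℝ) := ⟨_, rfl⟩
    have hr0 : 0 < r := by rw [hr]; positivity
    have hrr : r * r = x := by rw [hr, ← rpow_add hxpos]; norm_num
    have hY : ((⌊(x : ℝ) / a.1⌋₊ : ℕ) : ℝ) ≤ 2 * r := by
      refine (Nat.floor_le (by positivity)).trans ?_
      rw [div_le_iff₀ ha1]
      rw [rpow_two] at b8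
      have h2 : r ≤ 2 * a.1 := by
        by_contra hc
        push Not at hc
        nlinarith
      nlinarith
    have hgr : (a.2 : ℝ) ≤ r := by
      refine b6.trans ?_
      rw [hr]
      exact rpow_le_rpow_of_exponent_le hx1' (by norm_num)
    have h2 : ((⌊(x : ℝ) / a.1⌋₊ : ℕ) : ℝ) / a.2 + 1 ≤ 3 * (r / a.2) := by
      have e1 : ((⌊(x : ℝ) / a.1⌋₊ : ℕ) : ℝ) / a.2 ≤ 2 * r / a.2 :=
        div_le_div_of_nonneg_right hY ha2.le
      have e2 : 1 ≤ r / a.2 := by rw [one_le_div ha2]; exact hgr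
      have e3 : 2 * r / a.2 = 2 * (r / a.2) := by ring
      linarith
    have h3 : (((⌊(x : ℝ) / a.1⌋₊ : ℕ) : ℝ) / a.2 + 1) ^ (2 / 3 : ℝ) ≤
        3 * ((x : ℝ) ^ (4856 / 10000 : ℝ) * (a.2 : ℝ) ^ (-(1001 / 1000) : ℝ)) := by
      calc (((⌊(x : ℝ) / a.1⌋₊ : ℕ) : ℝ) / a.2 + 1) ^ (2 / 3 : ℝ) ≤
          (3 * (r / a.2)) ^ (2 / 3 : ℝ) := rpow_le_rpow (by positivity) h2 (by norm_num)
        _ = 3 ^ (2 / 3 : ℝ) * (r / a.2) ^ (2 / 3 : ℝ) :=
            mul_rpow (by norm_num) (by positivity)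
        _ ≤ 3 * ((x : ℝ) ^ (4856 / 10000 : ℝ) * (a.2 : ℝ) ^ (-(1001 / 1000) : ℝ)) := by
            apply mul_le_mul _ _ (by positivity) (by norm_num)
            · calc (3 : ℝ) ^ (2 / 3 : ℝ) ≤ (3 : ℝ) ^ (1 : ℝ) :=
                  rpow_le_rpow_of_exponent_le (by norm_num) (by norm_num)
                _ = 3 := rpow_one _
            · rw [div_rpow hr0.le ha2.le, hr, ← rpow_mul hxpos.le, div_eq_mul_inv, ← rpow_neg ha2.le]
              have e1 : (a.2 : ℝ) ^ (-(2 / 3) : ℝ) =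
                  (a.2 : ℝ) ^ (1003 / 3000 : ℝ) * (a.2 : ℝ) ^ (-(1001 / 1000) : ℝ) := by
                rw [← rpow_add ha2]; norm_num
              have e2 : (a.2 : ℝ) ^ (1003 / 3000 : ℝ) ≤
                  (x : ℝ) ^ (455 / 1000 * (1003 / 3000) : ℝ) := by
                rw [rpow_mul hxpos.le]
                exact rpow_le_rpow ha2.le b6 (by norm_num)
              rw [e1, ← mul_assoc]
              apply mul_le_mul_of_nonneg_right _ (by positivity)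
              calc (x : ℝ) ^ (1 / 2 * (2 / 3) : ℝ) * (a.2 : ℝ) ^ (1003 / 3000 : ℝ) ≤
                  (x : ℝ) ^ (1 / 2 * (2 / 3) : ℝ) *
                    (x : ℝ) ^ (455 / 1000 * (1003 / 3000) : ℝ) :=
                    mul_le_mul_of_nonneg_left e2 (by positivity)
                _ = (x : ℝ) ^ (1 / 2 * (2 / 3) + 455 / 1000 * (1003 / 3000) : ℝ) := by
                    rw [← rpow_add hxpos]
                _ ≤ _ := rpow_le_rpow_of_exponent_le hx1' (by norm_num)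
    calc C1 * (x : ℝ) ^ (1 / 1000 : ℝ) *
        (((⌊(x : ℝ) / a.1⌋₊ : ℕ) : ℝ) / a.2 + 1) ^ (2 / 3 : ℝ) ≤
        C1 * (x : ℝ) ^ (1 / 1000 : ℝ) *
          (3 * ((x : ℝ) ^ (4856 / 10000 : ℝ) * (a.2 : ℝ) ^ (-(1001 / 1000) : ℝ))) :=
          mul_le_mul_of_nonneg_left h3 (by positivity)
      _ = 3 * C1 * ((x : ℝ) ^ (1 / 1000 : ℝ) * (x : ℝ) ^ (4856 / 10000 : ℝ)) *
          (a.2 : ℝ) ^ (-(1001 / 1000) : ℝ) := by ring
      _ = _ := by rw [← rpow_add hxpos]; norm_num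
  have h1 := hcov.trans (sum_le_sum hE)
  rw [← mul_sum] at h1
  have h2 := hx2 x hxx2 A (by
    intro a ha
    rw [hA, mem_filter] at ha
    exact ha.2.1)
  have h3 := h1.trans (mul_le_mul_of_nonneg_left h2 (by positivity))
  refine h3.trans ?_
  calc 3 * C1 * (x : ℝ) ^ (4866 / 10000 : ℝ) * (K2 * (x : ℝ) ^ (1 / 1000 : ℝ)) =
      3 * C1 * K2 * ((x : ℝ) ^ (4866 / 10000 : ℝ) * (x : ℝ) ^ (1 / 1000 : ℝ)) := by ring
    _ = 3 * C1 * K2 * (x : ℝ) ^ (4866 / 10000 + 1 / 1000 : ℝ) := by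
        rw [rpow_add hxpos]
    _ ≤ _ := by
        apply mul_le_mul_of_nonneg_left _ (by positivity)
        exact rpow_le_rpow_of_exponent_le hx1' (by norm_num)

lemma clsD1b' : ∃ K : ℝ, 0 < K ∧ ∃ x0 : ℕ, ∀ x : ℕ, x0 ≤ x → ∀ S : Finset ℕ,
    (∀ n ∈ S, (x : ℝ) / 2 < n ∧ n ≤ x ∧ ∃ p q g : ℕ, n = p * q ∧ p.Prime ∧ q.Prime ∧ q < p ∧
      Odd p ∧ Odd q ∧ Same x p q ∧ Nz x q ∧ g ∣ p - 1 ∧ g ∣ q - 1 ∧
      (x : ℝ) ^ (455 / 1000 : ℝ) < g) →
    (S.card : ℝ) ≤ K * (x : ℝ) ^ (489 / 1000 : ℝ) := by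
  classical
  obtain ⟨x1, hx1⟩ := quad (1 / 100) (by norm_num) (by norm_num)
  obtain ⟨K4, hK4, hdiv⟩ := Helper112.divisor_bound (1 / 1000) (by norm_num)
  obtain ⟨K3, hK3⟩ : ∃ K3 : ℝ, K3 = 1 + 2 / (1 / 1000 : ℝ) := ⟨_, rfl⟩
  have hK30 : 0 < K3 := by rw [hK3]; norm_num
  refine ⟨96 * K3 * K4, by positivity, max x1 3, ?_⟩
  intro x hx S hS
  have hxx1 : x1 ≤ x := (le_max_left _ _).trans hx
  have hx3 : 3 ≤ x := (le_max_right _ _).trans hx
  have hlogx : 1 ≤ log (x : ℝ) := one_le_log hx3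
  have hxpos : (0 : ℝ) < x := by exact_mod_cast (by omega : 0 < x)
  have hx1' : (1 : ℝ) ≤ x := by exact_mod_cast (by omega : 1 ≤ x)
  obtain ⟨V, hV⟩ : ∃ V : ℕ, V = ⌊(x : ℝ) ^ (1 / 2 : ℝ)⌋₊ := ⟨_, rfl⟩
  have hV1 : 1 ≤ V := by
    rw [hV]; apply Nat.le_floor; rw [Nat.cast_one]; exact one_le_rpow hx1' (by norm_num)
  have hVle : (V : ℝ) ≤ (x : ℝ) ^ (1 / 2 : ℝ) := by
    rw [hV]; exact Nat.floor_le (by positivity)
  have hVx : V ≤ x ^ 2 := by
    have h1 : (V : ℝ) ≤ x := by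
      refine hVle.trans ?_
      calc (x : ℝ) ^ (1 / 2 : ℝ) ≤ (x : ℝ) ^ (1 : ℝ) :=
            rpow_le_rpow_of_exponent_le hx1' (by norm_num)
        _ = x := rpow_one _
    have h2 : V ≤ x := by exact_mod_cast h1
    nlinarith
  obtain ⟨U, hU⟩ : ∃ U : ℕ, U = ⌊(x : ℝ) ^ (9 / 100 : ℝ)⌋₊ := ⟨_, rfl⟩
  have hUle : (U : ℝ) ≤ (x : ℝ) ^ (9 / 100 : ℝ) := by
    rw [hU]; exact Nat.floor_le (by positivity)
  have hUx : U ≤ x := by
    have h1 : (U : ℝ) ≤ x := by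
      refine hUle.trans ?_
      calc (x : ℝ) ^ (9 / 100 : ℝ) ≤ (x : ℝ) ^ (1 : ℝ) :=
            rpow_le_rpow_of_exponent_le hx1' (by norm_num)
        _ = x := rpow_one _
    exact_mod_cast h1
  have hcov := cover_count S (Icc 1 U) (fun w => w.divisors.filter (fun s => s ≠ w / s))
    (fun w s => (Icc 1 V).filter (fun g => Odd (s * g + 1) ∧ Odd (w / s * g + 1) ∧
      Same x (s * g + 1) (w / s * g + 1) ∧ Nz x (s * g + 1)))
    (fun w s g => (s * g + 1) * (w / s * g + 1)) (by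
      intro n hn
      obtain ⟨h1, h2, p, q, g, h3, h4, h5, h6, h7, h8, h9, h10, h11, h12, h14⟩ := hS n hn
      have hp0 : (0 : ℝ) < p := by exact_mod_cast h4.pos
      have hq0 : (0 : ℝ) < q := by exact_mod_cast h5.pos
      have hg0 : (0 : ℝ) < g := lt_trans (by positivity) h14
      obtain ⟨s, hs⟩ := h11
      obtain ⟨t, ht⟩ := h12
      have hps : p = s * g + 1 := by
        have := h4.one_lt
        rw [mul_comm s g, ← hs]; omega
      have hqt : q = t * g + 1 := by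
        have := h5.one_lt
        rw [mul_comm t g, ← ht]; omega
      have hs1 : 1 ≤ s := by
        rcases Nat.eq_zero_or_pos s with h | h
        · rw [h, zero_mul] at hps
          exact absurd hps h4.one_lt.ne'
        · exact h
      have ht1 : 1 ≤ t := by
        rcases Nat.eq_zero_or_pos t with h | h
        · rw [h, zero_mul] at hqt
          exact absurd hqt h5.one_lt.ne'
        · exact h
      have hpq : (p : ℝ) * q ≤ x := by
        have : p * q ≤ x := by rw [← h3]; exact h2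
        exact_mod_cast this
      have hgq : (g : ℝ) < q := by
        have : g < q := by rw [hqt]; nlinarith
        exact_mod_cast this
      have hqp : (q : ℝ) < p := by exact_mod_cast h6
      have hsg : (s : ℝ) * g ≤ p := by
        have : s * g ≤ p := by omega
        exact_mod_cast this
      have htg : (t : ℝ) * g ≤ q := by
        have : t * g ≤ q := by omega
        exact_mod_cast this
      have hstU : ((s * t : ℕ) : ℝ) ≤ (x : ℝ) ^ (9 / 100 : ℝ) := by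
        have e1 : (x : ℝ) = (x : ℝ) ^ (9 / 100 : ℝ) *
            ((x : ℝ) ^ (455 / 1000 : ℝ) * (x : ℝ) ^ (455 / 1000 : ℝ)) := by
          rw [← rpow_add hxpos, ← rpow_add hxpos]; norm_num
        have e3 : (x : ℝ) ^ (455 / 1000 : ℝ) * (x : ℝ) ^ (455 / 1000 : ℝ) ≤ g * g :=
          mul_le_mul h14.le h14.le (by positivity) hg0.le
        have e2 : ((s * t : ℕ) : ℝ) *
            ((x : ℝ) ^ (455 / 1000 : ℝ) * (x : ℝ) ^ (455 / 1000 : ℝ)) ≤
            (x : ℝ) ^ (9 / 100 : ℝ) *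
            ((x : ℝ) ^ (455 / 1000 : ℝ) * (x : ℝ) ^ (455 / 1000 : ℝ)) := by
          rw [← e1]
          refine le_trans (mul_le_mul_of_nonneg_left e3 (Nat.cast_nonneg _)) ?_
          refine le_trans ?_ hpq
          calc ((s * t : ℕ) : ℝ) * (g * g) = (s * g) * (t * g) := by push_cast; ring
            _ ≤ p * q := mul_le_mul hsg htg (by positivity) hp0.le
        exact le_of_mul_le_mul_right e2 (by positivity)
      have hgV : (g : ℝ) ≤ (x : ℝ) ^ (1 / 2 : ℝ) := by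
        have e1 : (x : ℝ) = (x : ℝ) ^ (1 / 2 : ℝ) * (x : ℝ) ^ (1 / 2 : ℝ) := by
          rw [← rpow_add hxpos]; norm_num
        by_contra hc
        push Not at hc
        have e2 : (x : ℝ) ^ (1 / 2 : ℝ) * (x : ℝ) ^ (1 / 2 : ℝ) < g * g :=
          mul_lt_mul'' hc hc (by positivity) (by positivity)
        rw [← e1] at e2
        nlinarith
      have hst : s * t / s = t := Nat.mul_div_cancel_left t hs1
      refine ⟨s * t, ?_, s, ?_, g, ?_, ?_⟩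
      · rw [mem_Icc]
        exact ⟨Nat.mul_pos hs1 ht1, by rw [hU]; exact Nat.le_floor hstU⟩
      · rw [mem_filter, Nat.mem_divisors, hst]
        refine ⟨⟨Dvd.intro _ rfl, (Nat.mul_pos hs1 ht1).ne'⟩, ?_⟩
        intro h
        rw [hps, hqt, h] at h6
        omega
      · rw [mem_filter, mem_Icc, hst]
        rw [hps] at h7 h9
        rw [hqt] at h8 h9
        have h10' : Nz x (t * g + 1) := by rw [← hqt]; exact h10
        refine ⟨⟨by exact_mod_cast hg0, ?_⟩, h7, h8, h9, h9.nz h10'⟩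
        rw [hV]
        exact Nat.le_floor hgV
      · rw [hst, h3, hps, hqt])
  have hE : ∀ w ∈ Icc 1 U, ∀ s ∈ w.divisors.filter (fun s => s ≠ w / s),
      (((Icc 1 V).filter (fun g => Odd (s * g + 1) ∧ Odd (w / s * g + 1) ∧
      Same x (s * g + 1) (w / s * g + 1) ∧ Nz x (s * g + 1))).card : ℝ) ≤
      96 * log x * (x : ℝ) ^ (1 / 2 * (76 / 100) : ℝ) := by
    intro w hw s hs
    rw [mem_Icc] at hw
    rw [mem_filter] at hs
    have hs1 := Nat.pos_of_mem_divisors hs.1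
    have hsw := Nat.divisor_le hs.1
    have ht1 : 1 ≤ w / s := Nat.div_pos hsw hs1
    have htw : w / s ≤ w := Nat.div_le_self _ _
    have hcube : ∀ z : ℕ, z ≤ U → z ^ 3 ≤ x := by
      intro z hz
      have h1 : (z : ℝ) ≤ (x : ℝ) ^ (9 / 100 : ℝ) := (Nat.cast_le.mpr hz).trans hUle
      have h2 : (z : ℝ) ^ 3 ≤ ((x : ℝ) ^ (9 / 100 : ℝ)) ^ 3 :=
        pow_le_pow_left₀ (Nat.cast_nonneg _) h1 3
      have h3 : ((x : ℝ) ^ (9 / 100 : ℝ)) ^ 3 ≤ x := by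
        rw [← rpow_natCast, ← rpow_mul hxpos.le]
        calc (x : ℝ) ^ (9 / 100 * ((3 : ℕ) : ℝ)) ≤ (x : ℝ) ^ (1 : ℝ) :=
              rpow_le_rpow_of_exponent_le hx1' (by norm_num)
          _ = x := rpow_one _
      exact_mod_cast h2.trans h3
    have h1 := hx1 x hxx1 s (w / s) V hs1 ht1 hs.2 (hcube _ (hsw.trans hw.2))
      (hcube _ (htw.trans hw.2)) hV1 hVx
      ((Icc 1 V).filter (fun g => Odd (s * g + 1) ∧ Odd (w / s * g + 1) ∧
      Same x (s * g + 1) (w / s * g + 1) ∧ Nz x (s * g + 1))) (filter_subset _ _) (by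
      intro g hg
      exact (mem_filter.mp hg).2)
    refine h1.trans (mul_le_mul_of_nonneg_left ?_ (by positivity))
    calc (V : ℝ) ^ (3 / 4 + 1 / 100 : ℝ) ≤ ((x : ℝ) ^ (1 / 2 : ℝ)) ^ (3 / 4 + 1 / 100 : ℝ) :=
          rpow_le_rpow (Nat.cast_nonneg _) hVle (by norm_num)
      _ = _ := by rw [← rpow_mul hxpos.le]; norm_num
  have hLK : log (x : ℝ) ≤ K3 * (x : ℝ) ^ (1 / 1000 : ℝ) := by
    have := log_fac (1 / 1000) (by norm_num) hx1'
    rw [← hK3] at this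
    linarith
  have hF : ∀ w ∈ Icc 1 U, ∑ s ∈ w.divisors.filter (fun s => s ≠ w / s),
      (((Icc 1 V).filter (fun g => Odd (s * g + 1) ∧ Odd (w / s * g + 1) ∧
      Same x (s * g + 1) (w / s * g + 1) ∧ Nz x (s * g + 1))).card : ℝ) ≤
      (K4 * (x : ℝ) ^ (1 / 1000 : ℝ)) * (96 * log x * (x : ℝ) ^ (1 / 2 * (76 / 100) : ℝ)) := by
    intro w hw
    refine (sum_le_sum (hE w hw)).trans ?_
    rw [sum_const, nsmul_eq_mul]
    rw [mem_Icc] at hw
    apply mul_le_mul_of_nonneg_right _ (by positivity)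
    have h3 : ((w.divisors.filter (fun s => s ≠ w / s)).card : ℝ) ≤ w.divisors.card := by
      exact_mod_cast card_filter_le _ _
    refine h3.trans ((hdiv w hw.1).trans ?_)
    apply mul_le_mul_of_nonneg_left _ hK4.le
    exact rpow_le_rpow (Nat.cast_nonneg _) (by exact_mod_cast hw.2.trans hUx) (by norm_num)
  have h1 := hcov.trans (sum_le_sum hF)
  rw [sum_const, nsmul_eq_mul, Nat.card_Icc, Nat.add_sub_cancel] at h1
  refine h1.trans ?_
  calc (U : ℝ) * ((K4 * (x : ℝ) ^ (1 / 1000 : ℝ)) *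
        (96 * log x * (x : ℝ) ^ (1 / 2 * (76 / 100) : ℝ))) ≤
      (x : ℝ) ^ (9 / 100 : ℝ) * ((K4 * (x : ℝ) ^ (1 / 1000 : ℝ)) *
        (96 * (K3 * (x : ℝ) ^ (1 / 1000 : ℝ)) * (x : ℝ) ^ (1 / 2 * (76 / 100) : ℝ))) := by
        apply mul_le_mul hUle _ (by positivity) (by positivity)
        apply mul_le_mul_of_nonneg_left _ (by positivity)
        apply mul_le_mul_of_nonneg_right _ (by positivity)
        linarith
    _ = 96 * K3 * K4 * ((x : ℝ) ^ (9 / 100 : ℝ) * (x : ℝ) ^ (1 / 1000 : ℝ) *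
        (x : ℝ) ^ (1 / 1000 : ℝ) * (x : ℝ) ^ (1 / 2 * (76 / 100) : ℝ)) := by ring
    _ = 96 * K3 * K4 * (x : ℝ) ^ (9 / 100 + 1 / 1000 + 1 / 1000 + 1 / 2 * (76 / 100) : ℝ) := by
        rw [rpow_add hxpos, rpow_add hxpos, rpow_add hxpos]
    _ ≤ _ := by
        apply mul_le_mul_of_nonneg_left _ (by positivity)
        exact rpow_le_rpow_of_exponent_le hx1' (by norm_num)

theorem clsD1' : ∃ K : ℝ, 0 < K ∧ ∃ x0 : ℕ, ∀ x : ℕ, x0 ≤ x → ∀ S : Finset ℕ,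
    (∀ n ∈ S, (x : ℝ) / 2 < n ∧ n ≤ x ∧ IsD1' x n) →
    (S.card : ℝ) ≤ K * (x : ℝ) ^ (489 / 1000 : ℝ) := by
  classical
  obtain ⟨K1, hK1, x1, hx1⟩ := clsD1a'
  obtain ⟨K2, hK2, x2, hx2⟩ := clsD1b'
  refine ⟨K1 + K2, by positivity, max x1 x2, ?_⟩
  intro x hx S hS
  set Q : ℕ → Prop := fun n => ∃ p q g : ℕ, n = p * q ∧ p.Prime ∧ q.Prime ∧ q < p ∧
      Odd p ∧ Odd q ∧ Same x p q ∧ Nz x q ∧ g ∣ p - 1 ∧ g ∣ q - 1 ∧ Lv x p g ∧
      (g : ℝ) ≤ (x : ℝ) ^ (455 / 1000 : ℝ) with hQ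
  have h1 := hx1 x ((le_max_left _ _).trans hx) (S.filter Q) (by
    intro n hn
    rw [mem_filter] at hn
    obtain ⟨a1, a2, _⟩ := hS n hn.1
    exact ⟨a1, a2, hn.2⟩)
  have h2 := hx2 x ((le_max_right _ _).trans hx) (S.filter (fun n => ¬ Q n)) (by
    intro n hn
    rw [mem_filter] at hn
    obtain ⟨a1, a2, p, q, g, b1, b2, b3, b4, b5, b6, b7, b8, b9, b10, b12⟩ := hS n hn.1
    refine ⟨a1, a2, p, q, g, b1, b2, b3, b4, b5, b6, b7, b8, b9, b10, ?_⟩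
    by_contra hc
    push Not at hc
    exact hn.2 ⟨p, q, g, b1, b2, b3, b4, b5, b6, b7, b8, b9, b10, b12, hc⟩)
  have h3 := card_filter_add_card_filter_not (s := S) Q
  have h4 : (S.card : ℝ) = ((S.filter Q).card : ℝ) + ((S.filter (fun n => ¬ Q n)).card : ℝ) := by
    exact_mod_cast h3.symm
  rw [h4]
  linarith

end Pool.Agent.L0h54.EY
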