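import Pool.Agent.L0h54.EY.Cs

set_option autoImplicit false

/-! The count of the numbers without a small witness. -/

namespace Pool.Agent.L0h54.EY

open Finset Real Pool.Agent.H379R2.W Pool.Agent.W57.SW Pool.Agent.L0h54.EX

open Classical in
theorem top' : ∃ K : ℝ, 0 < K ∧ ∀ x : ℕ, 1 ≤ x →
    (((Icc 1 x).filter (fun n => Bd 2 n ∧ (x : ℝ) / 2 < n)).card : ℝ) ≤
      K * (x : ℝ) ^ (49 / 100 : ℝ) := by
  obtain ⟨x0, hx0⟩ := cases_all'
  obtain ⟨K1, hK1, x1, hx1⟩ := clsAC R0 0 (101 / 10000) (49 / 100) (by norm_num)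
    (fun x d hd => by unfold R0 at hd; rw [mem_Rg] at hd; exact hd.1.2) rank0
  obtain ⟨K2, hK2, x2, hx2⟩ := clsAC (R1 (101 / 10000)) (101 / 10000) (202 / 10000) (49 / 100)
    (by norm_num) (fun x d hd => by unfold R1 at hd; rw [mem_Rg] at hd; exact hd.1.2)
    (rank1 (101 / 10000) (by norm_num) (by norm_num))
  obtain ⟨K3, hK3, x3, hx3⟩ := clsB (101 / 10000) (49 / 100) (by norm_num)
  obtain ⟨K4, hK4, x4, hx4⟩ := clsD1'
  obtain ⟨K5, hK5, x5, hx5⟩ := clsD2'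
  obtain ⟨K6, hK6, x6, hx6⟩ := clsS2 (609 / 10000) (150 / 10000) (1370 / 10000) (1219 / 10000)
    (49 / 100) (by norm_num) (by norm_num) (by norm_num) (by norm_num) (by norm_num) (by norm_num)
  obtain ⟨K7, hK7, x7, hx7⟩ := clsS2 (812 / 10000) (650 / 10000) (1056 / 10000) (1625 / 10000)
    (49 / 100) (by norm_num) (by norm_num) (by norm_num) (by norm_num) (by norm_num) (by norm_num)
  obtain ⟨X, hX⟩ : ∃ X : ℕ, X = x0 + x1 + x2 + x3 + x4 + x5 + x6 + x7 := ⟨_, rfl⟩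
  refine ⟨X + (K1 + K2 + K3 + K4 + K5 + K6 + K7), by positivity, ?_⟩
  intro x hx
  have hx1' : (1 : ℝ) ≤ x := by exact_mod_cast hx
  have hpow1 : (1 : ℝ) ≤ (x : ℝ) ^ (49 / 100 : ℝ) := one_le_rpow hx1' (by norm_num)
  obtain ⟨S, hS⟩ : ∃ S : Finset ℕ, S = (Icc 1 x).filter (fun n => Bd 2 n ∧ (x : ℝ) / 2 < n) :=
    ⟨_, rfl⟩
  rw [← hS]
  rcases lt_or_ge x X with hsm | hlg
  · have h1 : S.card ≤ x := by
      rw [hS]
      refine (card_filter_le _ _).trans ?_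
      rw [Nat.card_Icc]; omega
    have h2 : (S.card : ℝ) ≤ X := by exact_mod_cast h1.trans hsm.le
    calc (S.card : ℝ) ≤ (X + (K1 + K2 + K3 + K4 + K5 + K6 + K7)) * 1 := by linarith
      _ ≤ _ := mul_le_mul_of_nonneg_left hpow1 (by positivity)
  · have hmem : ∀ n ∈ S, (x : ℝ) / 2 < n ∧ n ≤ x ∧ Bd 2 n := by
      intro n hn
      rw [hS, mem_filter, mem_Icc] at hn
      exact ⟨hn.2.2, hn.1.2, hn.2.1⟩
    have key : ∀ (P : ℕ → Prop) (K c : ℝ), 0 < K → c ≤ 49 / 100 →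
        (∀ S : Finset ℕ, (∀ n ∈ S, (x : ℝ) / 2 < n ∧ n ≤ x ∧ P n) →
          (S.card : ℝ) ≤ K * (x : ℝ) ^ c) →
        ((S.filter P).card : ℝ) ≤ K * (x : ℝ) ^ (49 / 100 : ℝ) := by
      intro P K c hK hc h
      refine (h (S.filter P) ?_).trans ?_
      · intro n hn
        rw [mem_filter] at hn
        obtain ⟨a1, a2, _⟩ := hmem n hn.1
        exact ⟨a1, a2, hn.2⟩
      · exact mul_le_mul_of_nonneg_left (rpow_le_rpow_of_exponent_le hx1' hc) hK.le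
    have b1 := key _ K1 _ hK1 le_rfl (hx1 x (by omega))
    have b2 := key _ K2 _ hK2 le_rfl (hx2 x (by omega))
    have b3 := key _ K3 _ hK3 le_rfl (hx3 x (by omega))
    have b4 := key _ K4 _ hK4 (by norm_num) (hx4 x (by omega))
    have b5 := key _ K5 _ hK5 (by norm_num) (hx5 x (by omega))
    have b6 := key _ K6 _ hK6 le_rfl (hx6 x (by omega))
    have b7 := key _ K7 _ hK7 le_rfl (hx7 x (by omega))
    obtain ⟨A1, hA1⟩ : ∃ A, A = S.filter (IsAC R0 (101 / 10000) x) := ⟨_, rfl⟩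
    obtain ⟨A2, hA2⟩ : ∃ A, A = S.filter (IsAC (R1 (101 / 10000)) (202 / 10000) x) := ⟨_, rfl⟩
    obtain ⟨A3, hA3⟩ : ∃ A, A = S.filter (IsB (101 / 10000) x) := ⟨_, rfl⟩
    obtain ⟨A4, hA4⟩ : ∃ A, A = S.filter (IsD1' x) := ⟨_, rfl⟩
    obtain ⟨A5, hA5⟩ : ∃ A, A = S.filter (IsD2' x) := ⟨_, rfl⟩
    obtain ⟨A6, hA6⟩ : ∃ A, A = S.filter
      (IsS2 (609 / 10000) (150 / 10000) (1370 / 10000) (1219 / 10000) x) := ⟨_, rfl⟩
    obtain ⟨A7, hA7⟩ : ∃ A, A = S.filter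
      (IsS2 (812 / 10000) (650 / 10000) (1056 / 10000) (1625 / 10000) x) := ⟨_, rfl⟩
    rw [← hA1] at b1
    rw [← hA2] at b2
    rw [← hA3] at b3
    rw [← hA4] at b4
    rw [← hA5] at b5
    rw [← hA6] at b6
    rw [← hA7] at b7
    have hcov : S ⊆ A1 ∪ (A2 ∪ (A3 ∪ (A4 ∪ (A5 ∪ (A6 ∪ A7))))) := by
      intro n hn
      obtain ⟨a1, a2, a3⟩ := hmem n hn
      simp only [mem_union, hA1, hA2, hA3, hA4, hA5, hA6, hA7, mem_filter]
      have h := hx0 x (by omega) n a1 a2 a3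
      unfold Cl at h
      tauto
    have c1 := card_le_card hcov
    have c2 := card_union_le A1 (A2 ∪ (A3 ∪ (A4 ∪ (A5 ∪ (A6 ∪ A7)))))
    have c3 := card_union_le A2 (A3 ∪ (A4 ∪ (A5 ∪ (A6 ∪ A7))))
    have c4 := card_union_le A3 (A4 ∪ (A5 ∪ (A6 ∪ A7)))
    have c5 := card_union_le A4 (A5 ∪ (A6 ∪ A7))
    have c6 := card_union_le A5 (A6 ∪ A7)
    have c7 := card_union_le A6 A7
    have c8 : S.card ≤ A1.card + (A2.card + (A3.card + (A4.card + (A5.card +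
      (A6.card + A7.card))))) := by omega
    have c9 : (S.card : ℝ) ≤ (A1.card : ℝ) + ((A2.card : ℝ) + ((A3.card : ℝ) + ((A4.card : ℝ) +
        ((A5.card : ℝ) + ((A6.card : ℝ) + (A7.card : ℝ)))))) := by exact_mod_cast c8
    have hX0 : 0 ≤ (X : ℝ) * (x : ℝ) ^ (49 / 100 : ℝ) := by positivity
    linarith

open Classical in
/-- The main counting theorem. -/
theorem main' : ∃ K : ℝ, 0 < K ∧ ∀ x : ℕ, 1 ≤ x →
    (((Icc 1 x).filter (Bd 2)).card : ℝ) ≤ K * (x : ℝ) ^ (49 / 100 : ℝ) := by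
  obtain ⟨K, hK, htop⟩ := top'
  refine ⟨4 * K, by positivity, ?_⟩
  intro x
  induction x using Nat.strong_induction_on with
  | _ x ih =>
  intro hx
  have hx1 : (1 : ℝ) ≤ x := by exact_mod_cast hx
  have hxpos : (0 : ℝ) < x := by linarith
  rcases eq_or_lt_of_le hx with h1 | h1
  · have h2 : (Icc 1 x).filter (Bd 2) = ∅ := by
      rw [filter_eq_empty_iff]
      intro n hn hb
      rw [mem_Icc] at hn
      have := hb.1
      omega
    rw [h2]
    simp only [card_empty, Nat.cast_zero]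
    positivity
  · have hy1 : 1 ≤ x / 2 := by omega
    have hy2 : x / 2 < x := by omega
    have h3 := ih (x / 2) hy2 hy1
    have h4 := htop x hx
    have hcov : (Icc 1 x).filter (Bd 2) ⊆
        (Icc 1 x).filter (fun n => Bd 2 n ∧ (x : ℝ) / 2 < n) ∪ (Icc 1 (x / 2)).filter (Bd 2) := by
      intro n hn
      rw [mem_filter, mem_Icc] at hn
      rw [mem_union, mem_filter, mem_filter, mem_Icc, mem_Icc]
      rcases lt_or_ge ((x : ℝ) / 2) n with h | h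
      · exact Or.inl ⟨hn.1, hn.2, h⟩
      · right
        refine ⟨⟨hn.1.1, ?_⟩, hn.2⟩
        rw [Nat.le_div_iff_mul_le (by norm_num)]
        have : (n : ℝ) * 2 ≤ x := by linarith
        exact_mod_cast this
    have h5 := (card_le_card hcov).trans (card_union_le _ _)
    have h6 : (((Icc 1 x).filter (Bd 2)).card : ℝ) ≤
        (((Icc 1 x).filter (fun n => Bd 2 n ∧ (x : ℝ) / 2 < n)).card : ℝ) +
        (((Icc 1 (x / 2)).filter (Bd 2)).card : ℝ) := by exact_mod_cast h5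
    have h7 : ((x / 2 : ℕ) : ℝ) ^ (49 / 100 : ℝ) ≤ 3 / 4 * (x : ℝ) ^ (49 / 100 : ℝ) := by
      have e1 : ((x / 2 : ℕ) : ℝ) ≤ (x : ℝ) / 2 := Nat.cast_div_le
      have e2 : ((x / 2 : ℕ) : ℝ) ^ (49 / 100 : ℝ) ≤ ((x : ℝ) / 2) ^ (49 / 100 : ℝ) :=
        rpow_le_rpow (Nat.cast_nonneg _) e1 (by norm_num)
      rw [div_rpow hxpos.le (by norm_num)] at e2
      refine e2.trans ?_
      have e3 : (4 : ℝ) / 3 ≤ 2 ^ (49 / 100 : ℝ) := by
        have e4 : (2 : ℝ) ^ (9 / 20 : ℝ) ≤ 2 ^ (49 / 100 : ℝ) :=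
          rpow_le_rpow_of_exponent_le (by norm_num) (by norm_num)
        refine le_trans ?_ e4
        rw [show (4 : ℝ) / 3 = ((4 / 3 : ℝ) ^ (20 : ℝ)) ^ (1 / 20 : ℝ) by
          rw [← rpow_mul (by norm_num)]; norm_num, show (9 / 20 : ℝ) = 9 * (1 / 20) by norm_num,
          rpow_mul (by norm_num)]
        apply rpow_le_rpow (by positivity) _ (by norm_num)
        rw [show (20 : ℝ) = ((20 : ℕ) : ℝ) by norm_num, show (9 : ℝ) = ((9 : ℕ) : ℝ) by norm_num,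
          rpow_natCast, rpow_natCast]
        norm_num
      have e5 : 0 < (2 : ℝ) ^ (49 / 100 : ℝ) := by positivity
      have e6 : 0 < (x : ℝ) ^ (49 / 100 : ℝ) := by positivity
      rw [div_le_iff₀ e5]
      nlinarith
    have h8 : 4 * K * ((x / 2 : ℕ) : ℝ) ^ (49 / 100 : ℝ) ≤
        4 * K * (3 / 4 * (x : ℝ) ^ (49 / 100 : ℝ)) :=
      mul_le_mul_of_nonneg_left h7 (by positivity)
    linarith

end Pool.Agent.L0h54.EY
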