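import Pool.Agent.L0h54.EX.PSum
import Pool.Agent.L0h54.EY.B

set_option autoImplicit false

/-! The primes which can divide smooth numbers with a small modulus are rare: the exponent `42/100`. -/

namespace Pool.Agent.L0h54.EY

open Finset Real Pool.Agent.W57.SW Pool.Agent.L0h54.EX

lemma npow (κ ν : ℝ) (hκ : κ ≤ 1) (hκ0 : 0 < κ) (hν : 0 < ν) : ∃ C : ℝ, 0 < C ∧ ∀ y : ℝ, 1 ≤ y →
    ∀ T : Finset ℕ, (∀ p ∈ T, 1 ≤ p) →
    ∑ p ∈ T, (p : ℝ) ^ (-κ) ≤ C * y ^ (1 - κ + ν) + T.card * y ^ (-κ) := by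
  classical
  obtain ⟨C, hC, hws⟩ := ws 1 (1 + ν) (by norm_num) (by linarith)
  refine ⟨C * 1, by positivity, ?_⟩
  intro y hy T hT
  have hy0 : 0 < y := by linarith
  rw [← sum_filter_add_sum_filter_not T (fun p : ℕ => (p : ℝ) ≤ y)]
  apply add_le_add
  · have h1 : ∀ p ∈ T.filter (fun p : ℕ => (p : ℝ) ≤ y), (p : ℝ) ^ (-κ) ≤
        y ^ (1 - κ + ν) * (p : ℝ) ^ (-(1 + ν)) := by
      intro p hp
      rw [mem_filter] at hp
      have hp0 : (0 : ℝ) < p := by exact_mod_cast hT p hp.1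
      have e1 : (p : ℝ) ^ (-κ) = (p : ℝ) ^ (1 - κ + ν) * (p : ℝ) ^ (-(1 + ν)) := by
        rw [← rpow_add hp0]; congr 1; ring
      rw [e1]
      apply mul_le_mul_of_nonneg_right _ (by positivity)
      exact rpow_le_rpow hp0.le hp.2 (by linarith)
    refine (sum_le_sum h1).trans ?_
    rw [← mul_sum]
    have h2 := hws ℕ (T.filter (fun p : ℕ => (p : ℝ) ≤ y)) (fun p => (p : ℝ)) 1 (by norm_num)
      (fun p hp => by exact_mod_cast hT p (mem_filter.mp hp).1) (by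
        intro z hz
        have h3 : (T.filter (fun p : ℕ => (p : ℝ) ≤ y)).filter (fun p : ℕ => (p : ℝ) ≤ z) ⊆
            Icc 1 ⌊z⌋₊ := by
          intro p hp
          rw [mem_filter, mem_filter] at hp
          rw [mem_Icc]
          exact ⟨hT p hp.1.1, Nat.le_floor hp.2⟩
        have h4 := card_le_card h3
        rw [Nat.card_Icc, Nat.add_sub_cancel] at h4
        rw [one_mul, rpow_one]
        have h5 : (((T.filter (fun p : ℕ => (p : ℝ) ≤ y)).filter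
          (fun p : ℕ => (p : ℝ) ≤ z)).card : ℝ) ≤ (⌊z⌋₊ : ℝ) := by exact_mod_cast h4
        exact h5.trans (Nat.floor_le (by linarith)))
    rw [mul_comm]
    exact mul_le_mul_of_nonneg_right h2 (by positivity)
  · have h1 : ∑ p ∈ T.filter (fun p : ℕ => ¬ (p : ℝ) ≤ y), (p : ℝ) ^ (-κ) ≤
        ∑ _p ∈ T.filter (fun p : ℕ => ¬ (p : ℝ) ≤ y), y ^ (-κ) := by
      apply sum_le_sum
      intro p hp
      have h1 := (mem_filter.mp hp).2
      push Not at h1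
      exact rpow_le_rpow_of_nonpos (by linarith) h1.le (by linarith)
    refine h1.trans ?_
    rw [sum_const, nsmul_eq_mul]
    apply mul_le_mul_of_nonneg_right _ (by positivity)
    exact_mod_cast card_filter_le _ _

theorem small_sum' : ∃ C : ℝ, 0 < C ∧ ∀ x b : ℕ, 1 ≤ x → Nz x b → ∀ T : Finset ℕ,
    (∀ p ∈ T, p.Prime ∧ Odd p ∧ (Same x p 1 ∨ Same x p b) ∧
      (p : ℝ) ≤ exp ((log x) ^ (5 / 6 : ℝ))) →
    ∑ p ∈ T, (p : ℝ) ^ (-(42 / 100) : ℝ) ≤ C := by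
  classical
  obtain ⟨K, hK, hb⟩ := hb_rank (12 / 5) (1 / 400) (by norm_num) (by norm_num)
  obtain ⟨C, hC, hws⟩ := ws (4195 / 10000) (42 / 100) (by norm_num) (by norm_num)
  refine ⟨C * (2 * K), by positivity, ?_⟩
  intro x b hx hbz T hT
  have hlog0 : 0 ≤ log (x : ℝ) := log_natCast_nonneg x
  obtain ⟨Z, hZ⟩ : ∃ Z : ℝ, Z = exp ((log x) ^ (5 / 6 : ℝ)) := ⟨_, rfl⟩
  have hZ1 : 1 ≤ Z := by
    rw [hZ]; exact one_le_exp (by positivity)
  apply hws ℕ T (fun p => (p : ℝ)) (2 * K) (by positivity)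
  · intro p hp
    exact_mod_cast (hT p hp).1.one_lt.le
  · intro y hy
    obtain ⟨X, hX⟩ : ∃ X : ℕ, X = min ⌊y⌋₊ ⌊Z⌋₊ := ⟨_, rfl⟩
    have hX1 : 1 ≤ X := by
      rw [hX]
      exact le_min (Nat.le_floor (by exact_mod_cast hy)) (Nat.le_floor (by exact_mod_cast hZ1))
    have hX0 : (0 : ℝ) < X := by exact_mod_cast hX1
    have hX1' : (1 : ℝ) ≤ X := by exact_mod_cast hX1
    have hXy : (X : ℝ) ≤ y := by
      have : X ≤ ⌊y⌋₊ := by rw [hX]; exact min_le_left _ _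
      exact (Nat.cast_le.mpr this).trans (Nat.floor_le (by linarith))
    have hXZ : (X : ℝ) ≤ Z := by
      have : X ≤ ⌊Z⌋₊ := by rw [hX]; exact min_le_right _ _
      exact (Nat.cast_le.mpr this).trans (Nat.floor_le (by linarith))
    have hlogX : log (X : ℝ) ≤ (log (x : ℝ)) ^ (5 / 6 : ℝ) := by
      have := log_le_log hX0 hXZ
      rwa [hZ, log_exp] at this
    have hWX : ∀ ℓ ∈ opr ⌊(log (X : ℝ)) ^ (12 / 5 : ℝ)⌋₊, ℓ ∈ W x := by
      intro ℓ hℓ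
      rw [mem_opr] at hℓ
      rw [W, mem_opr]
      refine ⟨hℓ.1, hℓ.2.1.trans (Nat.floor_le_floor ?_), hℓ.2.2⟩
      calc (log (X : ℝ)) ^ (12 / 5 : ℝ) ≤ ((log (x : ℝ)) ^ (5 / 6 : ℝ)) ^ (12 / 5 : ℝ) :=
            rpow_le_rpow (log_natCast_nonneg X) hlogX (by norm_num)
        _ = (log (x : ℝ)) ^ (2 : ℝ) := by
            rw [← rpow_mul hlog0]; norm_num
    have hgen : ∀ c : ℕ, Nz x c → ∀ T' : Finset ℕ, T' ⊆ T.filter (fun p : ℕ => (p : ℝ) ≤ y) →
        (∀ p ∈ T', Same x p c) → (T'.card : ℝ) ≤ K * y ^ (4195 / 10000 : ℝ) := by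
      intro c hc T' hT' hs
      have h1 := hb X hX1 T' (by
        intro p hp
        have h2 := mem_filter.mp (hT' hp)
        obtain ⟨a1, a2, _, a4⟩ := hT p h2.1
        rw [← hZ] at a4
        refine ⟨a1.one_lt.le, ?_, a2, a1.squarefree⟩
        rw [hX]
        exact le_min (Nat.le_floor h2.2) (Nat.le_floor a4)) (by
        intro p hp q hq ℓ hℓ
        have h2 := hWX ℓ hℓ
        rw [hs p hp ℓ h2, hs q hq ℓ h2]
        exact ⟨rfl, hc ℓ h2⟩)
      refine h1.trans (mul_le_mul_of_nonneg_left ?_ hK.le)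
      calc (X : ℝ) ^ (1 / (12 / 5) + 1 / 400 : ℝ) ≤ (X : ℝ) ^ (4195 / 10000 : ℝ) :=
            rpow_le_rpow_of_exponent_le hX1' (by norm_num)
        _ ≤ _ := rpow_le_rpow hX0.le hXy (by norm_num)
    have h1 := split_same (x := x) (b := b) (T.filter (fun p : ℕ => (p : ℝ) ≤ y))
      (fun p hp => (hT p (mem_filter.mp hp).1).2.2.1)
      (hgen 1 (nz_one x)) (hgen b hbz)
    rw [mul_assoc]
    exact h1

theorem large_sum_h' : ∃ C : ℝ, 0 < C ∧ ∃ x0 : ℕ, ∀ x : ℕ, x0 ≤ x → ∀ b h : ℕ, Nz x b → 1 ≤ h →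
    h ≤ x → ∀ T : Finset ℕ,
    (∀ p ∈ T, p.Prime ∧ Odd p ∧ p ≤ x ∧ h ∣ p - 1 ∧ (Same x p 1 ∨ Same x p b) ∧
      (p : ℝ) ^ (1 / 2 - 1 / 10000 : ℝ) ≤ h) →
    ∑ p ∈ T, (p : ℝ) ^ (-(42 / 100) : ℝ) ≤ C * log x * (h : ℝ) ^ (-(1708 / 10000) : ℝ) := by
  classical
  obtain ⟨K, hK, x1, hx1⟩ := lin23 (1 / 1000) (by norm_num) (by norm_num)
  obtain ⟨C, hC, hws⟩ := ws (668 / 1000) (669 / 1000) (by norm_num) (by norm_num)
  refine ⟨C * (4 * K), by positivity, max x1 3, ?_⟩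
  intro x hx b h hbz hh1 hhx T hT
  have hxx1 : x1 ≤ x := (le_max_left _ _).trans hx
  have hx3 : 3 ≤ x := (le_max_right _ _).trans hx
  have hlogx : 1 ≤ log (x : ℝ) := one_le_log hx3
  have hh0 : (0 : ℝ) < h := by exact_mod_cast hh1
  have hh1' : (1 : ℝ) ≤ h := by exact_mod_cast hh1
  have hhx2 : h ≤ x ^ 2 := hhx.trans (by nlinarith)
  have hph : ∀ p ∈ T, (h : ℝ) ≤ p := by
    intro p hp
    obtain ⟨a1, _, _, a4, _⟩ := hT p hp
    have := Nat.le_of_dvd (by have := a1.two_le; omega) a4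
    exact_mod_cast (by omega : h ≤ p)
  have h1 := hws ℕ T (fun p => (p : ℝ) / h) (4 * K * log x) (by positivity) (by
    intro p hp
    rw [one_le_div hh0]
    exact hph p hp) (by
    intro y hy
    obtain ⟨Y, hY⟩ : ∃ Y : ℕ, Y = min ⌊y * h⌋₊ x := ⟨_, rfl⟩
    have hYx : Y ≤ x := by rw [hY]; exact min_le_right _ _
    have hYy : (Y : ℝ) / h ≤ y := by
      rw [div_le_iff₀ hh0]
      have : Y ≤ ⌊y * h⌋₊ := by rw [hY]; exact min_le_left _ _
      exact (Nat.cast_le.mpr this).trans (Nat.floor_le (by positivity))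
    have hgen : ∀ c : ℕ, Nz x c → ∀ T' : Finset ℕ,
        T' ⊆ T.filter (fun p : ℕ => (p : ℝ) / h ≤ y) →
        (∀ p ∈ T', Same x p c) → (T'.card : ℝ) ≤ 2 * K * log x * y ^ (668 / 1000 : ℝ) := by
      intro c hc T' hT' hs
      have h2 := hx1 x hxx1 h Y c 1 hh1 hhx2 hYx hc T' (by
        intro p hp
        have h3 := mem_filter.mp (hT' hp)
        obtain ⟨a1, a2, a3, a4, _⟩ := hT p h3.1
        refine ⟨?_, a2, ?_, hs p hp⟩
        · rw [hY]
          refine le_min (Nat.le_floor ?_) a3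
          have := h3.2
          rwa [div_le_iff₀ hh0] at this
        · exact ((Nat.modEq_iff_dvd' a1.one_lt.le).mpr a4).symm)
      refine h2.trans ?_
      have h3 : ((Y : ℝ) / h + 1) ^ (2 / 3 + 1 / 1000 : ℝ) ≤ 2 * y ^ (668 / 1000 : ℝ) := by
        calc ((Y : ℝ) / h + 1) ^ (2 / 3 + 1 / 1000 : ℝ) ≤ (2 * y) ^ (2 / 3 + 1 / 1000 : ℝ) :=
              rpow_le_rpow (by positivity) (by linarith) (by norm_num)
          _ = 2 ^ (2 / 3 + 1 / 1000 : ℝ) * y ^ (2 / 3 + 1 / 1000 : ℝ) :=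
              mul_rpow (by norm_num) (by linarith)
          _ ≤ 2 * y ^ (668 / 1000 : ℝ) := by
              apply mul_le_mul _ _ (by positivity) (by norm_num)
              · calc (2 : ℝ) ^ (2 / 3 + 1 / 1000 : ℝ) ≤ (2 : ℝ) ^ (1 : ℝ) :=
                    rpow_le_rpow_of_exponent_le (by norm_num) (by norm_num)
                  _ = 2 := rpow_one _
              · exact rpow_le_rpow_of_exponent_le hy (by norm_num)
      calc K * log x * ((Y : ℝ) / h + 1) ^ (2 / 3 + 1 / 1000 : ℝ) ≤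
          K * log x * (2 * y ^ (668 / 1000 : ℝ)) := mul_le_mul_of_nonneg_left h3 (by positivity)
        _ = _ := by ring
    have h4 := split_same (x := x) (b := b) (T.filter (fun p : ℕ => (p : ℝ) / h ≤ y))
      (fun p hp => (hT p (mem_filter.mp hp).1).2.2.2.2.1)
      (hgen 1 (nz_one x)) (hgen b hbz)
    linarith)
  have h2 : ∀ p ∈ T, (p : ℝ) ^ (-(42 / 100) : ℝ) ≤
      (h : ℝ) ^ (-(1708 / 10000) : ℝ) * ((p : ℝ) / h) ^ (-(669 / 1000) : ℝ) := by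
    intro p hp
    obtain ⟨a1, _, _, _, _, a6⟩ := hT p hp
    have hp0 : (0 : ℝ) < p := by exact_mod_cast a1.pos
    have hph' := hph p hp
    have e1 : (p : ℝ) ≤ (h : ℝ) ^ (10000 / 4999 : ℝ) := by
      have := rpow_le_rpow (by positivity) a6 (by norm_num : (0 : ℝ) ≤ 10000 / 4999)
      rwa [← rpow_mul hp0.le, show ((1 : ℝ) / 2 - 1 / 10000) * (10000 / 4999) = 1 by norm_num,
        rpow_one] at this
    have e2 : (p : ℝ) / h ≤ (h : ℝ) ^ (5001 / 4999 : ℝ) := by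
      rw [div_le_iff₀ hh0]
      refine e1.trans (le_of_eq ?_)
      nth_rewrite 3 [← rpow_one (h : ℝ)]
      rw [← rpow_add hh0]; norm_num
    have e3 : ((p : ℝ) / h) ^ (249 / 1000 : ℝ) ≤ (h : ℝ) ^ (5001 / 4999 * (249 / 1000) : ℝ) := by
      rw [rpow_mul hh0.le]
      exact rpow_le_rpow (by positivity) e2 (by norm_num)
    have e4 : (p : ℝ) ^ (-(42 / 100) : ℝ) = (h : ℝ) ^ (-(42 / 100) : ℝ) *
        (((p : ℝ) / h) ^ (249 / 1000 : ℝ) * ((p : ℝ) / h) ^ (-(669 / 1000) : ℝ)) := by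
      rw [← rpow_add (by positivity), show (249 / 1000 : ℝ) + -(669 / 1000) = -(42 / 100) by norm_num,
        ← mul_rpow hh0.le (by positivity), mul_div_cancel₀ _ hh0.ne']
    rw [e4, ← mul_assoc]
    apply mul_le_mul_of_nonneg_right _ (by positivity)
    calc (h : ℝ) ^ (-(42 / 100) : ℝ) * ((p : ℝ) / h) ^ (249 / 1000 : ℝ) ≤
        (h : ℝ) ^ (-(42 / 100) : ℝ) * (h : ℝ) ^ (5001 / 4999 * (249 / 1000) : ℝ) :=
          mul_le_mul_of_nonneg_left e3 (by positivity)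
      _ = (h : ℝ) ^ (-(42 / 100) + 5001 / 4999 * (249 / 1000) : ℝ) := by rw [← rpow_add hh0]
      _ ≤ _ := rpow_le_rpow_of_exponent_le hh1' (by norm_num)
  refine (sum_le_sum h2).trans ?_
  rw [← mul_sum]
  calc (h : ℝ) ^ (-(1708 / 10000) : ℝ) * ∑ p ∈ T, ((p : ℝ) / h) ^ (-(669 / 1000) : ℝ) ≤
      (h : ℝ) ^ (-(1708 / 10000) : ℝ) * (C * (4 * K * log x)) :=
        mul_le_mul_of_nonneg_left h1 (by positivity)
    _ = _ := by ring

theorem P_sum' : ∃ C : ℝ, 0 < C ∧ ∃ x0 : ℕ, ∀ x : ℕ, x0 ≤ x → ∀ b L : ℕ, Nz x b → 1 ≤ L →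
    L ≤ x → ∀ T : Finset ℕ,
    (∀ p ∈ T, p.Prime ∧ Odd p ∧ p ≤ x ∧ (Same x p 1 ∨ Same x p b) ∧
      (p : ℝ) ^ (1 / 2 - 1 / 10000 : ℝ) ≤ Nat.gcd (p - 1) L) →
    ∑ p ∈ T, (p : ℝ) ^ (-(42 / 100) : ℝ) ≤ C := by
  classical
  obtain ⟨C1, hC1, hsm⟩ := small_sum'
  obtain ⟨C2, hC2, x1, hx1⟩ := large_sum_h'
  obtain ⟨C3, hC3, hnp⟩ := npow (17 / 100) (1 / 1000) (by norm_num) (by norm_num) (by norm_num)
  obtain ⟨c, hc⟩ : ∃ c : ℝ, c = (1 - (2 : ℝ) ^ (-(17 / 100) : ℝ))⁻¹ := ⟨_, rfl⟩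
  have hc0 : 0 < c := by
    rw [hc]
    have : (2 : ℝ) ^ (-(17 / 100) : ℝ) < 1 := rpow_lt_one_of_one_lt_of_neg (by norm_num) (by norm_num)
    have : 0 < 1 - (2 : ℝ) ^ (-(17 / 100) : ℝ) := by linarith
    positivity
  have hev1 : ∀ᶠ t : ℝ in Filter.atTop,
      c * (C3 + 2) * t ^ (831 / 1000 : ℝ) ≤ 0.0001 * t ^ (5 / 6 : ℝ) := by
    have h := (tendsto_rpow_atTop (show (0 : ℝ) < 5 / 6 - 831 / 1000 by norm_num)).eventually
      (Filter.eventually_ge_atTop (c * (C3 + 2) / 0.0001))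
    filter_upwards [h, Filter.eventually_ge_atTop 1] with t ht ht1
    have ht0 : 0 < t := by linarith
    have e : t ^ (5 / 6 : ℝ) = t ^ (831 / 1000 : ℝ) * t ^ (5 / 6 - 831 / 1000 : ℝ) := by
      rw [← rpow_add ht0]; norm_num
    rw [e]
    have h2 : c * (C3 + 2) ≤ 0.0001 * t ^ (5 / 6 - 831 / 1000 : ℝ) := by
      rw [div_le_iff₀ (by norm_num)] at ht
      linarith
    calc c * (C3 + 2) * t ^ (831 / 1000 : ℝ) ≤
          (0.0001 * t ^ (5 / 6 - 831 / 1000 : ℝ)) * t ^ (831 / 1000 : ℝ) :=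
          mul_le_mul_of_nonneg_right h2 (by positivity)
      _ = _ := by ring
  have hev2 : ∀ᶠ t : ℝ in Filter.atTop, log t ≤ 0.0001 * t ^ (5 / 6 : ℝ) := by
    have h := (isLittleO_log_rpow_atTop (show (0 : ℝ) < 5 / 6 by norm_num)).def
      (show (0 : ℝ) < 0.0001 by norm_num)
    filter_upwards [h, Filter.eventually_ge_atTop 1] with t ht ht1
    rw [norm_of_nonneg (log_nonneg ht1), norm_of_nonneg (by positivity)] at ht
    exact ht
  obtain ⟨t0, ht0⟩ := Filter.eventually_atTop.mp (hev1.and hev2)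
  refine ⟨C1 + C2, by positivity, max (max x1 3) ⌈exp t0⌉₊, ?_⟩
  intro x hx b L hbz hL1 hLx T hT
  have hxx1 : x1 ≤ x := (le_max_left _ _).trans ((le_max_left _ _).trans hx)
  have hx3 : 3 ≤ x := (le_max_right _ _).trans ((le_max_left _ _).trans hx)
  have hxe : exp t0 ≤ x := Nat.ceil_le.mp ((le_max_right _ _).trans hx)
  have hlogx : 1 ≤ log (x : ℝ) := one_le_log hx3
  have hxpos : (0 : ℝ) < x := by exact_mod_cast (by omega : 0 < x)
  obtain ⟨t, ht⟩ : ∃ t : ℝ, t = log x := ⟨_, rfl⟩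
  have htt0 : t0 ≤ t := by rw [ht, le_log_iff_exp_le hxpos]; exact hxe
  obtain ⟨g1, g2⟩ := ht0 t htt0
  rw [← ht] at hlogx
  have htpos : 0 < t := by linarith
  obtain ⟨Z, hZ⟩ : ∃ Z : ℝ, Z = exp (t ^ (5 / 6 : ℝ)) := ⟨_, rfl⟩
  have hZ0 : 0 < Z := by rw [hZ]; positivity
  have hZ1 : 1 ≤ Z := by rw [hZ]; exact one_le_exp (by positivity)
  rw [← sum_filter_add_sum_filter_not T (fun p : ℕ => (p : ℝ) ≤ Z)]
  apply add_le_add
  · apply hsm x b (by omega) hbz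
    intro p hp
    rw [mem_filter] at hp
    obtain ⟨a1, a2, a3, a4, _⟩ := hT p hp.1
    refine ⟨a1, a2, a4, ?_⟩
    rw [← ht, ← hZ]; exact hp.2
  · obtain ⟨T2, hT2⟩ : ∃ T2, T2 = T.filter (fun p : ℕ => ¬ (p : ℝ) ≤ Z) := ⟨_, rfl⟩
    obtain ⟨H, hH⟩ : ∃ H : Finset ℕ, H = L.divisors.filter
      (fun h : ℕ => Z ^ (1 / 2 - 1 / 10000 : ℝ) ≤ (h : ℝ)) := ⟨_, rfl⟩
    rw [← hT2]
    have hmaps : ∀ p ∈ T2, Nat.gcd (p - 1) L ∈ H := by
      intro p hp
      rw [hT2, mem_filter] at hp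
      obtain ⟨a1, a2, a3, a4, a5⟩ := hT p hp.1
      have h1 := hp.2
      push Not at h1
      rw [hH, mem_filter, Nat.mem_divisors]
      refine ⟨⟨Nat.gcd_dvd_right _ _, by omega⟩, le_trans ?_ a5⟩
      exact rpow_le_rpow hZ0.le h1.le (by norm_num)
    rw [← sum_fiberwise_of_maps_to hmaps]
    have h1 : ∀ h ∈ H, ∑ p ∈ T2 with Nat.gcd (p - 1) L = h, (p : ℝ) ^ (-(42 / 100) : ℝ) ≤
        C2 * t * Z ^ (-(39992 / 100000000) : ℝ) * (h : ℝ) ^ (-(17 / 100) : ℝ) := by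
      intro h hh
      rw [hH, mem_filter] at hh
      have hh1 : 1 ≤ h := Nat.pos_of_mem_divisors hh.1
      have hh0 : (0 : ℝ) < h := by exact_mod_cast hh1
      have hhL : h ≤ L := Nat.divisor_le hh.1
      have h2 := hx1 x hxx1 b h hbz hh1 (hhL.trans hLx)
        (T2.filter (fun p => Nat.gcd (p - 1) L = h)) (by
        intro p hp
        rw [mem_filter, hT2, mem_filter] at hp
        obtain ⟨a1, a2, a3, a4, a5⟩ := hT p hp.1.1
        refine ⟨a1, a2, a3, ?_, a4, ?_⟩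
        · rw [← hp.2]; exact Nat.gcd_dvd_left _ _
        · rw [hp.2] at a5; exact a5)
      rw [← ht] at h2
      refine h2.trans ?_
      have h3 : (h : ℝ) ^ (-(1708 / 10000) : ℝ) = (h : ℝ) ^ (-(8 / 10000) : ℝ) *
          (h : ℝ) ^ (-(17 / 100) : ℝ) := by
        rw [← rpow_add hh0]; norm_num
      have h4 : (h : ℝ) ^ (-(8 / 10000) : ℝ) ≤ Z ^ (-(39992 / 100000000) : ℝ) := by
        have h5 := rpow_le_rpow_of_nonpos (by positivity) hh.2
          (by norm_num : (-(8 / 10000) : ℝ) ≤ 0)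
        refine h5.trans (le_of_eq ?_)
        rw [← rpow_mul hZ0.le]; norm_num
      rw [h3, mul_assoc (C2 * t)]
      apply mul_le_mul_of_nonneg_left _ (by positivity)
      exact mul_le_mul_of_nonneg_right h4 (by positivity)
    refine (sum_le_sum h1).trans ?_
    rw [← mul_sum]
    have h2 : ∑ h ∈ H, (h : ℝ) ^ (-(17 / 100) : ℝ) ≤ exp (0.0001 * t ^ (5 / 6 : ℝ)) := by
      have h3 : ∑ h ∈ H, (h : ℝ) ^ (-(17 / 100) : ℝ) ≤
          ∑ h ∈ L.divisors, (h : ℝ) ^ (-(17 / 100) : ℝ) := by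
        apply sum_le_sum_of_subset_of_nonneg
        · rw [hH]; exact filter_subset _ _
        · intro h _ _; positivity
      refine h3.trans ((div_sum_le (17 / 100) (by norm_num) (by omega : L ≠ 0)).trans ?_)
      apply exp_le_exp.mpr
      rw [← hc]
      refine le_trans ?_ g1
      rw [mul_assoc]
      apply mul_le_mul_of_nonneg_left _ hc0.le
      have h4 := hnp t hlogx L.primeFactors
        (fun p hp => (Nat.prime_of_mem_primeFactors hp).one_lt.le)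
      refine h4.trans ?_
      have h5 := pf_card hL1 hLx
      rw [← ht] at h5
      have h6 : (L.primeFactors.card : ℝ) * t ^ (-(17 / 100) : ℝ) ≤ 2 * t ^ (831 / 1000 : ℝ) := by
        have e2 : t * t ^ (-(17 / 100) : ℝ) ≤ t ^ (831 / 1000 : ℝ) := by
          nth_rewrite 1 [← rpow_one t]
          rw [← rpow_add htpos]
          exact rpow_le_rpow_of_exponent_le hlogx (by norm_num)
        have e3 : 0 < t ^ (-(17 / 100) : ℝ) := by positivity
        calc (L.primeFactors.card : ℝ) * t ^ (-(17 / 100) : ℝ) ≤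
            2 * t * t ^ (-(17 / 100) : ℝ) := mul_le_mul_of_nonneg_right h5 e3.le
          _ = 2 * (t * t ^ (-(17 / 100) : ℝ)) := by ring
          _ ≤ 2 * t ^ (831 / 1000 : ℝ) := by linarith
      have h7 : C3 * t ^ (1 - 17 / 100 + 1 / 1000 : ℝ) = C3 * t ^ (831 / 1000 : ℝ) := by
        norm_num
      rw [h7]
      linarith
    have h3 : t * Z ^ (-(39992 / 100000000) : ℝ) * exp (0.0001 * t ^ (5 / 6 : ℝ)) ≤ 1 := by
      have e1 : Z ^ (-(39992 / 100000000) : ℝ) = exp (-(39992 / 100000000) * t ^ (5 / 6 : ℝ)) := by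
        rw [hZ, ← exp_mul]; congr 1; ring
      rw [e1]
      nth_rewrite 1 [← exp_log htpos]
      rw [← exp_add, ← exp_add]
      apply exp_le_one_iff.mpr
      have : 0 ≤ t ^ (5 / 6 : ℝ) := by positivity
      linarith
    calc C2 * t * Z ^ (-(39992 / 100000000) : ℝ) * ∑ h ∈ H, (h : ℝ) ^ (-(17 / 100) : ℝ) ≤
        C2 * t * Z ^ (-(39992 / 100000000) : ℝ) * exp (0.0001 * t ^ (5 / 6 : ℝ)) :=
          mul_le_mul_of_nonneg_left h2 (by positivity)
      _ = C2 * (t * Z ^ (-(39992 / 100000000) : ℝ) * exp (0.0001 * t ^ (5 / 6 : ℝ))) := by ring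
      _ ≤ C2 * 1 := mul_le_mul_of_nonneg_left h3 hC2.le
      _ = C2 := mul_one _

end Pool.Agent.L0h54.EY
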