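import Pool.Agent.L0h54.EY.Lin

set_option autoImplicit false

/-! The sparse sets of the divisors which occur. -/

namespace Pool.Agent.L0h54.EY

open Finset Real Pool.Agent.W57.SW Pool.Agent.L0h54.EX

open Classical in
/-- products of an element of `Dx x` and possibly an exceptional prime -/
noncomputable def Rg (P : ℕ → ℕ → Prop) (x : ℕ) : Finset ℕ :=
  (Icc 1 x).filter (fun m => m ∈ Dx x ∨
    ∃ q m' : ℕ, q.Prime ∧ Odd q ∧ m = q * m' ∧ m' ∈ Dx x ∧ P m' q)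

open Classical in
lemma mem_Rg {P : ℕ → ℕ → Prop} {x m : ℕ} : m ∈ Rg P x ↔ (1 ≤ m ∧ m ≤ x) ∧ (m ∈ Dx x ∨
    ∃ q m' : ℕ, q.Prime ∧ Odd q ∧ m = q * m' ∧ m' ∈ Dx x ∧ P m' q) := by
  rw [Rg, mem_filter, mem_Icc]

lemma mem_Rg_of_Dx {P : ℕ → ℕ → Prop} {x m : ℕ} (h : m ∈ Dx x) : m ∈ Rg P x := by
  rw [mem_Rg]
  exact ⟨(mem_Dx.mp h).1, Or.inl h⟩

/-- the rank of the sparse set -/
theorem rank_gen (τ : ℝ) (hτ : 0 < τ) (hτ1 : τ ≤ 1 / 8) : ∃ K : ℝ, 0 < K ∧ ∀ x : ℕ, 1 ≤ x →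
    ∀ (P : ℕ → ℕ → Prop) (Q : ℝ), 1 ≤ Q →
    (∀ m Y : ℕ, m ∈ Dx x → 1 ≤ Y → Y ≤ x → ∀ T : Finset ℕ,
      (∀ q ∈ T, q ≤ Y ∧ q.Prime ∧ Odd q ∧ P m q) →
      (T.card : ℝ) ≤ Q * (Y : ℝ) ^ (1 / 2 + τ)) → ∀ X : ℕ, 1 ≤ X →
    (((Rg P x).filter (fun d : ℕ => d ≤ X)).card : ℝ) ≤ K * Q * (X : ℝ) ^ (1 / 2 + 2 * τ) := by
  classical
  obtain ⟨K1, hK1, hrank⟩ := rank_Dx τ hτ
  obtain ⟨C, hC, hQ⟩ := Qsum (1 / 2 + τ) (1 / 2 + 2 * τ) (1 / 2 + 2 * τ) 0 (by positivity)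
    (by linarith) le_rfl
  refine ⟨K1 + C * K1, by positivity, ?_⟩
  intro x hx P Q hQ1 hP X0 hX01
  have hxpos : (0 : ℝ) < x := by exact_mod_cast (by omega : 0 < x)
  have hx1' : (1 : ℝ) ≤ x := by exact_mod_cast hx
  obtain ⟨X, hX⟩ : ∃ X, X = min X0 x := ⟨_, rfl⟩
  have hX1 : 1 ≤ X := by omega
  have hXx : X ≤ x := by omega
  have hXX0 : X ≤ X0 := by omega
  have hX1' : (1 : ℝ) ≤ X := by exact_mod_cast hX1
  have hXpos : (0 : ℝ) < X := by linarith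
  have hred : (((Rg P x).filter (fun d : ℕ => d ≤ X0)).card : ℝ) ≤
      (((Rg P x).filter (fun d : ℕ => d ≤ X)).card : ℝ) := by
    have : (Rg P x).filter (fun d : ℕ => d ≤ X0) ⊆ (Rg P x).filter (fun d : ℕ => d ≤ X) := by
      intro d hd
      rw [mem_filter] at hd ⊢
      have h1 := hd.1
      rw [mem_Rg] at h1
      exact ⟨hd.1, by omega⟩
    exact_mod_cast card_le_card this
  refine hred.trans ?_
  have hfin : (((Rg P x).filter (fun d : ℕ => d ≤ X)).card : ℝ) ≤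
      (K1 + C * K1) * Q * (X : ℝ) ^ (1 / 2 + 2 * τ) := by
    obtain ⟨R1, hR1⟩ : ∃ R1, R1 = (Dx x).filter (fun d : ℕ => d ≤ X) := ⟨_, rfl⟩
    obtain ⟨S, hS⟩ : ∃ S : Finset ℕ, S = ((Rg P x).filter (fun d : ℕ => d ≤ X)) \ R1 := ⟨_, rfl⟩
    have hcov := cover_count S R1 (fun _ => ({()} : Finset Unit))
      (fun m _ => (Icc 1 ⌊(X : ℝ) / m⌋₊).filter (fun q => q.Prime ∧ Odd q ∧ P m q))
      (fun m _ q => q * m) (by
        intro n hn
        rw [hS, mem_sdiff, mem_filter, hR1, mem_filter, mem_Rg] at hn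
        obtain ⟨⟨⟨⟨n1, n2⟩, n3⟩, n4⟩, n5⟩ := hn
        rcases n3 with n3 | ⟨q, m', q1, q2, q3, q4, q5⟩
        · exact absurd ⟨n3, n4⟩ n5
        · have hm1 := (mem_Dx.mp q4).1.1
          have hm0 : (0 : ℝ) < m' := by exact_mod_cast hm1
          refine ⟨m', ?_, (), by simp, q, ?_, q3.symm⟩
          · rw [hR1, mem_filter]
            refine ⟨q4, le_trans ?_ n4⟩
            rw [q3]
            exact Nat.le_mul_of_pos_left m' q1.pos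
          · rw [mem_filter, mem_Icc]
            refine ⟨⟨q1.one_lt.le, Nat.le_floor ?_⟩, q1, q2, q5⟩
            rw [le_div_iff₀ hm0]
            have : q * m' ≤ X := by rw [← q3]; exact n4
            exact_mod_cast this)
    simp only [sum_singleton] at hcov
    have hb : ∀ m ∈ R1, (((Icc 1 ⌊(X : ℝ) / m⌋₊).filter
        (fun q => q.Prime ∧ Odd q ∧ P m q)).card : ℝ) ≤
        Q * ((X : ℝ) / m) ^ (1 / 2 + 2 * τ) := by
      intro m hm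
      rw [hR1, mem_filter] at hm
      obtain ⟨hm1, hm2⟩ := hm
      have hm3 := (mem_Dx.mp hm1).1.1
      have hm0 : (0 : ℝ) < m := by exact_mod_cast hm3
      have hmX : (m : ℝ) ≤ X := by exact_mod_cast hm2
      have hY1 : 1 ≤ (X : ℝ) / m := by rw [one_le_div hm0]; exact hmX
      have hYx : ⌊(X : ℝ) / m⌋₊ ≤ x := by
        apply Nat.floor_le_of_le
        calc (X : ℝ) / m ≤ X := div_le_self hXpos.le (by exact_mod_cast hm3)
          _ ≤ x := by exact_mod_cast hXx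
      have h1 := hP m ⌊(X : ℝ) / m⌋₊ hm1
        (Nat.le_floor (by exact_mod_cast hY1)) hYx
        ((Icc 1 ⌊(X : ℝ) / m⌋₊).filter (fun q => q.Prime ∧ Odd q ∧ P m q)) (by
          intro q hq
          rw [mem_filter, mem_Icc] at hq
          exact ⟨hq.1.2, hq.2⟩)
      refine h1.trans (mul_le_mul_of_nonneg_left ?_ (by positivity))
      calc ((⌊(X : ℝ) / m⌋₊ : ℕ) : ℝ) ^ (1 / 2 + τ) ≤ ((X : ℝ) / m) ^ (1 / 2 + τ) :=
            rpow_le_rpow (Nat.cast_nonneg _) (Nat.floor_le (by positivity)) (by linarith)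
        _ ≤ _ := rpow_le_rpow_of_exponent_le hY1 (by linarith)
    have h1 := hcov.trans (sum_le_sum hb)
    rw [← mul_sum] at h1
    have h2 := hQ X hX1' R1 K1 hK1.le (by
      intro d hd
      rw [hR1, mem_filter] at hd
      refine ⟨(mem_Dx.mp hd.1).1.1, ?_⟩
      rw [rpow_zero, mul_one]
      exact_mod_cast hd.2) (by
      intro Y hY
      refine le_trans ?_ (hrank x Y hY)
      have : R1.filter (fun d : ℕ => d ≤ Y) ⊆ (Dx x).filter (fun d : ℕ => d ≤ Y) := by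
        intro d hd
        rw [hR1, mem_filter, mem_filter] at hd
        exact mem_filter.mpr ⟨hd.1.1, hd.2⟩
      exact_mod_cast card_le_card this)
    rw [zero_mul, sub_zero] at h2
    have h3 := h1.trans (mul_le_mul_of_nonneg_left h2 (by positivity))
    have h4 : (R1.card : ℝ) ≤ K1 * (X : ℝ) ^ (1 / 2 + 2 * τ) := by
      rw [hR1]
      refine (hrank x X hX1).trans (mul_le_mul_of_nonneg_left ?_ hK1.le)
      exact rpow_le_rpow_of_exponent_le hX1' (by linarith)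
    have h5 : (((Rg P x).filter (fun d : ℕ => d ≤ X)).card : ℝ) ≤ S.card + R1.card := by
      have : ((Rg P x).filter (fun d : ℕ => d ≤ X)) ⊆ S ∪ R1 := by
        rw [hS, sdiff_union_self_eq_union]
        exact subset_union_left
      have h6 := (card_le_card this).trans (card_union_le _ _)
      exact_mod_cast h6
    obtain ⟨Z, hZ⟩ : ∃ Z : ℝ, Z = (X : ℝ) ^ (1 / 2 + 2 * τ) := ⟨_, rfl⟩
    rw [← hZ] at h3 h4 ⊢
    have hZ0 : 0 ≤ Z := by rw [hZ]; positivity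
    have h7 : K1 * Z ≤ K1 * Z * Q := le_mul_of_one_le_right (by positivity) hQ1
    calc (((Rg P x).filter (fun d : ℕ => d ≤ X)).card : ℝ) ≤ S.card + R1.card := h5
      _ ≤ Q * (C * K1 * Z) + K1 * Z := by linarith
      _ ≤ Q * (C * K1 * Z) + K1 * Z * Q := by linarith
      _ = _ := by ring
  refine hfin.trans (mul_le_mul_of_nonneg_left ?_ (by positivity))
  apply rpow_le_rpow hXpos.le _ (by linarith)
  exact_mod_cast hXX0

/-- the exceptional prime has the same symbols as another prime -/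
def P0 (x : ℕ) (m q : ℕ) : Prop := ∃ q' : ℕ, q'.Prime ∧ q' ∣ m ∧ Same x q q'

/-- the group of the exceptional prime is small -/
def P1 (η : ℝ) (x : ℕ) (_m q : ℕ) : Prop :=
  ∃ g : ℕ, 1 ≤ g ∧ (g : ℝ) ≤ (q : ℝ) ^ (1 / 2 : ℝ) * (x : ℝ) ^ η ∧ Lv x q g

/-- the sparse set without loss -/
noncomputable def R0 (x : ℕ) : Finset ℕ := Rg (P0 x) x

/-- the sparse set with loss `x^η` -/
noncomputable def R1 (η : ℝ) (x : ℕ) : Finset ℕ := Rg (P1 η x) x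

lemma ex0 (τ : ℝ) (hτ : 0 < τ) : ∃ K : ℝ, 0 < K ∧ ∀ x : ℕ, 3 ≤ x →
    ∀ m Y : ℕ, m ∈ Dx x → 1 ≤ Y → Y ≤ x → ∀ T : Finset ℕ,
    (∀ q ∈ T, q ≤ Y ∧ q.Prime ∧ Odd q ∧ P0 x m q) →
    (T.card : ℝ) ≤ K * log x * (Y : ℝ) ^ (1 / 2 + τ) := by
  classical
  obtain ⟨K, hK, hsame⟩ := same_count τ hτ
  refine ⟨2 * K, by positivity, ?_⟩
  intro x hx3 m Y hm hY1 hYx T hT
  have hlogx : 1 ≤ log (x : ℝ) := one_le_log hx3
  have hm' := mem_Dx.mp hm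
  have h1 : T ⊆ m.primeFactors.biUnion (fun q' => T.filter (fun q => Same x q q')) := by
    intro q hq
    obtain ⟨_, _, _, q', p1, p2, p3⟩ := hT q hq
    rw [mem_biUnion]
    exact ⟨q', Nat.mem_primeFactors.mpr ⟨p1, p2, by omega⟩, mem_filter.mpr ⟨hq, p3⟩⟩
  have h2 := (card_le_card h1).trans card_biUnion_le
  have h3 : (T.card : ℝ) ≤ ∑ q' ∈ m.primeFactors, ((T.filter (fun q => Same x q q')).card : ℝ) := by
    exact_mod_cast h2
  have h4 : ∀ q' ∈ m.primeFactors, ((T.filter (fun q => Same x q q')).card : ℝ) ≤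
      K * (Y : ℝ) ^ (1 / 2 + τ) := by
    intro q' hq'
    rw [Nat.mem_primeFactors] at hq'
    apply hsame x Y q' hY1 hYx (nz_of_dvd hm hq'.2.1)
    intro q hq
    rw [mem_filter] at hq
    obtain ⟨a1, a2, a3, _⟩ := hT q hq.1
    exact ⟨a2.one_lt.le, a1, a3, a2.squarefree, hq.2⟩
  have h5 := h3.trans (sum_le_sum h4)
  rw [sum_const, nsmul_eq_mul] at h5
  refine h5.trans ?_
  have h6 := pf_card (by omega : 1 ≤ m) hm'.1.2
  calc (m.primeFactors.card : ℝ) * (K * (Y : ℝ) ^ (1 / 2 + τ)) ≤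
      (2 * log x) * (K * (Y : ℝ) ^ (1 / 2 + τ)) := mul_le_mul_of_nonneg_right h6 (by positivity)
    _ = _ := by ring

lemma ex1 (τ : ℝ) (hτ : 0 < τ) (η : ℝ) (hη : 0 ≤ η) (hη1 : η ≤ 1 / 2) : ∃ x0 : ℕ,
    ∀ x : ℕ, x0 ≤ x →
    ∀ m Y : ℕ, m ∈ Dx x → 1 ≤ Y → Y ≤ x → ∀ T : Finset ℕ,
    (∀ q ∈ T, q ≤ Y ∧ q.Prime ∧ Odd q ∧ P1 η x m q) →
    (T.card : ℝ) ≤ 12 * log x * (x : ℝ) ^ η * (Y : ℝ) ^ (1 / 2 + τ) := by
  classical
  obtain ⟨x0, hx0⟩ := larger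
  refine ⟨max x0 3, ?_⟩
  intro x hx m Y hm hY1 hYx T hT
  have hx3 : 3 ≤ x := (le_max_right _ _).trans hx
  have hlogx : 1 ≤ log (x : ℝ) := one_le_log hx3
  have hxpos : (0 : ℝ) < x := by exact_mod_cast (by omega : 0 < x)
  have hx1' : (1 : ℝ) ≤ x := by exact_mod_cast (by omega : 1 ≤ x)
  have hY1' : (1 : ℝ) ≤ Y := by exact_mod_cast hY1
  have hYpos : (0 : ℝ) < Y := by linarith
  have hYx' : (Y : ℝ) ≤ x := by exact_mod_cast hYx
  obtain ⟨Z, hZ⟩ : ∃ Z : ℝ, Z = (Y : ℝ) ^ (1 / 2 : ℝ) * (x : ℝ) ^ η := ⟨_, rfl⟩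
  have hZ1 : 1 ≤ Z := by
    rw [hZ]
    exact one_le_mul_of_one_le_of_one_le (one_le_rpow hY1' (by norm_num)) (one_le_rpow hx1' hη)
  have hZx : Z ≤ x := by
    rw [hZ]
    calc (Y : ℝ) ^ (1 / 2 : ℝ) * (x : ℝ) ^ η ≤ (x : ℝ) ^ (1 / 2 : ℝ) * (x : ℝ) ^ (1 / 2 : ℝ) := by
          apply mul_le_mul _ _ (by positivity) (by positivity)
          · exact rpow_le_rpow hYpos.le hYx' (by norm_num)
          · exact rpow_le_rpow_of_exponent_le hx1' hη1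
      _ = x := by rw [← rpow_add hxpos]; norm_num
  have h1 := hx0 x ((le_max_left _ _).trans hx) Z hZ1 hZx T (by
    intro q hq
    obtain ⟨a1, a2, _, g, g1, g2, g3⟩ := hT q hq
    refine ⟨a2, g, g1, g2.trans ?_, g3⟩
    rw [hZ]
    apply mul_le_mul_of_nonneg_right _ (by positivity)
    exact rpow_le_rpow (Nat.cast_nonneg _) (by exact_mod_cast a1) (by norm_num))
  refine h1.trans ?_
  have e1 : (Y : ℝ) ^ (1 / 2 : ℝ) ≤ (Y : ℝ) ^ (1 / 2 + τ) :=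
    rpow_le_rpow_of_exponent_le hY1' (by linarith)
  calc 12 * Z * log x = 12 * log x * (x : ℝ) ^ η * (Y : ℝ) ^ (1 / 2 : ℝ) := by rw [hZ]; ring
    _ ≤ _ := mul_le_mul_of_nonneg_left e1 (by positivity)

/-- the rank of `R0` -/
theorem rank0 (ε : ℝ) (hε : 0 < ε) : ∃ K : ℝ, 0 < K ∧ ∃ x0 : ℕ, ∀ x : ℕ, x0 ≤ x → ∀ X : ℕ, 1 ≤ X →
    (((R0 x).filter (fun d : ℕ => d ≤ X)).card : ℝ) ≤ K * (x : ℝ) ^ (0 + ε) * (X : ℝ) ^ (1 / 2 + ε) := by
  obtain ⟨τ, hτ0, hτ1, hτ2⟩ : ∃ τ : ℝ, 0 < τ ∧ 2 * τ ≤ ε ∧ τ ≤ 1 / 8 :=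
    ⟨min (ε / 2) (1 / 8), lt_min (by positivity) (by norm_num),
      by linarith [min_le_left (ε / 2) (1 / 8 : ℝ)], min_le_right _ _⟩
  obtain ⟨K1, hK1, h1⟩ := rank_gen τ hτ0 hτ2
  obtain ⟨K2, hK2, h2⟩ := ex0 τ hτ0
  refine ⟨K1 * ((1 + K2) * (1 + 2 / ε)), by positivity, 3, ?_⟩
  intro x hx3 X hX
  have hlogx : 1 ≤ log (x : ℝ) := one_le_log hx3
  have hx1' : (1 : ℝ) ≤ x := by exact_mod_cast (by omega : 1 ≤ x)
  have hX1 : (1 : ℝ) ≤ X := by exact_mod_cast hX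
  have h3 := h1 x (by omega) (P0 x) ((1 + K2) * log x) (by nlinarith) (by
    intro m Y hm hY1 hYx T hT
    refine (h2 x hx3 m Y hm hY1 hYx T hT).trans ?_
    apply mul_le_mul_of_nonneg_right _ (by positivity)
    nlinarith) X hX
  refine h3.trans ?_
  have e3 := log_fac ε hε hx1'
  have e4 : log (x : ℝ) ≤ (1 + 2 / ε) * (x : ℝ) ^ ε := by linarith
  rw [zero_add]
  calc K1 * ((1 + K2) * log x) * (X : ℝ) ^ (1 / 2 + 2 * τ) ≤
      K1 * ((1 + K2) * ((1 + 2 / ε) * (x : ℝ) ^ ε)) * (X : ℝ) ^ (1 / 2 + ε) := by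
        apply mul_le_mul _ _ (by positivity) (by positivity)
        · apply mul_le_mul_of_nonneg_left _ hK1.le
          exact mul_le_mul_of_nonneg_left e4 (by positivity)
        · exact rpow_le_rpow_of_exponent_le hX1 (by linarith)
    _ = _ := by ring

/-- the rank of `R1` -/
theorem rank1 (η : ℝ) (hη : 0 ≤ η) (hη1 : η ≤ 1 / 2) (ε : ℝ) (hε : 0 < ε) : ∃ K : ℝ, 0 < K ∧
    ∃ x0 : ℕ, ∀ x : ℕ, x0 ≤ x → ∀ X : ℕ, 1 ≤ X →
    (((R1 η x).filter (fun d : ℕ => d ≤ X)).card : ℝ) ≤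
      K * (x : ℝ) ^ (η + ε) * (X : ℝ) ^ (1 / 2 + ε) := by
  obtain ⟨τ, hτ0, hτ1, hτ2⟩ : ∃ τ : ℝ, 0 < τ ∧ 2 * τ ≤ ε ∧ τ ≤ 1 / 8 :=
    ⟨min (ε / 2) (1 / 8), lt_min (by positivity) (by norm_num),
      by linarith [min_le_left (ε / 2) (1 / 8 : ℝ)], min_le_right _ _⟩
  obtain ⟨K1, hK1, h1⟩ := rank_gen τ hτ0 hτ2
  obtain ⟨x0, h2⟩ := ex1 τ hτ0 η hη hη1
  refine ⟨K1 * (12 * (1 + 2 / ε)), by positivity, max x0 3, ?_⟩
  intro x hx X hX
  have hx3 : 3 ≤ x := (le_max_right _ _).trans hx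
  have hlogx : 1 ≤ log (x : ℝ) := one_le_log hx3
  have hx1' : (1 : ℝ) ≤ x := by exact_mod_cast (by omega : 1 ≤ x)
  have hxpos : (0 : ℝ) < x := by linarith
  have hX1 : (1 : ℝ) ≤ X := by exact_mod_cast hX
  have hxη : 1 ≤ (x : ℝ) ^ η := one_le_rpow hx1' hη
  have h3 := h1 x (by omega) (P1 η x) (12 * log x * (x : ℝ) ^ η) (by nlinarith) (by
    intro m Y hm hY1 hYx T hT
    exact h2 x ((le_max_left _ _).trans hx) m Y hm hY1 hYx T hT) X hX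
  refine h3.trans ?_
  have e3 := log_fac ε hε hx1'
  have e4 : log (x : ℝ) ≤ (1 + 2 / ε) * (x : ℝ) ^ ε := by linarith
  calc K1 * (12 * log x * (x : ℝ) ^ η) * (X : ℝ) ^ (1 / 2 + 2 * τ) ≤
      K1 * (12 * ((1 + 2 / ε) * (x : ℝ) ^ ε) * (x : ℝ) ^ η) * (X : ℝ) ^ (1 / 2 + ε) := by
        apply mul_le_mul _ _ (by positivity) (by positivity)
        · apply mul_le_mul_of_nonneg_left _ hK1.le
          apply mul_le_mul_of_nonneg_right _ (by positivity)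
          exact mul_le_mul_of_nonneg_left e4 (by positivity)
        · exact rpow_le_rpow_of_exponent_le hX1 (by linarith)
    _ = K1 * (12 * (1 + 2 / ε)) * ((x : ℝ) ^ η * (x : ℝ) ^ ε) * (X : ℝ) ^ (1 / 2 + ε) := by ring
    _ = _ := by rw [← rpow_add hxpos]

end Pool.Agent.L0h54.EY
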