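import Pool.Agent.L0h54.EY.PS

set_option autoImplicit false

/-! Numbers whose prime factors (but those of a divisor of moderate size) belong to a small modulus. -/

namespace Pool.Agent.L0h54.EY

open Finset Real Pool.Agent.W57.SW Pool.Agent.L0h54.EX

/-- the numbers with a small modulus -/
def IsS2 (l a a' α : ℝ) (x n : ℕ) : Prop := ∃ L b f e : ℕ, n = b * (f * e) ∧ 1 ≤ L ∧
  (L : ℝ) ≤ (x : ℝ) ^ l ∧ b.Prime ∧ Odd b ∧ (b : ℝ) ≤ (x : ℝ) ^ α ∧ Nz x b ∧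
  (b : ℝ) ^ (1 / 2 - 1 / 10000 : ℝ) ≤ Nat.gcd (b - 1) L ∧ Squarefree f ∧
  (∀ p : ℕ, p.Prime → p ∣ f → Odd p ∧ (Same x p 1 ∨ Same x p b) ∧
    (p : ℝ) ^ (1 / 2 - 1 / 10000 : ℝ) ≤ Nat.gcd (p - 1) L) ∧
  Odd e ∧ (Same x e 1 ∨ Same x e b) ∧ (x : ℝ) ^ a ≤ e ∧ (e : ℝ) ≤ (x : ℝ) ^ a' ∧
  b * (f * e) ≡ 1 [MOD L]

/-- sums over squarefree numbers -/
lemma euler (σ C : ℝ) (P : Finset ℕ) (hP : ∑ p ∈ P, (p : ℝ) ^ (-σ) ≤ C) (S : Finset ℕ)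
    (hS : ∀ n ∈ S, Squarefree n ∧ n.primeFactors ⊆ P) :
    ∑ n ∈ S, (n : ℝ) ^ (-σ) ≤ exp C := by
  classical
  have h0 : ∀ n ∈ S, (n : ℝ) ^ (-σ) = ∏ p ∈ n.primeFactors, (p : ℝ) ^ (-σ) := by
    intro n hn
    rw [finsetProd_rpow _ _ (fun p _ => Nat.cast_nonneg p)]
    congr 1
    rw [← Nat.cast_prod, Nat.prod_primeFactors_of_squarefree (hS n hn).1]
  rw [sum_congr rfl h0]
  have h2 : ∑ n ∈ S, ∏ p ∈ n.primeFactors, (p : ℝ) ^ (-σ) =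
      ∑ T ∈ S.image Nat.primeFactors, ∏ p ∈ T, (p : ℝ) ^ (-σ) := by
    rw [sum_image]
    intro n hn m hm h
    rw [← Nat.prod_primeFactors_of_squarefree (hS n hn).1,
      ← Nat.prod_primeFactors_of_squarefree (hS m hm).1, h]
  rw [h2]
  have h3 : ∑ T ∈ S.image Nat.primeFactors, ∏ p ∈ T, (p : ℝ) ^ (-σ) ≤
      ∑ T ∈ P.powerset, ∏ p ∈ T, (p : ℝ) ^ (-σ) := by
    apply sum_le_sum_of_subset_of_nonneg
    · intro T hT
      rw [mem_image] at hT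
      obtain ⟨n, hn, rfl⟩ := hT
      exact mem_powerset.mpr (hS n hn).2
    · intro T _ _
      exact prod_nonneg fun p _ => by positivity
  refine h3.trans ?_
  rw [← prod_one_add]
  calc ∏ p ∈ P, (1 + (p : ℝ) ^ (-σ)) ≤ ∏ p ∈ P, exp ((p : ℝ) ^ (-σ)) := by
        apply prod_le_prod (fun p _ => by positivity)
        intro p _
        rw [add_comm]
        exact add_one_le_exp _
    _ = exp (∑ p ∈ P, (p : ℝ) ^ (-σ)) := (exp_sum _ _).symm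
    _ ≤ exp C := exp_le_exp.mpr hP

/-- the sum over the first prime -/
lemma b_sum (α ε : ℝ) (hε : 0 < ε) : ∃ C : ℝ, 0 < C ∧ ∀ x : ℕ, 1 ≤ x →
    ∀ L : ℕ, 1 ≤ L → L ≤ x → ∀ B : Finset ℕ,
    (∀ b ∈ B, b.Prime ∧ (b : ℝ) ≤ (x : ℝ) ^ α ∧
      (b : ℝ) ^ (1 / 2 - 1 / 10000 : ℝ) ≤ Nat.gcd (b - 1) L) →
    ∑ b ∈ B, (b : ℝ) ^ (-(42 / 100) : ℝ) ≤ C * (x : ℝ) ^ (ε + α * (801 / 10000 + ε)) := by
  classical
  obtain ⟨K, hK, hdiv⟩ := Helper112.divisor_bound ε hε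
  obtain ⟨C, hC, hws⟩ := ws (1 / 2 + 1 / 10000) (1 / 2 + 1 / 10000 + ε) (by norm_num) (by linarith)
  refine ⟨C * K, by positivity, ?_⟩
  intro x hx L hL1 hLx B hB
  have hxpos : (0 : ℝ) < x := by exact_mod_cast (by omega : 0 < x)
  have hx1' : (1 : ℝ) ≤ x := by exact_mod_cast hx
  have hd : (L.divisors.card : ℝ) ≤ K * (x : ℝ) ^ ε := by
    refine (hdiv L hL1).trans (mul_le_mul_of_nonneg_left ?_ hK.le)
    exact rpow_le_rpow (Nat.cast_nonneg _) (by exact_mod_cast hLx) hε.le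
  have h1 := hws ℕ B (fun b => (b : ℝ)) (K * (x : ℝ) ^ ε) (by positivity)
    (fun b hb => by exact_mod_cast (hB b hb).1.one_lt.le) (by
      intro y hy
      have hy0 : 0 < y := by linarith
      have hsub : B.filter (fun b : ℕ => (b : ℝ) ≤ y) ⊆ L.divisors.biUnion
          (fun h => (B.filter (fun b : ℕ => (b : ℝ) ≤ y)).filter (fun b => Nat.gcd (b - 1) L = h)) := by
        intro b hb
        rw [mem_biUnion]
        refine ⟨Nat.gcd (b - 1) L, ?_, mem_filter.mpr ⟨hb, rfl⟩⟩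
        rw [Nat.mem_divisors]
        exact ⟨Nat.gcd_dvd_right _ _, by omega⟩
      have h2 := (card_le_card hsub).trans card_biUnion_le
      have h3 : ((B.filter (fun b : ℕ => (b : ℝ) ≤ y)).card : ℝ) ≤ ∑ h ∈ L.divisors,
          (((B.filter (fun b : ℕ => (b : ℝ) ≤ y)).filter
            (fun b => Nat.gcd (b - 1) L = h)).card : ℝ) := by exact_mod_cast h2
      have h4 : ∀ h ∈ L.divisors, (((B.filter (fun b : ℕ => (b : ℝ) ≤ y)).filter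
            (fun b => Nat.gcd (b - 1) L = h)).card : ℝ) ≤ y ^ (1 / 2 + 1 / 10000 : ℝ) := by
        intro h hh
        have hh1 : 1 ≤ h := Nat.pos_of_mem_divisors hh
        have hh0 : (0 : ℝ) < h := by exact_mod_cast hh1
        obtain ⟨Y, hY⟩ : ∃ Y : ℝ, Y = min y ((h : ℝ) ^ (10000 / 4999 : ℝ)) := ⟨_, rfl⟩
        have hY0 : 0 ≤ Y := by rw [hY]; exact le_min hy0.le (by positivity)
        have h5 := card_mod_one (Y := ⌊Y⌋₊) hh1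
          ((B.filter (fun b : ℕ => (b : ℝ) ≤ y)).filter (fun b => Nat.gcd (b - 1) L = h)) (by
          intro b hb
          rw [mem_filter, mem_filter] at hb
          obtain ⟨⟨b1, b2⟩, b3⟩ := hb
          obtain ⟨a1, a2, a3⟩ := hB b b1
          rw [b3] at a3
          have hb0 : (0 : ℝ) < b := by exact_mod_cast a1.pos
          refine ⟨a1.two_le, ?_, ?_⟩
          · apply Nat.le_floor
            rw [hY]
            refine le_min b2 ?_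
            have := rpow_le_rpow (by positivity) a3 (by norm_num : (0 : ℝ) ≤ 10000 / 4999)
            rwa [← rpow_mul hb0.le, show ((1 : ℝ) / 2 - 1 / 10000) * (10000 / 4999) = 1 by norm_num,
              rpow_one] at this
          · rw [← b3]
            exact ((Nat.modEq_iff_dvd' a1.one_lt.le).mpr (Nat.gcd_dvd_left _ _)).symm)
        refine h5.trans ?_
        rw [div_le_iff₀ hh0]
        refine (Nat.floor_le hY0).trans ?_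
        -- `Y ≤ y ^ (1/2 + δ) * h`
        have e1 : Y = Y ^ (1 / 2 + 1 / 10000 : ℝ) * Y ^ (1 / 2 - 1 / 10000 : ℝ) := by
          rcases eq_or_lt_of_le hY0 with h0 | h0
          · rw [← h0, zero_rpow (by norm_num), zero_mul]
          · rw [← rpow_add h0]; norm_num
        rw [e1]
        apply mul_le_mul _ _ (by positivity) (by positivity)
        · apply rpow_le_rpow hY0 _ (by norm_num)
          rw [hY]; exact min_le_left _ _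
        · have e2 : Y ≤ (h : ℝ) ^ (10000 / 4999 : ℝ) := by rw [hY]; exact min_le_right _ _
          have := rpow_le_rpow hY0 e2 (by norm_num : (0 : ℝ) ≤ 1 / 2 - 1 / 10000)
          rwa [← rpow_mul hh0.le, show ((10000 : ℝ) / 4999) * (1 / 2 - 1 / 10000) = 1 by norm_num,
            rpow_one] at this
      have h5 := h3.trans (sum_le_sum h4)
      rw [sum_const, nsmul_eq_mul] at h5
      exact h5.trans (mul_le_mul_of_nonneg_right hd (by positivity)))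
  have h2 : ∀ b ∈ B, (b : ℝ) ^ (-(42 / 100) : ℝ) ≤
      (x : ℝ) ^ (α * (801 / 10000 + ε)) * (b : ℝ) ^ (-(1 / 2 + 1 / 10000 + ε)) := by
    intro b hb
    obtain ⟨a1, a2, _⟩ := hB b hb
    have hb0 : (0 : ℝ) < b := by exact_mod_cast a1.pos
    have e1 : (b : ℝ) ^ (-(42 / 100) : ℝ) = (b : ℝ) ^ (801 / 10000 + ε) *
        (b : ℝ) ^ (-(1 / 2 + 1 / 10000 + ε)) := by
      rw [← rpow_add hb0]; congr 1; ring
    rw [e1]
    apply mul_le_mul_of_nonneg_right _ (by positivity)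
    rw [rpow_mul hxpos.le]
    exact rpow_le_rpow hb0.le a2 (by linarith)
  refine (sum_le_sum h2).trans ?_
  rw [← mul_sum]
  calc (x : ℝ) ^ (α * (801 / 10000 + ε)) * ∑ b ∈ B, (b : ℝ) ^ (-(1 / 2 + 1 / 10000 + ε)) ≤
      (x : ℝ) ^ (α * (801 / 10000 + ε)) * (C * (K * (x : ℝ) ^ ε)) :=
        mul_le_mul_of_nonneg_left h1 (by positivity)
    _ = C * K * ((x : ℝ) ^ ε * (x : ℝ) ^ (α * (801 / 10000 + ε))) := by ring
    _ = _ := by rw [← rpow_add hxpos]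

open Classical in
/-- the number of the last factors for one value of the others -/
lemma e_count (ε : ℝ) (hε : 0 < ε) (hε1 : ε ≤ 1 / 8) : ∃ K : ℝ, 0 < K ∧ ∃ x0 : ℕ, ∀ x : ℕ,
    x0 ≤ x → ∀ L b c : ℕ, 1 ≤ L → L ≤ x → Nz x b → 1 ≤ c → c ≤ x →
    (((Icc 1 ⌊(x : ℝ) / c⌋₊).filter (fun e => Odd e ∧ (Same x e 1 ∨ Same x e b) ∧
      c * e ≡ 1 [MOD L])).card : ℝ) ≤
      K * (x : ℝ) ^ ε * (((x : ℝ) / (c * L)) ^ (2 / 3 : ℝ) + 1) := by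
  classical
  obtain ⟨K, hK, x0, hx0⟩ := lin23' ε hε hε1
  refine ⟨2 * K, by positivity, max x0 3, ?_⟩
  intro x hx L b c hL1 hLx hb hc1 hcx
  have hx3 : 3 ≤ x := (le_max_right _ _).trans hx
  have hxpos : (0 : ℝ) < x := by exact_mod_cast (by omega : 0 < x)
  have hc0 : (0 : ℝ) < c := by exact_mod_cast hc1
  have hL0 : (0 : ℝ) < L := by exact_mod_cast hL1
  obtain ⟨T, hT⟩ : ∃ T : Finset ℕ, T = (Icc 1 ⌊(x : ℝ) / c⌋₊).filter
    (fun e => Odd e ∧ (Same x e 1 ∨ Same x e b) ∧ c * e ≡ 1 [MOD L]) := ⟨_, rfl⟩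
  rw [← hT]
  have hTm : ∀ e ∈ T, e ≤ ⌊(x : ℝ) / c⌋₊ ∧ Odd e ∧ (Same x e 1 ∨ Same x e b) ∧
      c * e ≡ 1 [MOD L] := by
    intro e he
    rw [hT, mem_filter, mem_Icc] at he
    exact ⟨he.1.2, he.2⟩
  have hYx : ⌊(x : ℝ) / c⌋₊ ≤ x := by
    apply Nat.floor_le_of_le
    exact div_le_self hxpos.le (by exact_mod_cast hc1)
  have hLx2 : L ≤ x ^ 2 := hLx.trans (by nlinarith)
  obtain ⟨Q, hQ⟩ : ∃ Q : ℝ, Q = K * (x : ℝ) ^ ε * (((x : ℝ) / (c * L)) ^ (2 / 3 : ℝ) + 1) := ⟨_, rfl⟩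
  have hgen : ∀ c' : ℕ, Nz x c' → ∀ T' : Finset ℕ, T' ⊆ T → (∀ p ∈ T', Same x p c') →
      (T'.card : ℝ) ≤ Q := by
    intro c' hc' T' hT' hs
    rcases T'.eq_empty_or_nonempty with h0 | ⟨e0, he0⟩
    · rw [h0, hQ]
      simp only [card_empty, Nat.cast_zero]
      positivity
    · have h1 := hx0 x ((le_max_left _ _).trans hx) L ⌊(x : ℝ) / c⌋₊ c' e0 hL1 hLx2 hYx hc' T' (by
        intro e he
        obtain ⟨a1, a2, _, a4⟩ := hTm e (hT' he)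
        exact ⟨a1, a2, modeq_cancel a4 (hTm e0 (hT' he0)).2.2.2, hs e he⟩)
      refine h1.trans ?_
      rw [hQ]
      apply mul_le_mul_of_nonneg_left _ (by positivity)
      have e1 : ((⌊(x : ℝ) / c⌋₊ : ℕ) : ℝ) / L ≤ (x : ℝ) / (c * L) := by
        rw [← div_div]
        exact div_le_div_of_nonneg_right (Nat.floor_le (by positivity)) hL0.le
      calc (((⌊(x : ℝ) / c⌋₊ : ℕ) : ℝ) / L + 1) ^ (2 / 3 : ℝ) ≤
          ((x : ℝ) / (c * L) + 1) ^ (2 / 3 : ℝ) :=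
            rpow_le_rpow (by positivity) (by linarith) (by norm_num)
        _ ≤ ((x : ℝ) / (c * L)) ^ (2 / 3 : ℝ) + 1 ^ (2 / 3 : ℝ) :=
            rpow_add_le_add_rpow (by positivity) (by norm_num) (by norm_num) (by norm_num)
        _ = _ := by rw [one_rpow]
  have h1 := split_same (x := x) (b := b) T (fun p hp => (hTm p hp).2.2.1)
    (hgen 1 (nz_one x)) (hgen b hb)
  rw [hQ] at h1
  calc (T.card : ℝ) ≤ 2 * (K * (x : ℝ) ^ ε * (((x : ℝ) / (c * L)) ^ (2 / 3 : ℝ) + 1)) := h1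
    _ = _ := by ring

/-- the sum over the smooth part -/
lemma f_sum {x L b : ℕ} (hx : 1 ≤ x) (hL : 1 ≤ L) (hb : 1 ≤ b) (a a' E : ℝ) (F : Finset ℕ)
    (hF : ∀ f ∈ F, 1 ≤ f ∧ (b : ℝ) * f * (x : ℝ) ^ a ≤ x ∧ (x : ℝ) ≤ 2 * (b : ℝ) * f * (x : ℝ) ^ a')
    (hE : ∑ f ∈ F, (f : ℝ) ^ (-(42 / 100) : ℝ) ≤ E) :
    ∑ f ∈ F, (((x : ℝ) / ((b * f : ℕ) * L)) ^ (2 / 3 : ℝ) + 1) ≤
      2 * E * (b : ℝ) ^ (-(42 / 100) : ℝ) * ((x : ℝ) ^ ((1 - a) * (42 / 100)) +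
        (L : ℝ) ^ (-(2 / 3) : ℝ) * (x : ℝ) ^ (42 / 100 + a' * (2 / 3 - 42 / 100))) := by
  have hxpos : (0 : ℝ) < x := by exact_mod_cast (by omega : 0 < x)
  have hL0 : (0 : ℝ) < L := by exact_mod_cast hL
  have hb0 : (0 : ℝ) < b := by exact_mod_cast hb
  obtain ⟨U, hU⟩ : ∃ U : ℝ, U = 2 * (b : ℝ) ^ (-(42 / 100) : ℝ) *
      ((x : ℝ) ^ ((1 - a) * (42 / 100)) +
        (L : ℝ) ^ (-(2 / 3) : ℝ) * (x : ℝ) ^ (42 / 100 + a' * (2 / 3 - 42 / 100))) := ⟨_, rfl⟩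
  have hU0 : 0 ≤ U := by rw [hU]; positivity
  have h1 : ∀ f ∈ F, ((x : ℝ) / ((b * f : ℕ) * L)) ^ (2 / 3 : ℝ) + 1 ≤
      U * (f : ℝ) ^ (-(42 / 100) : ℝ) := by
    intro f hf
    obtain ⟨h1, h2, h3⟩ := hF f hf
    have hf0 : (0 : ℝ) < f := by exact_mod_cast h1
    -- the second summand
    have e1 : (1 : ℝ) ≤ (b : ℝ) ^ (-(42 / 100) : ℝ) * (x : ℝ) ^ ((1 - a) * (42 / 100)) *
        (f : ℝ) ^ (-(42 / 100) : ℝ) := by
      have h4 : (b : ℝ) * f ≤ (x : ℝ) ^ (1 - a) := by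
        rw [rpow_sub hxpos, rpow_one, le_div_iff₀ (by positivity)]
        exact h2
      have h5 : ((b : ℝ) * f) ^ (42 / 100 : ℝ) ≤ ((x : ℝ) ^ (1 - a)) ^ (42 / 100 : ℝ) :=
        rpow_le_rpow (by positivity) h4 (by norm_num)
      rw [← rpow_mul hxpos.le, mul_rpow hb0.le hf0.le] at h5
      rw [rpow_neg hb0.le, rpow_neg hf0.le]
      have hb2 : 0 < (b : ℝ) ^ (42 / 100 : ℝ) := by positivity
      have hf2 : 0 < (f : ℝ) ^ (42 / 100 : ℝ) := by positivity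
      rw [mul_comm ((b : ℝ) ^ (42 / 100 : ℝ))⁻¹, mul_assoc, ← mul_inv, ← div_eq_mul_inv,
        one_le_div (by positivity)]
      exact h5
    -- the first summand
    have e2 : ((x : ℝ) / ((b * f : ℕ) * L)) ^ (2 / 3 : ℝ) ≤ 2 * (b : ℝ) ^ (-(42 / 100) : ℝ) *
        ((L : ℝ) ^ (-(2 / 3) : ℝ) * (x : ℝ) ^ (42 / 100 + a' * (2 / 3 - 42 / 100))) *
        (f : ℝ) ^ (-(42 / 100) : ℝ) := by
      obtain ⟨z, hz⟩ : ∃ z : ℝ, z = (b : ℝ) * f := ⟨_, rfl⟩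
      have hz0 : 0 < z := by rw [hz]; positivity
      have h4 : (x : ℝ) / ((b * f : ℕ) * L) = ((x : ℝ) / z) * (L : ℝ)⁻¹ := by
        rw [hz]; push_cast; field_simp
      have h5 : (x : ℝ) / z ≤ 2 * (x : ℝ) ^ a' := by
        rw [div_le_iff₀ hz0, hz]; linarith
      have h6 : ((x : ℝ) / z) ^ (2 / 3 : ℝ) = ((x : ℝ) / z) ^ (42 / 100 : ℝ) *
          ((x : ℝ) / z) ^ (2 / 3 - 42 / 100 : ℝ) := by
        rw [← rpow_add (by positivity)]; norm_num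
      have h7 : ((x : ℝ) / z) ^ (2 / 3 - 42 / 100 : ℝ) ≤
          2 * (x : ℝ) ^ (a' * (2 / 3 - 42 / 100)) := by
        calc ((x : ℝ) / z) ^ (2 / 3 - 42 / 100 : ℝ) ≤ (2 * (x : ℝ) ^ a') ^ (2 / 3 - 42 / 100 : ℝ) :=
              rpow_le_rpow (by positivity) h5 (by norm_num)
          _ = 2 ^ (2 / 3 - 42 / 100 : ℝ) * (x : ℝ) ^ (a' * (2 / 3 - 42 / 100)) := by
              rw [mul_rpow (by norm_num) (by positivity), ← rpow_mul hxpos.le]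
          _ ≤ _ := by
              apply mul_le_mul_of_nonneg_right _ (by positivity)
              calc (2 : ℝ) ^ (2 / 3 - 42 / 100 : ℝ) ≤ (2 : ℝ) ^ (1 : ℝ) :=
                    rpow_le_rpow_of_exponent_le (by norm_num) (by norm_num)
                _ = 2 := rpow_one _
      have h8 : ((x : ℝ) / z) ^ (42 / 100 : ℝ) = (x : ℝ) ^ (42 / 100 : ℝ) *
          ((b : ℝ) ^ (-(42 / 100) : ℝ) * (f : ℝ) ^ (-(42 / 100) : ℝ)) := by
        rw [div_rpow hxpos.le hz0.le, hz, ← mul_rpow hb0.le hf0.le, rpow_neg (by positivity),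
          div_eq_mul_inv]
      have h9 : ((L : ℝ)⁻¹) ^ (2 / 3 : ℝ) = (L : ℝ) ^ (-(2 / 3) : ℝ) := by
        rw [inv_rpow hL0.le, rpow_neg hL0.le]
      rw [h4, mul_rpow (by positivity) (by positivity), h9, h6, h8]
      calc (x : ℝ) ^ (42 / 100 : ℝ) * ((b : ℝ) ^ (-(42 / 100) : ℝ) * (f : ℝ) ^ (-(42 / 100) : ℝ)) *
            ((x : ℝ) / z) ^ (2 / 3 - 42 / 100 : ℝ) * (L : ℝ) ^ (-(2 / 3) : ℝ) ≤
          (x : ℝ) ^ (42 / 100 : ℝ) * ((b : ℝ) ^ (-(42 / 100) : ℝ) * (f : ℝ) ^ (-(42 / 100) : ℝ)) *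
            (2 * (x : ℝ) ^ (a' * (2 / 3 - 42 / 100))) * (L : ℝ) ^ (-(2 / 3) : ℝ) := by
            apply mul_le_mul_of_nonneg_right _ (by positivity)
            exact mul_le_mul_of_nonneg_left h7 (by positivity)
        _ = 2 * (b : ℝ) ^ (-(42 / 100) : ℝ) * ((L : ℝ) ^ (-(2 / 3) : ℝ) *
            ((x : ℝ) ^ (42 / 100 : ℝ) * (x : ℝ) ^ (a' * (2 / 3 - 42 / 100)))) *
            (f : ℝ) ^ (-(42 / 100) : ℝ) := by ring
        _ = _ := by rw [← rpow_add hxpos]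
    have e3 : 0 ≤ (b : ℝ) ^ (-(42 / 100) : ℝ) * (x : ℝ) ^ ((1 - a) * (42 / 100)) *
        (f : ℝ) ^ (-(42 / 100) : ℝ) := by positivity
    calc ((x : ℝ) / ((b * f : ℕ) * L)) ^ (2 / 3 : ℝ) + 1 ≤
        2 * (b : ℝ) ^ (-(42 / 100) : ℝ) *
        ((L : ℝ) ^ (-(2 / 3) : ℝ) * (x : ℝ) ^ (42 / 100 + a' * (2 / 3 - 42 / 100))) *
        (f : ℝ) ^ (-(42 / 100) : ℝ) + 2 * ((b : ℝ) ^ (-(42 / 100) : ℝ) *
        (x : ℝ) ^ ((1 - a) * (42 / 100)) * (f : ℝ) ^ (-(42 / 100) : ℝ)) := by linarith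
      _ = _ := by rw [hU]; ring
  refine (sum_le_sum h1).trans ?_
  rw [← mul_sum]
  calc U * ∑ f ∈ F, (f : ℝ) ^ (-(42 / 100) : ℝ) ≤ U * E := mul_le_mul_of_nonneg_left hE hU0
    _ = _ := by rw [hU]; ring

theorem clsS2 (l a a' α β : ℝ) (hl0 : 0 ≤ l) (hl1 : l ≤ 1) (hα : 0 ≤ α) (hα1 : α ≤ 1)
    (h1 : l + (1 - a) * (42 / 100) + α * (801 / 10000) < β)
    (h2 : l / 3 + 42 / 100 + a' * (2 / 3 - 42 / 100) + α * (801 / 10000) < β) :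
    ∃ K : ℝ, 0 < K ∧ ∃ x0 : ℕ, ∀ x : ℕ, x0 ≤ x → ∀ S : Finset ℕ,
    (∀ n ∈ S, (x : ℝ) / 2 < n ∧ n ≤ x ∧ IsS2 l a a' α x n) →
    (S.card : ℝ) ≤ K * (x : ℝ) ^ β := by
  classical
  obtain ⟨ε, hε, hε1, hε2, hε3⟩ : ∃ ε : ℝ, 0 < ε ∧ ε ≤ 1 / 8 ∧
      l + (1 - a) * (42 / 100) + α * (801 / 10000) + 4 * ε ≤ β ∧
      l / 3 + 42 / 100 + a' * (2 / 3 - 42 / 100) + α * (801 / 10000) + 4 * ε ≤ β :=
    ⟨min (1 / 8) (min ((β - (l + (1 - a) * (42 / 100) + α * (801 / 10000))) / 4)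
      ((β - (l / 3 + 42 / 100 + a' * (2 / 3 - 42 / 100) + α * (801 / 10000))) / 4)),
      lt_min (by norm_num) (lt_min (by linarith) (by linarith)), min_le_left _ _, by
        have := (min_le_right (1 / 8 : ℝ) _).trans
          (min_le_left ((β - (l + (1 - a) * (42 / 100) + α * (801 / 10000))) / 4)
            ((β - (l / 3 + 42 / 100 + a' * (2 / 3 - 42 / 100) + α * (801 / 10000))) / 4))
        linarith, by
        have := (min_le_right (1 / 8 : ℝ) _).trans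
          (min_le_right ((β - (l + (1 - a) * (42 / 100) + α * (801 / 10000))) / 4)
            ((β - (l / 3 + 42 / 100 + a' * (2 / 3 - 42 / 100) + α * (801 / 10000))) / 4))
        linarith⟩
  obtain ⟨C1, hC1, x1, hx1⟩ := P_sum'
  obtain ⟨K2, hK2, hbs⟩ := b_sum α ε hε
  obtain ⟨K3, hK3, x3, hx3⟩ := e_count ε hε hε1
  obtain ⟨C4, hC4, hnp⟩ := npow (2 / 3) ε (by norm_num) (by norm_num) hε
  refine ⟨K3 * (2 * exp C1) * K2 * (1 + (C4 + 1)), by positivity, max (max x1 x3) 3, ?_⟩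
  intro x hx S hS
  have hxx1 : x1 ≤ x := (le_max_left _ _).trans ((le_max_left _ _).trans hx)
  have hxx3 : x3 ≤ x := (le_max_right _ _).trans ((le_max_left _ _).trans hx)
  have hx3' : 3 ≤ x := (le_max_right _ _).trans hx
  have hxpos : (0 : ℝ) < x := by exact_mod_cast (by omega : 0 < x)
  have hx1' : (1 : ℝ) ≤ x := by exact_mod_cast (by omega : 1 ≤ x)
  obtain ⟨A, hA⟩ : ∃ A : Finset ℕ, A = Icc 1 ⌊(x : ℝ) ^ l⌋₊ := ⟨_, rfl⟩
  obtain ⟨Bs, hBs⟩ : ∃ Bs : ℕ → Finset ℕ, Bs = fun L => (Icc 1 x).filter (fun b : ℕ => b.Prime ∧ Odd b ∧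
      (b : ℝ) ≤ (x : ℝ) ^ α ∧ Nz x b ∧
      (b : ℝ) ^ (1 / 2 - 1 / 10000 : ℝ) ≤ Nat.gcd (b - 1) L) := ⟨_, rfl⟩
  obtain ⟨Fs, hFs⟩ : ∃ Fs : ℕ → ℕ → Finset ℕ, Fs = fun L b => (Icc 1 x).filter (fun f : ℕ =>
      Squarefree f ∧ (∀ p : ℕ, p.Prime → p ∣ f → Odd p ∧ (Same x p 1 ∨ Same x p b) ∧
        (p : ℝ) ^ (1 / 2 - 1 / 10000 : ℝ) ≤ Nat.gcd (p - 1) L) ∧
      (b : ℝ) * f * (x : ℝ) ^ a ≤ x ∧ (x : ℝ) ≤ 2 * (b : ℝ) * f * (x : ℝ) ^ a' ∧ b * f ≤ x) :=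
    ⟨_, rfl⟩
  obtain ⟨D, hD⟩ : ∃ D : Finset (ℕ × ℕ), D = (A ×ˢ Icc 1 x).filter (fun a => a.2 ∈ Bs a.1) := ⟨_, rfl⟩
  have hcov := cover_count S D (fun a => Fs a.1 a.2)
    (fun a f => (Icc 1 ⌊(x : ℝ) / (a.2 * f : ℕ)⌋₊).filter (fun e => Odd e ∧
      (Same x e 1 ∨ Same x e a.2) ∧ (a.2 * f) * e ≡ 1 [MOD a.1]))
    (fun a f e => a.2 * (f * e)) (by
      intro n hn
      obtain ⟨c1, c2, L, b, f, e, d1, d2, d3, d4, d5, d6, d7, d8, d9, d10, d11, d12, d13, d14, d15⟩ :=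
        hS n hn
      have hb0 : (0 : ℝ) < b := by exact_mod_cast d4.pos
      have hf1 : 1 ≤ f := Nat.pos_of_ne_zero d9.ne_zero
      have hf0 : (0 : ℝ) < f := by exact_mod_cast hf1
      have he1 : 1 ≤ e := by
        rcases Nat.eq_zero_or_pos e with h | h
        · rw [h] at d11; exact absurd d11 (by decide)
        · exact h
      have he0 : (0 : ℝ) < e := by exact_mod_cast he1
      have hprod : b * f * e ≤ x := by
        have : b * (f * e) ≤ x := by rw [← d1]; exact c2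
        rw [mul_assoc]; exact this
      have hbf : b * f ≤ x := le_trans (Nat.le_mul_of_pos_right _ he1) hprod
      have hbx : b ≤ x := le_trans (Nat.le_mul_of_pos_right _ hf1) hbf
      have hfx : f ≤ x := le_trans (Nat.le_mul_of_pos_left _ d4.pos) hbf
      have hprod' : (b : ℝ) * f * e ≤ x := by exact_mod_cast hprod
      refine ⟨(L, b), ?_, f, ?_, e, ?_, d1.symm⟩
      · rw [hD, mem_filter, mem_product, hA, mem_Icc, mem_Icc, hBs, mem_filter, mem_Icc]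
        exact ⟨⟨⟨d2, Nat.le_floor d3⟩, ⟨d4.one_lt.le, hbx⟩⟩, ⟨d4.one_lt.le, hbx⟩, d4, d5, d6, d7, d8⟩
      · rw [hFs, mem_filter, mem_Icc]
        refine ⟨⟨hf1, hfx⟩, d9, d10, ?_, ?_, hbf⟩
        · refine le_trans ?_ hprod'
          exact mul_le_mul_of_nonneg_left d13 (by positivity)
        · rw [d1] at c1
          push_cast at c1
          have : (b : ℝ) * f * e ≤ (b : ℝ) * f * (x : ℝ) ^ a' :=
            mul_le_mul_of_nonneg_left d14 (by positivity)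
          show (x : ℝ) ≤ 2 * (b : ℝ) * f * (x : ℝ) ^ a'
          linarith
      · rw [mem_filter, mem_Icc]
        refine ⟨⟨he1, Nat.le_floor ?_⟩, d11, d12, ?_⟩
        · rw [le_div_iff₀ (by push_cast; positivity)]
          push_cast
          linarith
        · show (b * f) * e ≡ 1 [MOD L]
          rw [mul_assoc]; exact d15)
  -- the sums over `f` and `e`
  obtain ⟨Q1, hQ1⟩ : ∃ Q : ℝ, Q = (x : ℝ) ^ ((1 - a) * (42 / 100)) := ⟨_, rfl⟩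
  obtain ⟨Q2, hQ2⟩ : ∃ Q : ℝ, Q = (x : ℝ) ^ (42 / 100 + a' * (2 / 3 - 42 / 100)) := ⟨_, rfl⟩
  have hQ10 : 0 < Q1 := by rw [hQ1]; positivity
  have hQ20 : 0 < Q2 := by rw [hQ2]; positivity
  have hA1 : ∀ L ∈ A, 1 ≤ L ∧ L ≤ x := by
    intro L hL
    rw [hA, mem_Icc] at hL
    refine ⟨hL.1, hL.2.trans (Nat.floor_le_of_le ?_)⟩
    calc (x : ℝ) ^ l ≤ (x : ℝ) ^ (1 : ℝ) := rpow_le_rpow_of_exponent_le hx1' hl1
      _ = x := rpow_one _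
  have hin : ∀ p ∈ D, ∑ f ∈ Fs p.1 p.2, (((Icc 1 ⌊(x : ℝ) / (p.2 * f : ℕ)⌋₊).filter (fun e => Odd e ∧
      (Same x e 1 ∨ Same x e p.2) ∧ (p.2 * f) * e ≡ 1 [MOD p.1])).card : ℝ) ≤
      K3 * (x : ℝ) ^ ε * (2 * exp C1) *
        ((p.2 : ℝ) ^ (-(42 / 100) : ℝ) * (Q1 + (p.1 : ℝ) ^ (-(2 / 3) : ℝ) * Q2)) := by
    intro p hp
    rw [hD, mem_filter, mem_product] at hp
    obtain ⟨⟨hpA, _⟩, hpB⟩ := hp
    obtain ⟨hL1, hLx⟩ := hA1 p.1 hpA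
    rw [hBs, mem_filter, mem_Icc] at hpB
    obtain ⟨⟨hb1, hbx⟩, hbp, hbo, hbα, hbz, hbg⟩ := hpB
    have hFm : ∀ f ∈ Fs p.1 p.2, (1 ≤ f ∧ f ≤ x) ∧ Squarefree f ∧
        (∀ r : ℕ, r.Prime → r ∣ f → Odd r ∧ (Same x r 1 ∨ Same x r p.2) ∧
        (r : ℝ) ^ (1 / 2 - 1 / 10000 : ℝ) ≤ Nat.gcd (r - 1) p.1) ∧
        (p.2 : ℝ) * f * (x : ℝ) ^ a ≤ x ∧ (x : ℝ) ≤ 2 * (p.2 : ℝ) * f * (x : ℝ) ^ a' ∧
        p.2 * f ≤ x := by
      intro f hf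
      rw [hFs, mem_filter, mem_Icc] at hf
      exact hf
    have g1 : ∀ f ∈ Fs p.1 p.2, (((Icc 1 ⌊(x : ℝ) / (p.2 * f : ℕ)⌋₊).filter (fun e => Odd e ∧
        (Same x e 1 ∨ Same x e p.2) ∧ (p.2 * f) * e ≡ 1 [MOD p.1])).card : ℝ) ≤
        K3 * (x : ℝ) ^ ε * (((x : ℝ) / ((p.2 * f : ℕ) * p.1)) ^ (2 / 3 : ℝ) + 1) := by
      intro f hf
      obtain ⟨⟨f1, f2⟩, _, _, _, _, f6⟩ := hFm f hf
      exact hx3 x hxx3 p.1 p.2 (p.2 * f) hL1 hLx hbz (Nat.mul_pos hb1 f1) f6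
    refine (sum_le_sum g1).trans ?_
    rw [← mul_sum]
    have g2 := hx1 x hxx1 p.2 p.1 hbz hL1 hLx ((Icc 1 x).filter (fun r => r.Prime ∧ Odd r ∧
      (Same x r 1 ∨ Same x r p.2) ∧ (r : ℝ) ^ (1 / 2 - 1 / 10000 : ℝ) ≤ Nat.gcd (r - 1) p.1)) (by
        intro r hr
        rw [mem_filter, mem_Icc] at hr
        exact ⟨hr.2.1, hr.2.2.1, hr.1.2, hr.2.2.2.1, hr.2.2.2.2⟩)
    have g3 := euler (42 / 100) C1 _ g2 (Fs p.1 p.2) (by
      intro f hf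
      obtain ⟨⟨f1, f2⟩, f3, f4, _, _, _⟩ := hFm f hf
      refine ⟨f3, ?_⟩
      intro r hr
      rw [Nat.mem_primeFactors] at hr
      obtain ⟨q1, q2, q3⟩ := f4 r hr.1 hr.2.1
      rw [mem_filter, mem_Icc]
      exact ⟨⟨hr.1.one_lt.le, (Nat.le_of_dvd (by omega) hr.2.1).trans f2⟩, hr.1, q1, q2, q3⟩)
    have g4 := f_sum (x := x) (L := p.1) (b := p.2) (by omega) hL1 hb1 a a' (exp C1) (Fs p.1 p.2) (by
      intro f hf
      obtain ⟨⟨f1, f2⟩, _, _, f4, f5, _⟩ := hFm f hf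
      exact ⟨f1, f4, f5⟩) g3
    rw [← hQ1, ← hQ2] at g4
    calc K3 * (x : ℝ) ^ ε * ∑ f ∈ Fs p.1 p.2, (((x : ℝ) / ((p.2 * f : ℕ) * p.1)) ^ (2 / 3 : ℝ) + 1) ≤
        K3 * (x : ℝ) ^ ε * (2 * exp C1 * (p.2 : ℝ) ^ (-(42 / 100) : ℝ) *
          (Q1 + (p.1 : ℝ) ^ (-(2 / 3) : ℝ) * Q2)) := mul_le_mul_of_nonneg_left g4 (by positivity)
      _ = _ := by ring
  have hout := hcov.trans (sum_le_sum hin)
  rw [← mul_sum] at hout
  -- the sum over `b`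
  obtain ⟨V, hV⟩ : ∃ V : ℝ, V = K2 * (x : ℝ) ^ (ε + α * (801 / 10000 + ε)) := ⟨_, rfl⟩
  have hV0 : 0 < V := by rw [hV]; positivity
  have hsum1 : ∑ p ∈ D, (p.2 : ℝ) ^ (-(42 / 100) : ℝ) * (Q1 + (p.1 : ℝ) ^ (-(2 / 3) : ℝ) * Q2) ≤
      V * ((x : ℝ) ^ l * Q1 + (C4 + 1) * (x : ℝ) ^ (l / 3 + ε) * Q2) := by
    rw [hD, sum_filter, sum_product]
    have e1 : ∀ L ∈ A, ∑ b ∈ Icc 1 x, (if (L, b).2 ∈ Bs (L, b).1 then
        (((L, b).2 : ℕ) : ℝ) ^ (-(42 / 100) : ℝ) *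
          (Q1 + (((L, b).1 : ℕ) : ℝ) ^ (-(2 / 3) : ℝ) * Q2) else 0) ≤
        V * (Q1 + (L : ℝ) ^ (-(2 / 3) : ℝ) * Q2) := by
      intro L hL
      obtain ⟨hL1, hLx⟩ := hA1 L hL
      rw [← sum_filter]
      simp only
      rw [← sum_mul]
      apply mul_le_mul_of_nonneg_right _ (by positivity)
      rw [hV]
      apply hbs x (by omega) L hL1 hLx
      intro b hb
      rw [mem_filter, hBs, mem_filter] at hb
      exact ⟨hb.2.2.1, hb.2.2.2.2.1, hb.2.2.2.2.2.2⟩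
    refine (sum_le_sum e1).trans ?_
    rw [← mul_sum, sum_add_distrib, ← sum_mul, sum_const, nsmul_eq_mul]
    apply mul_le_mul_of_nonneg_left _ hV0.le
    have hxl : 1 ≤ (x : ℝ) ^ l := one_le_rpow hx1' hl0
    have hAc : (A.card : ℝ) ≤ (x : ℝ) ^ l := by
      rw [hA, Nat.card_Icc, Nat.add_sub_cancel]
      exact Nat.floor_le (by positivity)
    have e2 := hnp ((x : ℝ) ^ l) hxl A (fun L hL => (hA1 L hL).1)
    have e3 : C4 * ((x : ℝ) ^ l) ^ (1 - 2 / 3 + ε) + A.card * ((x : ℝ) ^ l) ^ (-(2 / 3) : ℝ) ≤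
        (C4 + 1) * (x : ℝ) ^ (l / 3 + ε) := by
      have b1 : ((x : ℝ) ^ l) ^ (1 - 2 / 3 + ε) ≤ (x : ℝ) ^ (l / 3 + ε) := by
        rw [← rpow_mul hxpos.le]
        apply rpow_le_rpow_of_exponent_le hx1'
        nlinarith
      have b2 : (A.card : ℝ) * ((x : ℝ) ^ l) ^ (-(2 / 3) : ℝ) ≤ (x : ℝ) ^ (l / 3 + ε) := by
        calc (A.card : ℝ) * ((x : ℝ) ^ l) ^ (-(2 / 3) : ℝ) ≤
            (x : ℝ) ^ l * ((x : ℝ) ^ l) ^ (-(2 / 3) : ℝ) :=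
              mul_le_mul_of_nonneg_right hAc (by positivity)
          _ = (x : ℝ) ^ (l + l * (-(2 / 3))) := by
              rw [← rpow_mul hxpos.le, ← rpow_add hxpos]
          _ ≤ _ := by
              apply rpow_le_rpow_of_exponent_le hx1'
              linarith
      have b3 := mul_le_mul_of_nonneg_left b1 hC4.le
      linarith
    have e4 := mul_le_mul_of_nonneg_right (e2.trans e3) hQ20.le
    have e5 := mul_le_mul_of_nonneg_right hAc hQ10.le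
    linarith
  refine hout.trans ((mul_le_mul_of_nonneg_left hsum1 (by positivity)).trans ?_)
  have hfin1 : (x : ℝ) ^ ε * (x : ℝ) ^ (ε + α * (801 / 10000 + ε)) * ((x : ℝ) ^ l * Q1) ≤
      (x : ℝ) ^ β := by
    rw [hQ1, ← rpow_add hxpos, ← rpow_add hxpos, ← rpow_add hxpos]
    apply rpow_le_rpow_of_exponent_le hx1'
    nlinarith
  have hfin2 : (x : ℝ) ^ ε * (x : ℝ) ^ (ε + α * (801 / 10000 + ε)) *
      ((x : ℝ) ^ (l / 3 + ε) * Q2) ≤ (x : ℝ) ^ β := by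
    rw [hQ2, ← rpow_add hxpos, ← rpow_add hxpos, ← rpow_add hxpos]
    apply rpow_le_rpow_of_exponent_le hx1'
    nlinarith
  rw [hV]
  calc K3 * (x : ℝ) ^ ε * (2 * exp C1) * (K2 * (x : ℝ) ^ (ε + α * (801 / 10000 + ε)) *
        ((x : ℝ) ^ l * Q1 + (C4 + 1) * (x : ℝ) ^ (l / 3 + ε) * Q2)) =
      K3 * (2 * exp C1) * K2 * (((x : ℝ) ^ ε * (x : ℝ) ^ (ε + α * (801 / 10000 + ε)) *
        ((x : ℝ) ^ l * Q1)) + (C4 + 1) * ((x : ℝ) ^ ε * (x : ℝ) ^ (ε + α * (801 / 10000 + ε)) *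
        ((x : ℝ) ^ (l / 3 + ε) * Q2))) := by ring
    _ ≤ K3 * (2 * exp C1) * K2 * ((x : ℝ) ^ β + (C4 + 1) * (x : ℝ) ^ β) := by
        apply mul_le_mul_of_nonneg_left _ (by positivity)
        exact add_le_add hfin1 (mul_le_mul_of_nonneg_left hfin2 (by positivity))
    _ = _ := by ring

end Pool.Agent.L0h54.EY
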