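import Pool.Agent.L0h54.EX.Struct
import Pool.Agent.L0h54.EY.B
import Pool.Agent.L0h54.EY.D1
import Pool.Agent.L0h54.EY.D2
import Pool.Agent.L0h54.EY.S2

set_option autoImplicit false

/-! The structure of the numbers without a small witness. -/

namespace Pool.Agent.L0h54.EY

open Finset Real Pool.Agent.H379R2.W Pool.Agent.W57.SW Pool.Agent.L0h54.EX

/-- the properties with the better bound for the groups -/
structure Dt (x n : ℕ) (E : Finset ℕ) : Prop extends Dat x n E where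
  gp2 : ∀ q : ℕ, q.Prime → q ∣ n → (q : ℝ) ^ (1 / 2 - 1 / 10000 : ℝ) ≤ Nat.gcd (q - 1) (n - 1)

theorem dt_of_bad : ∃ x0 : ℕ, ∀ x : ℕ, x0 ≤ x → ∀ n : ℕ, (x : ℝ) / 2 < n → n ≤ x → Bd 2 n →
    ∃ E : Finset ℕ, Dt x n E := by
  obtain ⟨x1, hx1⟩ := dat_of_bad
  obtain ⟨N2, hN23, hN2⟩ := bd_gcd 2 (1 / 10000) le_rfl (by norm_num)
  refine ⟨max x1 (2 * N2), ?_⟩
  intro x hx n hnx hnx' hb
  obtain ⟨E, hE⟩ := hx1 x ((le_max_left _ _).trans hx) n hnx hnx' hb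
  refine ⟨E, hE, ?_⟩
  have hNn : N2 ≤ n := by
    have h1 : ((2 * N2 : ℕ) : ℝ) ≤ x := by exact_mod_cast (le_max_right _ _).trans hx
    push_cast at h1
    have h2 : (N2 : ℝ) < n := by linarith
    have h3 : N2 < n := by exact_mod_cast h2
    exact h3.le
  have hn3 : 3 ≤ n := hN23.trans hNn
  intro q hq hqn
  obtain ⟨m, hm⟩ := hqn
  have h1 := (hN2 n hNn hb q m hq hm).1
  have hgcd : Nat.gcd (q - 1) (n - 1) = Nat.gcd (q - 1) (m - 1) := by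
    have hm0 : m ≠ 0 := by intro h; rw [h, mul_zero] at hm; omega
    have e1 : n - 1 = (m - 1) + (q - 1) * m := by
      rw [hm]
      obtain ⟨q', rfl⟩ : ∃ q', q = q' + 1 := ⟨q - 1, by have := hq.two_le; omega⟩
      obtain ⟨m', rfl⟩ : ∃ m', m = m' + 1 := ⟨m - 1, by omega⟩
      simp only [Nat.add_sub_cancel]
      rw [show (q' + 1) * (m' + 1) = m' + q' * (m' + 1) + 1 by ring]
      omega
    rw [e1, Nat.gcd_add_mul_left_right]
  rw [hgcd]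
  rwa [show (1 : ℝ) - 1 / 2 - 1 / 10000 = 1 / 2 - 1 / 10000 by norm_num] at h1

/-- the modulus of a divisor -/
def Lc (n d : ℕ) : ℕ := d.primeFactors.lcm (fun q => Nat.gcd (q - 1) (n - 1))

lemma Lc_dvd_tot (n d : ℕ) : Lc n d ∣ Nat.totient d := by
  rw [Lc]
  apply Finset.lcm_dvd
  intro q hq
  rw [Nat.mem_primeFactors] at hq
  have h1 := Nat.totient_dvd_of_dvd hq.2.1
  rw [Nat.totient_prime hq.1] at h1
  exact (Nat.gcd_dvd_left _ _).trans h1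

lemma Lc_dvd_pred (n d : ℕ) : Lc n d ∣ n - 1 := by
  rw [Lc]
  exact Finset.lcm_dvd fun q _ => Nat.gcd_dvd_right _ _

lemma dvd_Lc {n d q : ℕ} (hq : q.Prime) (hqd : q ∣ d) (hd : d ≠ 0) :
    Nat.gcd (q - 1) (n - 1) ∣ Lc n d := by
  rw [Lc]
  exact Finset.dvd_lcm (f := fun q => Nat.gcd (q - 1) (n - 1))
    (Nat.mem_primeFactors.mpr ⟨hq, hqd, hd⟩)

lemma Lc_pos {n d : ℕ} (hd : d ≠ 0) : 1 ≤ Lc n d :=
  Nat.pos_of_dvd_of_pos (Lc_dvd_tot n d) (Nat.totient_pos.mpr (Nat.pos_of_ne_zero hd))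

lemma Lc_mul {n d r : ℕ} (hr : r.Prime) : Lc n (d * r) ∣ Nat.lcm (Lc n d) (Nat.gcd (r - 1) (n - 1)) := by
  rw [Lc]
  apply Finset.lcm_dvd
  intro q hq
  rw [Nat.mem_primeFactors] at hq
  have hd0 : d ≠ 0 := by rintro rfl; simp at hq
  rcases hq.1.dvd_mul.mp hq.2.1 with h | h
  · exact (dvd_Lc hq.1 h hd0).trans (Nat.dvd_lcm_left _ _)
  · rw [(Nat.prime_dvd_prime_iff_eq hq.1 hr).mp h]
    exact Nat.dvd_lcm_right _ _

section

variable {x n : ℕ} {E : Finset ℕ}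

open Classical in
/-- the symbols of a divisor -/
lemma sym_dvd (h : Dat x n E) {e b : ℕ} (he : e ∣ n) (hb : b ∈ E) :
    Same x e 1 ∨ Same x e b := by
  obtain ⟨h1, h2, h3, h4⟩ := h.dvd_facts he
  have key : ∀ ℓ ∈ W x, jacobiSym (ℓ : ℤ) e =
      (jacobiSym (ℓ : ℤ) b) ^ ((E.filter (fun q => q ∣ e)).card) := by
    intro ℓ hℓ
    have e1 : ∏ q ∈ e.primeFactors, q = e := Nat.prod_primeFactors_of_squarefree h4
    conv_lhs => rw [← e1]
    rw [jacobi_prod _ _ (fun q hq => (Nat.prime_of_mem_primeFactors hq).ne_zero)]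
    have e2 : ∀ q ∈ e.primeFactors, jacobiSym (ℓ : ℤ) q =
        if q ∈ E then jacobiSym (ℓ : ℤ) b else 1 := by
      intro q hq
      rw [Nat.mem_primeFactors] at hq
      split_ifs with hE
      · exact h.E_same q hE b hb ℓ hℓ
      · have := h.out q hq.1 (hq.2.1.trans he) hE ℓ hℓ
        rwa [jacobiSym.one_right] at this
    rw [prod_congr rfl e2, ← prod_filter, prod_const]
    have e3 : e.primeFactors.filter (fun q => q ∈ E) = E.filter (fun q => q ∣ e) := by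
      ext q
      rw [mem_filter, mem_filter, Nat.mem_primeFactors]
      constructor
      · rintro ⟨⟨a, b, c⟩, e⟩; exact ⟨e, b⟩
      · rintro ⟨a, b⟩; exact ⟨⟨(h.E_sub q a).1, b, by omega⟩, a⟩
    rw [e3]
  have hbE := h.E_sub b hb
  rcases Nat.even_or_odd ((E.filter (fun q => q ∣ e)).card) with hev | hod
  · left
    intro ℓ hℓ
    rw [key ℓ hℓ, jacobiSym.one_right]
    have h5 := h.nz b hbE.1 hbE.2 ℓ hℓ
    rcases jacobiSym.trichotomy (ℓ : ℤ) b with h6 | h6 | h6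
    · exact absurd h6 h5
    · rw [h6, one_pow]
    · rw [h6, hev.neg_one_pow]
  · right
    intro ℓ hℓ
    rw [key ℓ hℓ]
    have h5 := h.nz b hbE.1 hbE.2 ℓ hℓ
    rcases jacobiSym.trichotomy (ℓ : ℤ) b with h6 | h6 | h6
    · exact absurd h6 h5
    · rw [h6, one_pow]
    · rw [h6, hod.neg_one_pow]

lemma filter_div (h : Dat x n E) {q d' : ℕ} (hq : q.Prime) (hdn : q * d' ∣ n) :
    E.filter (fun r => r ∣ d') = (E.filter (fun r => r ∣ q * d')).erase q := by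
  ext r
  rw [mem_erase, mem_filter, mem_filter]
  constructor
  · rintro ⟨a, b⟩
    refine ⟨?_, a, b.mul_left q⟩
    rintro rfl
    have h2 : r * r ∣ n := (Nat.mul_dvd_mul dvd_rfl b).trans hdn
    exact hq.one_lt.ne' (Nat.isUnit_iff.mp (h.sq r h2))
  · rintro ⟨a, b, c⟩
    refine ⟨b, ?_⟩
    have hr := h.E_sub r b
    rcases hr.1.dvd_mul.mp c with h2 | h2
    · exact absurd ((Nat.prime_dvd_prime_iff_eq hr.1 hq).mp h2) a
    · exact h2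

lemma R0_mem (h : Dat x n E) {d : ℕ} (hd : d ∣ n)
    (hk : Even ((E.filter (fun r => r ∣ d)).card) ∨ 3 ≤ (E.filter (fun r => r ∣ d)).card) :
    d ∈ R0 x := by
  rcases Nat.even_or_odd ((E.filter (fun r => r ∣ d)).card) with hev | hod
  · exact mem_Rg_of_Dx (h.even_mem hd hev)
  · have hk3 : 3 ≤ (E.filter (fun r => r ∣ d)).card := by
      rcases hk with h1 | h1
      · exact absurd h1 (Nat.not_even_iff_odd.mpr hod)
      · exact h1
    have hne : (E.filter (fun r => r ∣ d)).Nonempty := by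
      rw [← Finset.card_pos]; omega
    obtain ⟨q, hq⟩ := hne
    have hq0 := hq
    rw [mem_filter] at hq
    obtain ⟨hqE, d', hd'⟩ := hq
    obtain ⟨hqp, hqn⟩ := h.E_sub q hqE
    have hd'n : d' ∣ n := (Dvd.intro_left q hd'.symm).trans hd
    have hfil := filter_div h hqp (by rw [← hd']; exact hd)
    rw [← hd'] at hfil
    have hcard : (E.filter (fun r => r ∣ d')).card = (E.filter (fun r => r ∣ d)).card - 1 := by
      rw [hfil, card_erase_of_mem hq0]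
    have hev : Even ((E.filter (fun r => r ∣ d')).card) := by
      rw [hcard]
      obtain ⟨c, hc⟩ := hod
      rw [hc]
      exact ⟨c, by omega⟩
    have hne2 : (E.filter (fun r => r ∣ d')).Nonempty := by
      rw [← Finset.card_pos, hcard]; omega
    obtain ⟨q', hq'⟩ := hne2
    rw [mem_filter] at hq'
    have hq'p := h.E_sub q' hq'.1
    have hd1 := h.dvd_facts hd
    unfold R0
    rw [mem_Rg]
    exact ⟨⟨hd1.1, hd1.2.1⟩, Or.inr ⟨q, d', hqp, (h.dvd_facts hqn).2.2.1, hd',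
      h.even_mem hd'n hev, ⟨q', hq'p.1, hq'.2, h.E_same q hqE q' hq'.1⟩⟩⟩

/-- the main class without loss -/
lemma ac0 (h : Dat x n E) {d e M b : ℕ} {γ : ℝ} (hn : n = d * e)
    (hk : Even ((E.filter (fun r => r ∣ d)).card) ∨ 3 ≤ (E.filter (fun r => r ∣ d)).card)
    (hb : b ∈ E) (hbd : b ∣ d) (hM : M ∣ (d - 1) * Nat.totient d) (hM1 : M ∣ n - 1)
    (hi : (x : ℝ) ^ γ * ((e : ℝ) / M + 1) ^ (2 / 3 : ℝ) ≤ (e : ℝ) ^ (1 / 2 : ℝ)) :
    IsAC R0 γ x n := by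
  have hdn : d ∣ n := ⟨e, hn⟩
  have hen : e ∣ n := ⟨d, by rw [hn, mul_comm]⟩
  have hd1 := (h.dvd_facts hdn).1
  obtain ⟨hbp, hbn⟩ := h.E_sub b hb
  have hd2 : 2 ≤ d := le_trans hbp.two_le (Nat.le_of_dvd (by omega) hbd)
  have hφ : 0 < Nat.totient d := Nat.totient_pos.mpr (by omega)
  have hM' : M ∈ ((d - 1) * Nat.totient d).divisors := by
    rw [Nat.mem_divisors]
    exact ⟨hM, (Nat.mul_pos (by omega) hφ).ne'⟩
  have hmod : d * e ≡ 1 [MOD M] := by rw [← hn]; exact h.modeq hM1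
  rcases sym_dvd h hen hb with h1 | h1
  · exact ⟨d, e, M, 1, hn, R0_mem h hdn hk, hd2, (h.dvd_facts hen).2.2.1, h1, nz_one x,
      Or.inl rfl, hM', hmod, hi⟩
  · exact ⟨d, e, M, b, hn, R0_mem h hdn hk, hd2, (h.dvd_facts hen).2.2.1, h1, h.nz b hbp hbn,
      Or.inr (Nat.mem_primeFactors.mpr ⟨hbp, hbd, by omega⟩), hM', hmod, hi⟩

/-- the main class with loss -/
lemma ac1 (h : Dat x n E) {q d' e M : ℕ} {γ η : ℝ} (hE : E = {q}) (hn : n = (q * d') * e)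
    (hP : P1 η x d' q) (hM : M ∣ (q * d' - 1) * Nat.totient (q * d')) (hM1 : M ∣ n - 1)
    (hi : (x : ℝ) ^ γ * ((e : ℝ) / M + 1) ^ (2 / 3 : ℝ) ≤ (e : ℝ) ^ (1 / 2 : ℝ)) :
    IsAC (R1 η) γ x n := by
  have hqE : q ∈ E := by rw [hE]; exact mem_singleton_self q
  obtain ⟨hqp, hqn⟩ := h.E_sub q hqE
  have hdn : q * d' ∣ n := ⟨e, hn⟩
  have hen : e ∣ n := ⟨q * d', by rw [hn, mul_comm]⟩
  have hd'n : d' ∣ n := (Dvd.intro_left q rfl).trans hdn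
  have hd1 := h.dvd_facts hdn
  have hd'1 := h.dvd_facts hd'n
  have hd2 : 2 ≤ q * d' := by nlinarith [hqp.two_le, hd'1.1]
  have hφ : 0 < Nat.totient (q * d') := Nat.totient_pos.mpr (by omega)
  have hzero : ∀ c : ℕ, q * c ∣ n → Even ((E.filter (fun r => r ∣ c)).card) := by
    intro c hc
    have : E.filter (fun r => r ∣ c) = ∅ := by
      rw [filter_eq_empty_iff]
      intro r hr hrc
      rw [hE, mem_singleton] at hr
      rw [hr] at hrc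
      have h2 : q * q ∣ n := (Nat.mul_dvd_mul dvd_rfl hrc).trans hc
      exact hqp.one_lt.ne' (Nat.isUnit_iff.mp (h.sq q h2))
    rw [this]; simp
  have he1 : e ∈ Dx x := by
    apply h.even_mem hen
    apply hzero
    refine ⟨d', ?_⟩
    rw [hn]; ring
  refine ⟨q * d', e, M, 1, hn, ?_, hd2, (h.dvd_facts hen).2.2.1, (mem_Dx.mp he1).2.2.2, nz_one x,
      Or.inl rfl, ?_, ?_, hi⟩
  · unfold R1
    rw [mem_Rg]
    exact ⟨⟨hd1.1, hd1.2.1⟩, Or.inr ⟨q, d', hqp, (h.dvd_facts hqn).2.2.1, rfl,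
      h.even_mem hd'n (hzero d' hdn), hP⟩⟩
  · rw [Nat.mem_divisors]
    exact ⟨hM, (Nat.mul_pos (by omega) hφ).ne'⟩
  · rw [← hn]; exact h.modeq hM1

lemma le_Lc (h : Dt x n E) {q d : ℕ} (hq : q.Prime) (hqd : q ∣ d) (hd : d ∣ n) :
    (q : ℝ) ^ (1 / 2 - 1 / 10000 : ℝ) ≤ Lc n d := by
  refine (h.gp2 q hq (hqd.trans hd)).trans ?_
  have hd0 := (h.dvd_facts hd).1
  exact_mod_cast Nat.le_of_dvd (Lc_pos (by omega)) (dvd_Lc hq hqd (by omega))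

/-- the class with a small modulus -/
lemma s2 (h : Dt x n E) {b f e d : ℕ} {l a a' α : ℝ} (hb : b ∈ E) (hn : n = b * (f * e))
    (hd : b * f ∣ d) (hdn : d ∣ n) (hL : (Lc n d : ℝ) ≤ (x : ℝ) ^ l) (hbα : (b : ℝ) ≤ (x : ℝ) ^ α)
    (hae : (x : ℝ) ^ a ≤ e) (hea : (e : ℝ) ≤ (x : ℝ) ^ a') : IsS2 l a a' α x n := by
  obtain ⟨hbp, hbn⟩ := h.E_sub b hb
  have hd1 := (h.dvd_facts hdn).1
  have hL1 : 1 ≤ Lc n d := Lc_pos (by omega)
  have hen : e ∣ n := ⟨b * f, by rw [hn]; ring⟩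
  have hfn : f ∣ n := ⟨b * e, by rw [hn]; ring⟩
  have hg : ∀ p : ℕ, p.Prime → p ∣ d →
      (p : ℝ) ^ (1 / 2 - 1 / 10000 : ℝ) ≤ Nat.gcd (p - 1) (Lc n d) := by
    intro p hp hpd
    refine (h.gp2 p hp (hpd.trans hdn)).trans ?_
    have h2 : Nat.gcd (p - 1) (n - 1) ∣ Nat.gcd (p - 1) (Lc n d) :=
      Nat.dvd_gcd (Nat.gcd_dvd_left _ _) (dvd_Lc hp hpd (by omega))
    have h3 := Nat.le_of_dvd (Nat.gcd_pos_of_pos_right _ hL1) h2
    exact_mod_cast h3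
  refine ⟨Lc n d, b, f, e, hn, hL1, hL, hbp, (h.dvd_facts hbn).2.2.1, hbα, h.nz b hbp hbn,
    hg b hbp ((Dvd.intro _ rfl).trans hd), (h.dvd_facts hfn).2.2.2, ?_, (h.dvd_facts hen).2.2.1,
    sym_dvd h.toDat hen hb, hae, hea, ?_⟩
  · intro p hp hpf
    refine ⟨(h.dvd_facts (hpf.trans hfn)).2.2.1, sym_dvd h.toDat (hpf.trans hfn) hb,
      hg p hp ((hpf.trans (Dvd.intro_left _ rfl)).trans hd)⟩
  · rw [← hn]; exact h.modeq (Lc_dvd_pred n d)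

end

/-! ### inequalities -/

lemma ev_rpow (c A : ℝ) (hc : 0 < c) : ∃ x0 : ℕ, 1 ≤ x0 ∧ ∀ x : ℕ, x0 ≤ x → A ≤ (x : ℝ) ^ c := by
  have hev : ∀ᶠ x : ℝ in Filter.atTop, A ≤ x ^ c :=
    (tendsto_rpow_atTop hc).eventually (Filter.eventually_ge_atTop A)
  obtain ⟨x1, hx1⟩ := Filter.eventually_atTop.mp hev
  refine ⟨max 1 ⌈x1⌉₊, le_max_left _ _, ?_⟩
  intro x hx
  exact hx1 x (Nat.ceil_le.mp ((le_max_right _ _).trans hx))

/-- a divisor below the modulus -/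
lemma ac_small (γ v : ℝ) (hγ : 2 * γ < v) : ∃ x0 : ℕ, ∀ x : ℕ, x0 ≤ x → ∀ e M : ℕ, 1 ≤ M →
    (x : ℝ) ^ v ≤ e → e ≤ M →
    (x : ℝ) ^ γ * ((e : ℝ) / M + 1) ^ (2 / 3 : ℝ) ≤ (e : ℝ) ^ (1 / 2 : ℝ) := by
  obtain ⟨x0, hx01, hx0⟩ := ev_rpow (v / 2 - γ) 2 (by linarith)
  refine ⟨x0, ?_⟩
  intro x hx e M hM he heM
  have hx1 : (1 : ℝ) ≤ x := by exact_mod_cast hx01.trans hx
  have hxpos : (0 : ℝ) < x := by linarith
  have hM0 : (0 : ℝ) < M := by exact_mod_cast hM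
  have h1 : (e : ℝ) / M + 1 ≤ 2 := by
    have : (e : ℝ) / M ≤ 1 := by
      rw [div_le_one hM0]; exact_mod_cast heM
    linarith
  have h2 : ((e : ℝ) / M + 1) ^ (2 / 3 : ℝ) ≤ 2 := by
    calc ((e : ℝ) / M + 1) ^ (2 / 3 : ℝ) ≤ 2 ^ (2 / 3 : ℝ) :=
          rpow_le_rpow (by positivity) h1 (by norm_num)
      _ ≤ (2 : ℝ) ^ (1 : ℝ) := rpow_le_rpow_of_exponent_le (by norm_num) (by norm_num)
      _ = 2 := rpow_one _
  calc (x : ℝ) ^ γ * ((e : ℝ) / M + 1) ^ (2 / 3 : ℝ) ≤ (x : ℝ) ^ γ * (x : ℝ) ^ (v / 2 - γ) :=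
        mul_le_mul_of_nonneg_left (h2.trans (hx0 x hx)) (by positivity)
    _ = ((x : ℝ) ^ v) ^ (1 / 2 : ℝ) := by
        rw [← rpow_add hxpos, ← rpow_mul hxpos.le]; congr 1; ring
    _ ≤ _ := rpow_le_rpow (by positivity) he (by norm_num)

/-- a prime divisor -/
lemma ac_prime (γ v : ℝ) (hγ : 2 * γ < v) (hγ1 : γ ≤ 202 / 10000) : ∃ x0 : ℕ, ∀ x : ℕ,
    x0 ≤ x → ∀ r M : ℕ, 1 ≤ M → (x : ℝ) ^ v ≤ r → (x : ℝ) ^ (609 / 10000 : ℝ) ≤ M →
    (r : ℝ) ^ (1 / 2 - 1 / 10000 : ℝ) ≤ M →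
    (x : ℝ) ^ γ * ((r : ℝ) / M + 1) ^ (2 / 3 : ℝ) ≤ (r : ℝ) ^ (1 / 2 : ℝ) := by
  obtain ⟨x1, hx11, hx1⟩ := ev_rpow (v / 2 - γ) 2 (by linarith)
  obtain ⟨x2, hx21, hx2⟩ := ev_rpow (1 / 20000) 2 (by norm_num)
  refine ⟨max x1 x2, ?_⟩
  intro x hx r M hM hr hM2 hM3
  have hxx1 : x1 ≤ x := (le_max_left _ _).trans hx
  have hxx2 : x2 ≤ x := (le_max_right _ _).trans hx
  have hx1' : (1 : ℝ) ≤ x := by exact_mod_cast hx11.trans hxx1
  have hxpos : (0 : ℝ) < x := by linarith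
  have hM0 : (0 : ℝ) < M := by exact_mod_cast hM
  have hr0 : (0 : ℝ) < r := lt_of_lt_of_le (by positivity) hr
  have hr1 : (1 : ℝ) ≤ r := by
    have : 0 < r := by exact_mod_cast hr0
    exact_mod_cast this
  -- the term with `1`
  have hA : (x : ℝ) ^ γ * 2 ≤ (r : ℝ) ^ (1 / 2 : ℝ) := by
    calc (x : ℝ) ^ γ * 2 ≤ (x : ℝ) ^ γ * (x : ℝ) ^ (v / 2 - γ) :=
          mul_le_mul_of_nonneg_left (hx1 x hxx1) (by positivity)
      _ = ((x : ℝ) ^ v) ^ (1 / 2 : ℝ) := by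
          rw [← rpow_add hxpos, ← rpow_mul hxpos.le]; congr 1; ring
      _ ≤ _ := rpow_le_rpow (by positivity) hr (by norm_num)
  -- the main term
  have hγx : (x : ℝ) ^ γ ≤ (x : ℝ) ^ (202 / 10000 : ℝ) := rpow_le_rpow_of_exponent_le hx1' hγ1
  have hB : (x : ℝ) ^ γ * ((r : ℝ) / M) ^ (2 / 3 : ℝ) * 2 ≤ (r : ℝ) ^ (1 / 2 : ℝ) := by
    have e0 : ((r : ℝ) / M) ^ (2 / 3 : ℝ) = (r : ℝ) ^ (2 / 3 : ℝ) * (M : ℝ) ^ (-(2 / 3) : ℝ) := by
      rw [div_rpow hr0.le hM0.le, rpow_neg hM0.le, div_eq_mul_inv]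
    rw [e0]
    rcases le_or_gt (r : ℝ) ((x : ℝ) ^ (1219 / 10000 : ℝ)) with hc | hc
    · have e1 : (M : ℝ) ^ (-(2 / 3) : ℝ) ≤ (x : ℝ) ^ (609 / 10000 * (-(2 / 3)) : ℝ) := by
        rw [rpow_mul hxpos.le]
        exact rpow_le_rpow_of_nonpos (by positivity) hM2 (by norm_num)
      have e2 : (r : ℝ) ^ (2 / 3 : ℝ) = (r : ℝ) ^ (1 / 2 : ℝ) * (r : ℝ) ^ (1 / 6 : ℝ) := by
        rw [← rpow_add hr0]; norm_num
      have e3 : (r : ℝ) ^ (1 / 6 : ℝ) ≤ (x : ℝ) ^ (1219 / 10000 * (1 / 6) : ℝ) := by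
        rw [rpow_mul hxpos.le]
        exact rpow_le_rpow hr0.le hc (by norm_num)
      calc (x : ℝ) ^ γ * ((r : ℝ) ^ (2 / 3 : ℝ) * (M : ℝ) ^ (-(2 / 3) : ℝ)) * 2 ≤
          (x : ℝ) ^ (202 / 10000 : ℝ) * (((r : ℝ) ^ (1 / 2 : ℝ) *
            (x : ℝ) ^ (1219 / 10000 * (1 / 6) : ℝ)) * (x : ℝ) ^ (609 / 10000 * (-(2 / 3)) : ℝ)) *
            (x : ℝ) ^ (1 / 20000 : ℝ) := by
            apply mul_le_mul _ (hx2 x hxx2) (by norm_num) (by positivity)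
            apply mul_le_mul hγx _ (by positivity) (by positivity)
            apply mul_le_mul _ e1 (by positivity) (by positivity)
            rw [e2]
            exact mul_le_mul_of_nonneg_left e3 (by positivity)
        _ = (r : ℝ) ^ (1 / 2 : ℝ) * ((x : ℝ) ^ (202 / 10000 : ℝ) *
            (x : ℝ) ^ (1219 / 10000 * (1 / 6) : ℝ) * (x : ℝ) ^ (609 / 10000 * (-(2 / 3)) : ℝ) *
            (x : ℝ) ^ (1 / 20000 : ℝ)) := by ring
        _ ≤ (r : ℝ) ^ (1 / 2 : ℝ) * 1 := by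
            apply mul_le_mul_of_nonneg_left _ (by positivity)
            rw [← rpow_add hxpos, ← rpow_add hxpos, ← rpow_add hxpos]
            exact rpow_le_one_of_one_le_of_nonpos hx1' (by norm_num)
        _ = _ := mul_one _
    · have e1 : (M : ℝ) ^ (-(2 / 3) : ℝ) ≤ (r : ℝ) ^ ((1 / 2 - 1 / 10000) * (-(2 / 3)) : ℝ) := by
        rw [rpow_mul hr0.le]
        exact rpow_le_rpow_of_nonpos (by positivity) hM3 (by norm_num)
      have e2 : (x : ℝ) ^ (202 / 10000 : ℝ) ≤ (r : ℝ) ^ (202 / 1219 : ℝ) := by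
        have := rpow_le_rpow (by positivity) hc.le (show (0 : ℝ) ≤ 202 / 1219 by norm_num)
        refine le_trans (le_of_eq ?_) this
        rw [← rpow_mul hxpos.le]; norm_num
      have e3 : (2 : ℝ) ≤ (r : ℝ) ^ (1 / 2000 : ℝ) := by
        have h4 : (2 : ℝ) ≤ (r : ℝ) ^ (1 / 2400 : ℝ) := by
          refine (hx2 x hxx2).trans ?_
          have := rpow_le_rpow (by positivity) hc.le (show (0 : ℝ) ≤ 1 / 2400 by norm_num)
          refine le_trans ?_ this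
          rw [← rpow_mul hxpos.le]
          exact rpow_le_rpow_of_exponent_le hx1' (by norm_num)
        exact h4.trans (rpow_le_rpow_of_exponent_le hr1 (by norm_num))
      calc (x : ℝ) ^ γ * ((r : ℝ) ^ (2 / 3 : ℝ) * (M : ℝ) ^ (-(2 / 3) : ℝ)) * 2 ≤
          (r : ℝ) ^ (202 / 1219 : ℝ) * ((r : ℝ) ^ (2 / 3 : ℝ) *
            (r : ℝ) ^ ((1 / 2 - 1 / 10000) * (-(2 / 3)) : ℝ)) * (r : ℝ) ^ (1 / 2000 : ℝ) := by
            apply mul_le_mul _ e3 (by norm_num) (by positivity)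
            apply mul_le_mul (hγx.trans e2) _ (by positivity) (by positivity)
            exact mul_le_mul_of_nonneg_left e1 (by positivity)
        _ = (r : ℝ) ^ (202 / 1219 + (2 / 3 + (1 / 2 - 1 / 10000) * (-(2 / 3))) + 1 / 2000 : ℝ) := by
            rw [rpow_add hr0, rpow_add hr0, rpow_add hr0]
        _ ≤ _ := rpow_le_rpow_of_exponent_le hr1 (by norm_num)
  have hC : ((r : ℝ) / M + 1) ^ (2 / 3 : ℝ) ≤ ((r : ℝ) / M) ^ (2 / 3 : ℝ) + 1 := by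
    have := rpow_add_le_add_rpow (show (0 : ℝ) ≤ (r : ℝ) / M by positivity)
      (show (0 : ℝ) ≤ 1 by norm_num) (show (0 : ℝ) ≤ 2 / 3 by norm_num)
      (show (2 / 3 : ℝ) ≤ 1 by norm_num)
    rwa [one_rpow] at this
  calc (x : ℝ) ^ γ * ((r : ℝ) / M + 1) ^ (2 / 3 : ℝ) ≤
      (x : ℝ) ^ γ * (((r : ℝ) / M) ^ (2 / 3 : ℝ) + 1) :=
        mul_le_mul_of_nonneg_left hC (by positivity)
    _ ≤ _ := by linarith

/-- the size of a prime with a small group -/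
lemma size_of {x q : ℕ} (hx : 1 ≤ x) (hq : 1 ≤ q) {l α : ℝ} {L : ℕ}
    (h : (q : ℝ) ^ (1 / 2 - 1 / 10000 : ℝ) ≤ L) (hL : (L : ℝ) ≤ (x : ℝ) ^ l)
    (hα : l * (10000 / 4999) ≤ α) : (q : ℝ) ≤ (x : ℝ) ^ α := by
  have hx1 : (1 : ℝ) ≤ x := by exact_mod_cast hx
  have hxpos : (0 : ℝ) < x := by linarith
  have hq0 : (0 : ℝ) < q := by exact_mod_cast hq
  have h1 := rpow_le_rpow (by positivity) (h.trans hL) (show (0 : ℝ) ≤ 10000 / 4999 by norm_num)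
  rw [← rpow_mul hq0.le, ← rpow_mul hxpos.le,
    show ((1 : ℝ) / 2 - 1 / 10000) * (10000 / 4999) = 1 by norm_num, rpow_one] at h1
  exact h1.trans (rpow_le_rpow_of_exponent_le hx1 hα)

/-- the size of a cofactor -/
lemma cof (t s : ℝ) (hts : t + s < 1) : ∃ x0 : ℕ, ∀ x : ℕ, x0 ≤ x → ∀ c m : ℕ,
    (x : ℝ) / 2 < ((c * m : ℕ) : ℝ) → (c : ℝ) ≤ (x : ℝ) ^ t → (x : ℝ) ^ s ≤ m := by
  obtain ⟨x0, hx01, hx0⟩ := ev_rpow (1 - (t + s)) 2 (by linarith)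
  refine ⟨x0, ?_⟩
  intro x hx c m h1 h2
  have hx1 : (1 : ℝ) ≤ x := by exact_mod_cast hx01.trans hx
  have hxpos : (0 : ℝ) < x := by linarith
  by_contra hc
  push Not at hc
  have e1 : (c : ℝ) * m ≤ (x : ℝ) ^ t * (x : ℝ) ^ s :=
    mul_le_mul h2 hc.le (Nat.cast_nonneg _) (by positivity)
  have e2 : (x : ℝ) ^ t * (x : ℝ) ^ s * 2 ≤ x := by
    calc (x : ℝ) ^ t * (x : ℝ) ^ s * 2 ≤ (x : ℝ) ^ t * (x : ℝ) ^ s * (x : ℝ) ^ (1 - (t + s)) :=
          mul_le_mul_of_nonneg_left (hx0 x hx) (by positivity)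
      _ = (x : ℝ) ^ (1 : ℝ) := by
          rw [← rpow_add hxpos, ← rpow_add hxpos]; congr 1; ring
      _ = x := rpow_one _
  push_cast at h1
  linarith

/-- a divisor of moderate size -/
lemma block {x m : ℕ} (hx : 2 ≤ x) {v : ℝ} (hv : 0 < v) (hm1 : 1 ≤ m)
    (hm : (x : ℝ) ^ v ≤ m) (hs : ∀ r : ℕ, r.Prime → r ∣ m → (r : ℝ) < (x : ℝ) ^ v) :
    ∃ e : ℕ, e ∣ m ∧ (x : ℝ) ^ v ≤ e ∧ (e : ℝ) < (x : ℝ) ^ (2 * v) := by
  have hxpos : (0 : ℝ) < x := by exact_mod_cast (by omega : 0 < x)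
  have hx1' : (1 : ℝ) < x := by exact_mod_cast (by omega : 1 < x)
  obtain ⟨e, he1, he2, he3⟩ := exists_div m ((x : ℝ) ^ v) hm1 hm
  refine ⟨e, he1, he2, ?_⟩
  have he1' : (1 : ℝ) < e := lt_of_lt_of_le (one_lt_rpow hx1' hv) he2
  have he1n : 1 < e := by exact_mod_cast he1'
  have hr := Nat.minFac_prime (show e ≠ 1 by omega)
  have hre := Nat.minFac_dvd e
  have h1 := he3 _ hr hre
  have h2 := hs _ hr (hre.trans he1)
  have h3 : (e : ℝ) = (e.minFac : ℝ) * ((e / e.minFac : ℕ) : ℝ) := by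
    have : e.minFac * (e / e.minFac) = e := Nat.mul_div_cancel' hre
    exact_mod_cast this.symm
  rw [h3]
  calc (e.minFac : ℝ) * ((e / e.minFac : ℕ) : ℝ) < (x : ℝ) ^ v * (x : ℝ) ^ v :=
        mul_lt_mul'' h2 h1 (Nat.cast_nonneg _) (Nat.cast_nonneg _)
    _ = _ := by rw [← rpow_add hxpos]; congr 1; ring

/-- a larger divisor of moderate size -/
lemma block2 {x m e0 : ℕ} (hx : 2 ≤ x) {a a' s : ℝ} (has : a + s ≤ a') (hm1 : 1 ≤ m)
    (he0 : e0 ∣ m) (he0' : (e0 : ℝ) ≤ (x : ℝ) ^ a') (hm : (x : ℝ) ^ a ≤ m)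
    (hs : ∀ r : ℕ, r.Prime → r ∣ m → (r : ℝ) ≤ (x : ℝ) ^ s) :
    ∃ e : ℕ, e0 ∣ e ∧ e ∣ m ∧ (x : ℝ) ^ a ≤ e ∧ (e : ℝ) ≤ (x : ℝ) ^ a' := by
  have hxpos : (0 : ℝ) < x := by exact_mod_cast (by omega : 0 < x)
  have hx1' : (1 : ℝ) < x := by exact_mod_cast (by omega : 1 < x)
  obtain ⟨c, hc⟩ := he0
  have he00 : 0 < e0 := by
    rcases Nat.eq_zero_or_pos e0 with h | h
    · rw [h, zero_mul] at hc; omega
    · exact h
  have hc0 : 1 ≤ c := by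
    rcases Nat.eq_zero_or_pos c with h | h
    · rw [h, mul_zero] at hc; omega
    · exact h
  have he0r : (0 : ℝ) < e0 := by exact_mod_cast he00
  obtain ⟨e, he1, he2, he3⟩ := exists_div c ((x : ℝ) ^ a / e0) hc0 (by
    rw [div_le_iff₀ he0r]
    rw [hc] at hm
    push_cast at hm
    linarith)
  refine ⟨e0 * e, Dvd.intro _ rfl, ?_, ?_, ?_⟩
  · rw [hc]; exact Nat.mul_dvd_mul dvd_rfl he1
  · rw [div_le_iff₀ he0r] at he2
    push_cast
    linarith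
  · rcases Nat.lt_or_ge 1 e with h | h
    · have hr := Nat.minFac_prime (show e ≠ 1 by omega)
      have hre := Nat.minFac_dvd e
      have h1 := he3 _ hr hre
      have h2 := hs _ hr ((hre.trans he1).trans (by rw [hc]; exact Dvd.intro_left _ rfl))
      have h3 : (e : ℝ) = (e.minFac : ℝ) * ((e / e.minFac : ℕ) : ℝ) := by
        have : e.minFac * (e / e.minFac) = e := Nat.mul_div_cancel' hre
        exact_mod_cast this.symm
      push_cast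
      rw [h3]
      rw [lt_div_iff₀ he0r] at h1
      calc (e0 : ℝ) * ((e.minFac : ℝ) * ((e / e.minFac : ℕ) : ℝ)) =
          (e.minFac : ℝ) * (((e / e.minFac : ℕ) : ℝ) * e0) := by ring
        _ ≤ (x : ℝ) ^ s * (x : ℝ) ^ a :=
            mul_le_mul h2 h1.le (by positivity) (by positivity)
        _ = (x : ℝ) ^ (a + s) := by rw [← rpow_add hxpos]; congr 1; ring
        _ ≤ _ := rpow_le_rpow_of_exponent_le hx1'.le has
    · have he11 : e = 1 := by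
        have : 0 < e := Nat.pos_of_dvd_of_pos he1 hc0
        omega
      rw [he11, mul_one]
      exact he0'

end Pool.Agent.L0h54.EY
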